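import Pool.Agent.H566M.Spec

/-! CLO: coloured linear orders, from the theorem on linear orders with a group of automorphisms
(here the trivial group). -/

set_option autoImplicit false

namespace Pool.Agent.H566M

open Set MeasureTheory
open Pool.Agent.H899R2.VP (St Adj PIso BF IsoOn idOn inv comp zipSet)
open Pool.Agent.H533R2.VO (RS lift put OS Ic RIso Dich VC BlkV S_FINAL)
open Pool.Agent.H566P (ar R2 v2 a0 a1 lt ac co mk S_ACC XG LO Isom Sm)

/-- the coloured order of a structure with an action of the trivial group -/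
private noncomputable def CLO_D (x : XG Unit) : R2 :=
  mk (fun a b => x.1 a b = true) (fun _ _ _ => False) (fun i a => x.2.2 i a = true)

open Classical in
/-- the way back -/
private noncomputable def CLO_E (R : R2) : XG Unit :=
  (fun a b => decide (lt R a b), fun _ m => m, fun i a => decide (co R i a))

private theorem CLO_lt (hA : S_ACC) (x : XG Unit) (a b : ℕ) :
    lt (CLO_D x) a b ↔ x.1 a b = true := hA.1 _ _ _ a b

private theorem CLO_ac (hA : S_ACC) (x : XG Unit) (n a b : ℕ) :
    ac (CLO_D x) n a b ↔ False := hA.2.1 _ _ _ n a b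

private theorem CLO_co (hA : S_ACC) (x : XG Unit) (n a : ℕ) :
    co (CLO_D x) n a ↔ x.2.2 n a = true := hA.2.2.1 _ _ _ n a

private theorem CLO_DE (hA : S_ACC) (R : R2) (h : CL R) : CLO_D (CLO_E R) = R := by
  refine hA.2.2.2.1 _ _ (fun x y => ?_) (fun n x y => ?_) (fun n x => ?_)
  · rw [CLO_lt hA]
    unfold CLO_E
    simp only [decide_eq_true_eq]
  · rw [CLO_ac hA]
    exact ⟨fun h1 => h1.elim, fun h1 => (h.ac0 n x y h1).elim⟩
  · rw [CLO_co hA]
    unfold CLO_E
    simp only [decide_eq_true_eq]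

private theorem CLO_beq {a b : Bool} (h : a = true ↔ b = true) : a = b := Bool.eq_iff_iff.2 h

private theorem CLO_iso1 (hA : S_ACC) (x y : XG Unit) (σ : Equiv.Perm ℕ) (h : Isom σ x y) :
    RIso (CLO_D x) (CLO_D y) := by
  obtain ⟨h1, h2, h3⟩ := h
  refine (hA.2.2.2.2.2.1 _ _).2 ⟨σ, fun a b => ?_, fun n a b => ?_, fun n a => ?_⟩
  · rw [CLO_lt hA, CLO_lt hA, h1]
  · rw [CLO_ac hA, CLO_ac hA]
  · rw [CLO_co hA, CLO_co hA, h3]

private theorem CLO_iso2 (hA : S_ACC) (x y : XG Unit) (hx : ∀ m, x.2.1 () m = m)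
    (hy : ∀ m, y.2.1 () m = m) (h : RIso (CLO_D x) (CLO_D y)) :
    ∃ σ : Equiv.Perm ℕ, Isom σ x y := by
  obtain ⟨σ, h1, -, h3⟩ := (hA.2.2.2.2.2.1 _ _).1 h
  refine ⟨σ, fun a b => CLO_beq ?_, fun γ m => ?_, fun i m => CLO_beq ?_⟩
  · rw [← CLO_lt hA, ← CLO_lt hA]
    exact h1 a b
  · rw [show γ = () from rfl, hx, hy]
  · rw [← CLO_co hA, ← CLO_co hA]
    exact h3 i m

private theorem CLO_meas (hA : S_ACC) : Measurable CLO_D := by
  refine hA.2.2.2.2.2.2.2.2.2.2.1 (XG Unit) CLO_D ?_ ?_ ?_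
  · intro m n
    have e : {ω : XG Unit | lt (CLO_D ω) m n} = (fun ω : XG Unit => ω.1 m n) ⁻¹' {true} := by
      ext ω
      exact CLO_lt hA ω m n
    rw [e]
    have h : Measurable (fun ω : XG Unit => ω.1 m n) :=
      (measurable_pi_apply n).comp ((measurable_pi_apply m).comp measurable_fst)
    exact h (measurableSet_singleton _)
  · intro k m n
    have e : {ω : XG Unit | ac (CLO_D ω) k m n} = ∅ := by
      ext ω
      exact CLO_ac hA ω k m n
    rw [e]
    exact MeasurableSet.empty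
  · intro i m
    have e : {ω : XG Unit | co (CLO_D ω) i m} = (fun ω : XG Unit => ω.2.2 i m) ⁻¹' {true} := by
      ext ω
      exact CLO_co hA ω i m
    rw [e]
    have h : Measurable (fun ω : XG Unit => ω.2.2 i m) :=
      (measurable_pi_apply m).comp ((measurable_pi_apply i).comp
        (measurable_snd.comp measurable_snd))
    exact h (measurableSet_singleton _)

private theorem CLO_cont (hA : S_ACC) : Continuous CLO_D := by
  refine hA.2.2.2.2.2.2.2.2.2.2.2 (XG Unit) CLO_D ?_ ?_ ?_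
  · intro m n
    have e : {ω : XG Unit | lt (CLO_D ω) m n} = (fun ω : XG Unit => ω.1 m n) ⁻¹' {true} := by
      ext ω
      exact CLO_lt hA ω m n
    rw [e]
    have h : Continuous (fun ω : XG Unit => ω.1 m n) :=
      (continuous_apply n).comp ((continuous_apply m).comp continuous_fst)
    exact (isClopen_discrete ({true} : Set Bool)).preimage h
  · intro k m n
    have e : {ω : XG Unit | ac (CLO_D ω) k m n} = ∅ := by
      ext ω
      exact CLO_ac hA ω k m n
    rw [e]
    exact isClopen_empty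
  · intro i m
    have e : {ω : XG Unit | co (CLO_D ω) i m} = (fun ω : XG Unit => ω.2.2 i m) ⁻¹' {true} := by
      ext ω
      exact CLO_co hA ω i m
    rw [e]
    have h : Continuous (fun ω : XG Unit => ω.2.2 i m) :=
      (continuous_apply m).comp ((continuous_apply i).comp
        (continuous_snd.comp continuous_snd))
    exact (isClopen_discrete ({true} : Set Bool)).preimage h

private theorem CLO_wf : WellFounded (Sm : Subgroup Unit → Subgroup Unit → Prop) := by
  refine ⟨fun a => Acc.intro a fun b hb => ?_⟩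
  exact absurd hb.2 (Subgroup.index_ne_zero_of_finite)

theorem t_CLO (hA : S_ACC) (hO : Pool.Agent.H566P.S_OUT) : S_CLO := by
  intro B hBm hBi hBV
  let B' : Set (XG Unit) := {x | (∀ m, x.2.1 () m = m) ∧ CLO_D x ∈ B}
  have hB'm : MeasurableSet B' := by
    have e : B' = (⋂ m : ℕ, (fun ω : XG Unit => ω.2.1 () m) ⁻¹' {m}) ∩ CLO_D ⁻¹' B := by
      ext x
      simp only [mem_inter_iff, mem_iInter]
      exact Iff.rfl
    rw [e]
    refine MeasurableSet.inter (MeasurableSet.iInter fun m => ?_) (CLO_meas hA hBm)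
    have h : Measurable (fun ω : XG Unit => ω.2.1 () m) :=
      (measurable_pi_apply m).comp ((measurable_pi_apply ()).comp
        (measurable_fst.comp measurable_snd))
    exact h (measurableSet_singleton _)
  have hLO : ∀ x ∈ B', LO x := by
    rintro x ⟨h1, h2⟩
    have h3 := hBV _ h2
    refine ⟨fun m => ?_, fun m n k => ?_, fun m n hmn => ?_, fun m => h1 m, fun γ δ m => ?_,
      fun γ m n h => ?_⟩
    · have h4 := h3.irr m
      rw [CLO_lt hA] at h4
      exact Bool.eq_false_iff.2 h4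
    · rw [← CLO_lt hA, ← CLO_lt hA, ← CLO_lt hA]
      exact h3.tr m n k
    · rw [← CLO_lt hA, ← CLO_lt hA]
      exact h3.tot m n hmn
    · rw [show γ * δ = () from rfl, show γ = () from rfl, show δ = () from rfl, h1, h1]
    · rw [show γ = () from rfl, h1, h1]
      exact h
  have hinv : ∀ x ∈ B', ∀ (y : XG Unit) (σ : Equiv.Perm ℕ), Isom σ x y → y ∈ B' := by
    rintro x ⟨h1, h2⟩ y σ h
    refine ⟨fun m => ?_, (hBi _ _ (CLO_iso1 hA x y σ h)).1 h2⟩
    obtain ⟨m, rfl⟩ := σ.surjective m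
    rw [h.2.1, h1]
  rcases hO Unit CLO_wf B' hB'm hLO hinv with ⟨f, hf⟩ | ⟨c, hc1, hc2, hc3⟩
  · left
    refine ⟨fun n => CLO_D (f n), fun R hR => ?_⟩
    have hDE := CLO_DE hA R (hBV R hR)
    have hm : CLO_E R ∈ B' := by
      refine ⟨fun m => rfl, ?_⟩
      rw [hDE]
      exact hR
    obtain ⟨n, σ, h1⟩ := hf _ hm
    refine ⟨n, ?_⟩
    have h2 := CLO_iso1 hA _ _ σ h1
    rwa [hDE] at h2
  · right
    refine ⟨fun A => CLO_D (c A), (CLO_cont hA).comp hc1, fun A => (hc2 A).2, ?_⟩
    intro A A' h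
    exact hc3 A A' (CLO_iso2 hA _ _ (hc2 A).1 (hc2 A').1 h)

end Pool.Agent.H566M
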