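import Pool.Agent.H566M.Spec

/-! CONT: continuity of decoding. -/

set_option autoImplicit false

namespace Pool.Agent.H566M

open Set MeasureTheory
open Pool.Agent.H899R2.VP (St Adj PIso BF IsoOn idOn inv comp zipSet)
open Pool.Agent.H533R2.VO (RS lift put OS Ic RIso Dich VC BlkV S_FINAL)
open Pool.Agent.H566P (ar R2 v2 a0 a1 lt ac co mk S_ACC)

theorem CONT_key {Ω : Type} [TopologicalSpace Ω] (P Q : ℤ → Ω → Prop) (S : ℤ → ℤ → Ω → Prop)
    (hP : ∀ k, IsClopen {A | P k A}) (hQ : ∀ k, IsClopen {A | Q k A})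
    (hS : ∀ k l, IsClopen {A | S k l A})
    (hPe : ∀ A, ∃ k, P k A) (hPu : ∀ A k l, P k A → P l A → k = l)
    (hQe : ∀ A, ∃ k, Q k A) (hQu : ∀ A k l, Q k A → Q l A → k = l) :
    IsClopen {A | ∃ k l : ℤ, P k A ∧ Q l A ∧ S k l A} := by
  have ho : ∀ S' : ℤ → ℤ → Ω → Prop, (∀ k l, IsOpen {A | S' k l A}) →
      IsOpen {A | ∃ k l : ℤ, P k A ∧ Q l A ∧ S' k l A} := by
    intro S' hS'
    have e : {A | ∃ k l : ℤ, P k A ∧ Q l A ∧ S' k l A} =
        ⋃ k : ℤ, ⋃ l : ℤ, ({A | P k A} ∩ ({A | Q l A} ∩ {A | S' k l A})) := by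
      ext A
      simp only [mem_setOf_eq, mem_iUnion, mem_inter_iff]
    rw [e]
    exact isOpen_iUnion fun k => isOpen_iUnion fun l =>
      (hP k).isOpen.inter ((hQ l).isOpen.inter (hS' k l))
  refine ⟨?_, ho S fun k l => (hS k l).isOpen⟩
  rw [← isOpen_compl_iff]
  have e : {A | ∃ k l : ℤ, P k A ∧ Q l A ∧ S k l A}ᶜ =
      {A | ∃ k l : ℤ, P k A ∧ Q l A ∧ ¬ S k l A} := by
    ext A
    simp only [mem_compl_iff, mem_setOf_eq]
    constructor
    · intro h
      obtain ⟨k, hk⟩ := hPe A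
      obtain ⟨l, hl⟩ := hQe A
      exact ⟨k, l, hk, hl, fun hs => h ⟨k, l, hk, hl, hs⟩⟩
    · rintro ⟨k, l, hk, hl, hs⟩ ⟨k', l', hk', hl', hs'⟩
      have e1 := hPu A k k' hk hk'
      have e2 := hQu A l l' hl hl'
      subst e1
      subst e2
      exact hs hs'
  rw [e]
  exact ho (fun k l A => ¬ S k l A) fun k l => (hS k l).compl.isOpen

theorem CONT_const {Ω : Type} [TopologicalSpace Ω] (p q : Prop) (T : Ω → Prop)
    (hT : IsClopen {A | T A}) : IsClopen {A | p ∨ (q ∧ T A)} := by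
  by_cases hp : p
  · have e : {A | p ∨ (q ∧ T A)} = univ := by
      ext A
      simp [hp]
    rw [e]
    exact isClopen_univ
  · by_cases hq : q
    · have e : {A | p ∨ (q ∧ T A)} = {A | T A} := by
        ext A
        simp [hp, hq]
      rw [e]
      exact hT
    · have e : {A | p ∨ (q ∧ T A)} = (∅ : Set Ω) := by
        ext A
        simp [hp, hq]
      rw [e]
      exact isClopen_empty

theorem CONT_val {Ω : Type} [TopologicalSpace Ω] (c : Ω → R2) (hc : Continuous c) (i : ℕ)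
    (v : Fin (ar i) → ℕ) : IsClopen {A | c A i v = true} := by
  have h1 : Continuous fun A => c A i v :=
    (continuous_apply v).comp ((continuous_apply i).comp hc)
  exact (isClopen_discrete ({true} : Set Bool)).preimage h1

theorem t_CONT (hA : S_ACC) : S_CONT := by
  intro c hc hex huni
  obtain ⟨hlt, hac, hco, -, -, -, -, -, -, -, -, hcont⟩ := hA
  have hL : ∀ x y, IsClopen {A | lt (c A) x y} := fun x y => CONT_val c hc 0 (v2 0 x y)
  have hC : ∀ n x, IsClopen {A | co (c A) n x} := fun n x =>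
    CONT_val c hc (2 * n + 2) (v2 (2 * n + 2) x x)
  have hV : ∀ k y, IsClopen {A | lev (c A) k y} := fun k y => hC _ y
  refine hcont (ℕ → Bool) (fun A => Dec (c A)) ?_ ?_ ?_
  · intro x y
    have e : {A | lt (Dec (c A)) x y} = {A | ∃ k l : ℤ, lev (c A) k x ∧ lev (c A) l y ∧
        (k < l ∨ (k = l ∧ lt (c A) x y))} := by
      ext A
      simp only [mem_setOf_eq]
      unfold Dec mk1
      rw [hlt]
      constructor
      · rintro (⟨k, l, h1, h2, h3⟩ | ⟨k, h1, h2, h3⟩)
        · exact ⟨k, l, h2, h3, Or.inl h1⟩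
        · exact ⟨k, k, h1, h2, Or.inr ⟨rfl, h3⟩⟩
      · rintro ⟨k, l, h1, h2, h3 | ⟨h3, h4⟩⟩
        · exact Or.inl ⟨k, l, h3, h1, h2⟩
        · subst h3
          exact Or.inr ⟨k, h1, h2, h4⟩
    rw [e]
    exact CONT_key (fun k A => lev (c A) k x) (fun k A => lev (c A) k y)
      (fun k l A => k < l ∨ (k = l ∧ lt (c A) x y)) (fun k => hV k x) (fun k => hV k y)
      (fun k l => CONT_const _ _ (fun A => lt (c A) x y) (hL x y))
      (fun A => hex A x) (fun A => huni A x) (fun A => hex A y) (fun A => huni A y)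
  · intro n x y
    by_cases hn : n = 0
    · have e : {A | ac (Dec (c A)) n x y} = {A | ∃ k l : ℤ, lev (c A) k x ∧ lev (c A) l y ∧
          (k + 2 ≤ l ∨ (l = k + 1 ∧ lt (c A) x y))} := by
        ext A
        simp only [mem_setOf_eq]
        unfold Dec mk1
        rw [hac]
        constructor
        · rintro ⟨-, ⟨k, l, h1, h2, h3⟩ | ⟨k, h1, h2, h3⟩⟩
          · exact ⟨k, l, h2, h3, Or.inl h1⟩
          · exact ⟨k, k + 1, h1, h2, Or.inr ⟨rfl, h3⟩⟩
        · rintro ⟨k, l, h1, h2, h3 | ⟨h3, h4⟩⟩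
          · exact ⟨hn, Or.inl ⟨k, l, h3, h1, h2⟩⟩
          · subst h3
            exact ⟨hn, Or.inr ⟨k, h1, h2, h4⟩⟩
      rw [e]
      exact CONT_key (fun k A => lev (c A) k x) (fun k A => lev (c A) k y)
        (fun k l A => k + 2 ≤ l ∨ (l = k + 1 ∧ lt (c A) x y)) (fun k => hV k x) (fun k => hV k y)
        (fun k l => CONT_const _ _ (fun A => lt (c A) x y) (hL x y))
        (fun A => hex A x) (fun A => huni A x) (fun A => hex A y) (fun A => huni A y)
    · have e : {A | ac (Dec (c A)) n x y} = (∅ : Set (ℕ → Bool)) := by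
        ext A
        simp only [mem_setOf_eq, mem_empty_iff_false, iff_false]
        unfold Dec mk1
        rw [hac]
        rintro ⟨h1, -⟩
        exact hn h1
      rw [e]
      exact isClopen_empty
  · intro n x
    have e : {A | co (Dec (c A)) n x} = {A | co (c A) (2 * n + 2) x} := by
      ext A
      simp only [mem_setOf_eq]
      unfold Dec mk1
      rw [hco]
    rw [e]
    exact hC _ _

end Pool.Agent.H566M
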