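import Pool.Agent.H566M.Spec

/-! Decoding of the coloured linear order. -/

set_option autoImplicit false

namespace Pool.Agent.H566M

open Set MeasureTheory
open Pool.Agent.H566P (ar R2 v2 a0 a1 lt ac co mk S_ACC)

private theorem DEC_lev (hA : S_ACC) (R : R2) (p : ℕ) (k : ℤ) (y : ℕ) :
    lev (Cod R p) k y ↔ lv R p k y := by
  unfold lev Cod
  rw [hA.2.2.1]
  constructor
  · rintro (⟨h, -⟩ | ⟨m, h, -⟩ | ⟨l, h, h2⟩)
    · omega
    · omega
    · have h3 : Equiv.intEquivNat k = Equiv.intEquivNat l := by omega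
      rw [Equiv.intEquivNat.injective h3]
      exact h2
  · intro h
    exact Or.inr (Or.inr ⟨k, rfl, h⟩)

private theorem DEC_co0 (hA : S_ACC) (R : R2) (p y : ℕ) : co (Cod R p) 0 y ↔ y = p := by
  unfold Cod
  rw [hA.2.2.1]
  constructor
  · rintro (⟨-, h⟩ | ⟨m, h, -⟩ | ⟨l, h, -⟩)
    · exact h
    · omega
    · omega
  · intro h
    exact Or.inl ⟨rfl, h⟩

private theorem DEC_co (hA : S_ACC) (R : R2) (p m y : ℕ) :
    co (Cod R p) (2 * m + 2) y ↔ co R m y := by
  unfold Cod
  rw [hA.2.2.1]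
  constructor
  · rintro (⟨h, -⟩ | ⟨m', h, h2⟩ | ⟨l, h, -⟩)
    · omega
    · have h3 : m = m' := by omega
      rw [h3]
      exact h2
    · omega
  · intro h
    exact Or.inr (Or.inl ⟨m, rfl, h⟩)

private theorem DEC_lt (hA : S_ACC) (R : R2) (p x y : ℕ) :
    lt (Cod R p) x y ↔ mg R p x y := hA.1 _ _ _ _ _

private theorem DEC_same (hL : S_LEV) (R : R2) (hR : ME R) (p x y : ℕ) (k : ℤ)
    (hx : lv R p k x) (hy : lv R p k y) : mg R p x y ↔ lt R x y := by
  obtain ⟨-, hu, -⟩ := hL R hR p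
  constructor
  · rintro ⟨k', l', h1, h2, h3⟩
    have e1 := hu x k' k h1 hx
    have e2 := hu y l' k h2 hy
    subst e1
    subst e2
    rcases h3 with ⟨-, hne, h⟩ | ⟨h, -⟩
    · rw [sub_self] at h
      rcases h with h | h
      · exact absurd h hne
      · exact h
    · exact absurd h (lt_irrefl _)
  · intro h
    refine ⟨k, k, hx, hy, Or.inl ⟨le_refl k, ?_, ?_⟩⟩
    · rintro rfl
      exact hR.lm.irr _ h
    · rw [sub_self]
      exact Or.inr h

private theorem DEC_next (hC : S_CHB) (hL : S_LEV) (R : R2) (hR : ME R) (p x y : ℕ) (k : ℤ)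
    (hx : lv R p k x) (hy : lv R p (k + 1) y) : mg R p x y ↔ mo R x y := by
  obtain ⟨-, hu, -⟩ := hL R hR p
  obtain ⟨-, h1, -⟩ := hC R hR.lm
  have ht : (k + 1 - k).toNat = 1 := by
    have : k + 1 - k = 1 := by ring
    rw [this]; rfl
  constructor
  · rintro ⟨k', l', h2, h3, h4⟩
    have e1 := hu x k' k h2 hx
    have e2 := hu y l' (k + 1) h3 hy
    subst e1
    subst e2
    rcases h4 with ⟨-, hne, h⟩ | ⟨h, -⟩
    · rw [ht] at h
      exact (h1 x y).1 h
    · omega
  · intro h
    refine ⟨k, k + 1, hx, hy, Or.inl ⟨by omega, ?_, ?_⟩⟩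
    · rintro rfl
      have := hu x k (k + 1) hx hy
      omega
    · rw [ht]
      exact (h1 x y).2 h

theorem t_DEC (hA : S_ACC) (hC : S_CHB) (hL : S_LEV) : S_DEC := by
  intro R hR p
  obtain ⟨hex, hu, h0, h4, h5, h6⟩ := hL R hR p
  refine ⟨?_, ?_, ?_, fun y => DEC_co0 hA R p y⟩
  · apply hA.2.2.2.1
    · intro x y
      unfold Dec mk1
      rw [hA.1]
      simp only [DEC_lev hA, DEC_lt hA]
      constructor
      · rintro (⟨k, l, hkl, hx, hy⟩ | ⟨k, hx, hy, h⟩)
        · exact h4 x y k l hx hy hkl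
        · exact (DEC_same hL R hR p x y k hx hy).1 h
      · intro h
        obtain ⟨k, hx⟩ := hex x
        obtain ⟨l, hy⟩ := hex y
        rcases lt_trichotomy k l with hkl | hkl | hkl
        · exact Or.inl ⟨k, l, hkl, hx, hy⟩
        · subst hkl
          exact Or.inr ⟨k, hx, hy, (DEC_same hL R hR p x y k hx hy).2 h⟩
        · exact absurd (hR.lm.tr _ _ _ h (h4 y x l k hy hx hkl)) (hR.lm.irr x)
    · intro n x y
      unfold Dec mk1
      rw [hA.2.1]
      simp only [DEC_lev hA, DEC_lt hA]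
      rcases n with _ | n
      · constructor
        · rintro ⟨-, (⟨k, l, hkl, hx, hy⟩ | ⟨k, hx, hy, h⟩)⟩
          · exact h5 x y k l hx hy hkl
          · exact (DEC_next hC hL R hR p x y k hx hy).1 h
        · intro h
          have hm : mo R x y := h
          obtain ⟨k, hx⟩ := hex x
          obtain ⟨l, hy⟩ := hex y
          have hle := h6 1 x y k l hx hy (((hC R hR.lm).2.1 x y).2 hm)
          refine ⟨rfl, ?_⟩
          by_cases hkl : k + 2 ≤ l
          · exact Or.inl ⟨k, l, hkl, hx, hy⟩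
          · have e : l = k + 1 := by
              push_cast at hle
              omega
            subst e
            exact Or.inr ⟨k, hx, hy, (DEC_next hC hL R hR p x y k hx hy).2 hm⟩
      · constructor
        · rintro ⟨h, -⟩
          omega
        · intro h
          exact absurd h (hR.lm.ac0 n x y)
    · intro n x
      unfold Dec mk1
      rw [hA.2.2.1]
      exact DEC_co hA R p n x
  · intro y
    obtain ⟨k, hk⟩ := hex y
    exact ⟨k, (DEC_lev hA R p k y).2 hk⟩
  · intro y k l hk hl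
    exact hu y k l ((DEC_lev hA R p k y).1 hk) ((DEC_lev hA R p l y).1 hl)

end Pool.Agent.H566M
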