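import Pool.Agent.H566M.Spec

set_option autoImplicit false

namespace Pool.Agent.H566M

open Set MeasureTheory
open Pool.Agent.H899R2.VP (St Adj PIso BF IsoOn idOn inv comp zipSet)
open Pool.Agent.H533R2.VO (RS lift put OS Ic RIso Dich VC BlkV S_FINAL)
open Pool.Agent.H566P (ar R2 v2 a0 a1 lt ac co mk S_ACC)

/-- the dual structure -/
noncomputable def DUAL_D (R : R2) : R2 :=
  mk1 (fun x y => lt R y x) (fun x y => ¬ mo R x y) (co R)

theorem DUAL_lt (hA : S_ACC) (R : R2) (x y : ℕ) : lt (DUAL_D R) x y ↔ lt R y x := by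
  unfold DUAL_D mk1
  exact hA.1 _ _ _ x y

theorem DUAL_ac (hA : S_ACC) (R : R2) (n x y : ℕ) :
    ac (DUAL_D R) n x y ↔ n = 0 ∧ ¬ mo R x y := by
  unfold DUAL_D mk1
  exact hA.2.1 _ _ _ n x y

theorem DUAL_mo (hA : S_ACC) (R : R2) (x y : ℕ) : mo (DUAL_D R) x y ↔ ¬ mo R x y := by
  unfold mo
  rw [DUAL_ac hA]
  simp [mo]

theorem DUAL_co (hA : S_ACC) (R : R2) (n x : ℕ) : co (DUAL_D R) n x ↔ co R n x := by
  unfold DUAL_D mk1
  exact hA.2.2.1 _ _ _ n x

theorem DUAL_ac0 (hA : S_ACC) (R : R2) (n x y : ℕ) : ¬ ac (DUAL_D R) (n + 1) x y := by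
  rw [DUAL_ac hA]
  rintro ⟨h, _⟩
  omega

theorem DUAL_DD (hA : S_ACC) (R : R2) (h0 : ∀ n x y, ¬ ac R (n + 1) x y) :
    DUAL_D (DUAL_D R) = R := by
  refine hA.2.2.2.1 _ _ ?_ ?_ ?_
  · intro x y
    rw [DUAL_lt hA, DUAL_lt hA]
  · intro n x y
    rw [DUAL_ac hA, DUAL_mo hA, not_not]
    cases n with
    | zero => simp [mo]
    | succ n =>
      constructor
      · rintro ⟨h, _⟩
        omega
      · intro h
        exact absurd h (h0 n x y)
  · intro n x
    rw [DUAL_co hA, DUAL_co hA]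

theorem DUAL_lk (hA : S_ACC) (R : R2) (x y : ℕ) : lk (DUAL_D R) x y ↔ lk R x y := by
  unfold lk
  rw [DUAL_lt hA, DUAL_lt hA, DUAL_mo hA, DUAL_mo hA, not_not, not_not]
  tauto

theorem DUAL_sim (hA : S_ACC) (R : R2) (x y : ℕ) (h : sim R x y) : sim (DUAL_D R) x y := by
  unfold sim at h ⊢
  exact Relation.ReflTransGen.mono (fun a b hab => (DUAL_lk hA R a b).2 hab) _ _ h

theorem DUAL_LM (hA : S_ACC) (R : R2) (h : LM R) : LM (DUAL_D R) where
  irr := fun x hx => h.irr x ((DUAL_lt hA R x x).1 hx)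
  tr := fun x y z hxy hyz => (DUAL_lt hA R x z).2
    (h.tr z y x ((DUAL_lt hA R y z).1 hyz) ((DUAL_lt hA R x y).1 hxy))
  tot := fun x y hne => by
    rw [DUAL_lt hA, DUAL_lt hA]
    exact (h.tot x y hne).symm
  mono := fun x x' y y' h1 h2 h3 => by
    rw [DUAL_mo hA] at h2 ⊢
    intro h4
    apply h2
    refine h.mono x' x y' y ?_ h4 ?_
    · rcases h1 with h1 | h1
      · exact Or.inl h1.symm
      · exact Or.inr ((DUAL_lt hA R x' x).1 h1)
    · rcases h3 with h3 | h3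
      · exact Or.inl h3.symm
      · exact Or.inr ((DUAL_lt hA R y y').1 h3)
  ac0 := DUAL_ac0 hA R

theorem DUAL_MC (hA : S_ACC) (R : R2) (h : MC R) : ME (DUAL_D R) where
  lm := DUAL_LM hA R h.lm
  con := fun x y => DUAL_sim hA R x y (h.con x y)
  ex := fun x hx => ((DUAL_mo hA R x x).1 hx) (h.cx x)

theorem DUAL_iso (hA : S_ACC) (R R' : R2) (h : RIso R R') : RIso (DUAL_D R) (DUAL_D R') := by
  have hiso := hA.2.2.2.2.2.1
  rw [hiso] at h ⊢
  obtain ⟨σ, h1, h2, h3⟩ := h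
  refine ⟨σ, ?_, ?_, ?_⟩
  · intro x y
    rw [DUAL_lt hA, DUAL_lt hA]
    exact h1 y x
  · intro n x y
    rw [DUAL_ac hA, DUAL_ac hA]
    unfold mo
    rw [h2]
  · intro n x
    rw [DUAL_co hA, DUAL_co hA]
    exact h3 n x

theorem DUAL_iso0 (hA : S_ACC) (R R' : R2) (h : RIso R R') (h0 : ∀ n x y, ¬ ac R (n + 1) x y) :
    ∀ n x y, ¬ ac R' (n + 1) x y := by
  have hiso := hA.2.2.2.2.2.1
  rw [hiso] at h
  obtain ⟨σ, h1, h2, h3⟩ := h
  intro n x y hxy
  have := h2 (n + 1) (σ.symm x) (σ.symm y)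
  rw [Equiv.apply_symm_apply, Equiv.apply_symm_apply] at this
  exact h0 n _ _ (this.1 hxy)

theorem DUAL_meas (hA : S_ACC) : Measurable DUAL_D := by
  have hA' := hA
  obtain ⟨_, _, _, _, _, _, _, mlt, mac, mco, hmeas, _⟩ := hA
  refine hmeas R2 DUAL_D ?_ ?_ ?_
  · intro x y
    have : {R : R2 | lt (DUAL_D R) x y} = {R | lt R y x} := by
      ext R
      exact DUAL_lt hA' R x y
    rw [this]
    exact mlt y x
  · intro n x y
    cases n with
    | zero =>
      have : {R : R2 | ac (DUAL_D R) 0 x y} = {R | ac R 0 x y}ᶜ := by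
        ext R
        simp only [mem_setOf_eq, mem_compl_iff]
        rw [DUAL_ac hA']
        simp [mo]
      rw [this]
      exact (mac 0 x y).compl
    | succ n =>
      have : {R : R2 | ac (DUAL_D R) (n + 1) x y} = ∅ := by
        ext R
        simp only [mem_setOf_eq, mem_empty_iff_false, iff_false]
        exact DUAL_ac0 hA' R n x y
      rw [this]
      exact MeasurableSet.empty
  · intro n x
    have : {R : R2 | co (DUAL_D R) n x} = {R | co R n x} := by
      ext R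
      exact DUAL_co hA' R n x
    rw [this]
    exact mco n x

theorem DUAL_clopen (i : ℕ) (v : Fin (ar i) → ℕ) : IsClopen {R : R2 | R i v = true} := by
  have hc : Continuous fun R : R2 => R i v :=
    (continuous_apply v).comp (continuous_apply i)
  exact (isClopen_discrete {true}).preimage hc

theorem DUAL_cont (hA : S_ACC) : Continuous DUAL_D := by
  have hcont := hA.2.2.2.2.2.2.2.2.2.2.2
  refine hcont R2 DUAL_D ?_ ?_ ?_
  · intro x y
    have : {R : R2 | lt (DUAL_D R) x y} = {R | lt R y x} := by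
      ext R
      exact DUAL_lt hA R x y
    rw [this]
    exact DUAL_clopen _ _
  · intro n x y
    cases n with
    | zero =>
      have : {R : R2 | ac (DUAL_D R) 0 x y} = {R | ac R 0 x y}ᶜ := by
        ext R
        simp only [mem_setOf_eq, mem_compl_iff]
        rw [DUAL_ac hA]
        simp [mo]
      rw [this]
      exact (DUAL_clopen _ _).compl
    | succ n =>
      have : {R : R2 | ac (DUAL_D R) (n + 1) x y} = ∅ := by
        ext R
        simp only [mem_setOf_eq, mem_empty_iff_false, iff_false]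
        exact DUAL_ac0 hA R n x y
      rw [this]
      exact isClopen_empty
  · intro n x
    have : {R : R2 | co (DUAL_D R) n x} = {R | co R n x} := by
      ext R
      exact DUAL_co hA R n x
    rw [this]
    exact DUAL_clopen _ _

theorem t_DUAL (hA : S_ACC) : S_DUAL := by
  intro hVC B hBm hBi hBV
  have hmac := hA.2.2.2.2.2.2.2.2.1
  have hB'm : MeasurableSet {R : R2 | (∀ n x y, ¬ ac R (n + 1) x y) ∧ DUAL_D R ∈ B} := by
    have e1 : {R : R2 | (∀ n x y, ¬ ac R (n + 1) x y) ∧ DUAL_D R ∈ B} =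
        (⋂ n, ⋂ x, ⋂ y, {R : R2 | ac R (n + 1) x y}ᶜ) ∩ DUAL_D ⁻¹' B := by
      ext R
      simp only [mem_setOf_eq, mem_inter_iff, mem_iInter, mem_compl_iff, mem_preimage]
    rw [e1]
    refine MeasurableSet.inter ?_ (DUAL_meas hA hBm)
    exact MeasurableSet.iInter fun n => MeasurableSet.iInter fun x => MeasurableSet.iInter fun y =>
      (hmac (n + 1) x y).compl
  have hsymm : ∀ x y : R2, RIso x y → RIso y x := by
    intro x y h
    rw [hA.2.2.2.2.2.1] at h ⊢
    obtain ⟨σ, h1, h2, h3⟩ := h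
    refine ⟨σ.symm, ?_, ?_, ?_⟩
    · intro a b
      rw [← h1, Equiv.apply_symm_apply, Equiv.apply_symm_apply]
    · intro n a b
      rw [← h2, Equiv.apply_symm_apply, Equiv.apply_symm_apply]
    · intro n a
      rw [← h3, Equiv.apply_symm_apply]
  have hone : ∀ x y : R2, RIso x y →
      x ∈ {R : R2 | (∀ n x y, ¬ ac R (n + 1) x y) ∧ DUAL_D R ∈ B} →
      y ∈ {R : R2 | (∀ n x y, ¬ ac R (n + 1) x y) ∧ DUAL_D R ∈ B} := by
    rintro x y h ⟨h1, h2⟩
    exact ⟨DUAL_iso0 hA x y h h1, (hBi _ _ (DUAL_iso hA x y h)).1 h2⟩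
  have hdich := hVC {R : R2 | (∀ n x y, ¬ ac R (n + 1) x y) ∧ DUAL_D R ∈ B} hB'm
    (fun x y h => ⟨hone x y h, hone y x (hsymm x y h)⟩) (by
      rintro x ⟨h1, h2⟩
      have h3 := DUAL_MC hA _ (hBV _ h2)
      rw [DUAL_DD hA x h1] at h3
      exact h3)
  rcases hdich with ⟨f, hf⟩ | ⟨g, hg, hgB, hgi⟩
  · left
    refine ⟨fun n => DUAL_D (f n), fun x hx => ?_⟩
    have hx0 := (hBV x hx).lm.ac0
    obtain ⟨n, hn⟩ := hf (DUAL_D x) ⟨DUAL_ac0 hA x, by rw [DUAL_DD hA x hx0]; exact hx⟩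
    refine ⟨n, ?_⟩
    have := DUAL_iso hA _ _ hn
    rw [DUAL_DD hA x hx0] at this
    exact this
  · right
    refine ⟨fun c => DUAL_D (g c), (DUAL_cont hA).comp hg, fun c => (hgB c).2, fun c d h => ?_⟩
    have := DUAL_iso hA _ _ h
    rw [DUAL_DD hA _ (hgB c).1, DUAL_DD hA _ (hgB d).1] at this
    exact hgi c d this

end Pool.Agent.H566M
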