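import Pool.Agent.H566M.Spec

/-! EQ1: coding respects isomorphisms -/

set_option autoImplicit false

namespace Pool.Agent.H566M

open Set MeasureTheory
open Pool.Agent.H899R2.VP (St Adj PIso BF IsoOn idOn inv comp zipSet)
open Pool.Agent.H533R2.VO (RS lift put OS Ic RIso Dich VC BlkV S_FINAL)
open Pool.Agent.H566P (ar R2 v2 a0 a1 lt ac co mk S_ACC)

theorem EQ1_ch {R R' : R2} {σ : Equiv.Perm ℕ} (h : Is R R' σ) (n : ℕ) :
    ∀ x y, ch R' n (σ x) (σ y) ↔ ch R n x y := by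
  obtain ⟨h1, h2, h3⟩ := h
  induction n with
  | zero =>
    intro x y
    simp only [ch]
    rw [h1, σ.injective.eq_iff]
  | succ n ih =>
    intro x y
    simp only [ch]
    constructor
    · rintro ⟨z, hz1, hz2⟩
      obtain ⟨z, rfl⟩ := σ.surjective z
      exact ⟨z, (ih _ _).1 hz1, (h2 0 _ _).1 hz2⟩
    · rintro ⟨z, hz1, hz2⟩
      exact ⟨σ z, (ih _ _).2 hz1, (h2 0 _ _).2 hz2⟩

theorem EQ1_lv {R R' : R2} {σ : Equiv.Perm ℕ} (h : Is R R' σ) (p : ℕ) (k : ℤ) (y : ℕ) :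
    lv R' (σ p) k (σ y) ↔ lv R p k y := by
  unfold lv
  simp only [EQ1_ch h, σ.injective.ne_iff]

theorem EQ1_mg {R R' : R2} {σ : Equiv.Perm ℕ} (h : Is R R' σ) (p x y : ℕ) :
    mg R' (σ p) (σ x) (σ y) ↔ mg R p x y := by
  unfold mg
  simp only [EQ1_lv h, EQ1_ch h, σ.injective.ne_iff]

theorem t_EQ1 (hA : S_ACC) : S_EQ1 := by
  intro R R' σ h p
  obtain ⟨a1, a2, a3, -⟩ := hA
  refine ⟨fun x y => ?_, fun n x y => ?_, fun n x => ?_⟩
  · unfold Cod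
    rw [a1, a1, EQ1_mg h]
  · unfold Cod
    rw [a2, a2]
  · unfold Cod
    rw [a3, a3]
    simp only [EQ1_lv h, σ.injective.eq_iff, h.2.2]

end Pool.Agent.H566M
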