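import Pool.Agent.H566M.Spec

set_option autoImplicit false

/-! Decoding respects isomorphisms. -/

namespace Pool.Agent.H566M

open Set MeasureTheory
open Pool.Agent.H566P (ar R2 v2 a0 a1 lt ac co mk S_ACC)

theorem t_EQ2 (hA : S_ACC) : S_EQ2 := by
  obtain ⟨h1, h2, h3, _⟩ := hA
  intro Y Y' σ hσ
  obtain ⟨s1, s2, s3⟩ := hσ
  have hlev : ∀ k y, lev Y' k (σ y) ↔ lev Y k y := fun k y => s3 _ y
  refine ⟨fun x y => ?_, fun n x y => ?_, fun n x => ?_⟩
  · unfold Dec mk1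
    rw [h1, h1]
    simp only [hlev, s1]
  · unfold Dec mk1
    rw [h2, h2]
    simp only [hlev, s1]
  · unfold Dec mk1
    rw [h3, h3]
    exact s3 _ x

end Pool.Agent.H566M
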