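import Pool.Agent.H566M.Spec

/-! task LEV (helper28) -/

set_option autoImplicit false

namespace Pool.Agent.H566M

open Pool.Agent.H566P (ar R2 v2 a0 a1 lt ac co mk S_ACC)

/-- facts on chains of an expansive block -/
structure LEV_F (R : R2) : Prop where
  irr : ∀ x, ¬ lt R x x
  tr : ∀ x y z, lt R x y → lt R y z → lt R x z
  tot : ∀ x y, (x = y ∨ lt R x y) ∨ lt R y x
  mon : ∀ x x' y y', (x' = x ∨ lt R x' x) → mo R x y → (y = y' ∨ lt R y y') → mo R x' y'
  cmon : ∀ n x x' y y', (x' = x ∨ lt R x' x) → ch R n x y → (y = y' ∨ lt R y y') → ch R n x' y'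
  one : ∀ x y, ch R 1 x y ↔ mo R x y
  add : ∀ m n x y z, ch R m x y → ch R n y z → ch R (m + n) x z
  spl : ∀ m n x z, ch R (m + n) x z → ∃ y, ch R m x y ∧ ch R n y z
  molt : ∀ x y, mo R x y → lt R x y
  le : ∀ n x y, ch R n x y → x = y ∨ lt R x y
  dec : ∀ n x y, ch R (n + 1) x y → ch R n x y

theorem LEV_fact (hC : S_CHB) {R : R2} (h : ME R) : LEV_F R := by
  obtain ⟨h1, h2, h3, h4, h5⟩ := hC R h.lm
  obtain ⟨h6, h7, h8⟩ := h5 h.ex
  refine ⟨h.lm.irr, h.lm.tr, ?_, h.lm.mono, h1, h2, h3, h4, h6, h7, fun n x y hh => (h8 n x y hh).2⟩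
  intro x y
  by_cases hxy : x = y
  · exact Or.inl (Or.inl hxy)
  · rcases h.lm.tot x y hxy with hh | hh
    · exact Or.inl (Or.inr hh)
    · exact Or.inr hh

theorem LEV_down {R : R2} (F : LEV_F R) {a b : ℕ} (hb : b ≤ a) (x y : ℕ) (h : ch R a x y) :
    ch R b x y := by
  obtain ⟨d, rfl⟩ := Nat.exists_eq_add_of_le hb
  clear hb
  induction d with
  | zero => exact h
  | succ d ih => exact ih (F.dec (b + d) x y h)

theorem LEV_asym {R : R2} (F : LEV_F R) {x y : ℕ} (h : x = y ∨ lt R x y) (h' : lt R y x) : False := by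
  rcases h with rfl | h
  · exact F.irr _ h'
  · exact F.irr _ (F.tr _ _ _ h h')

theorem LEV_bound {R : R2} (F : LEV_F R) (ex : ∀ x, ¬ mo R x x) (p y : ℕ) (h : sim R p y) :
    ∃ N, ¬ ch R N p y ∧ ¬ ch R N y p := by
  unfold sim at h
  induction h with
  | refl => exact ⟨1, fun h => ex p ((F.one p p).1 h), fun h => ex p ((F.one p p).1 h)⟩
  | @tail z z' _ hl ih =>
    obtain ⟨N, hN1, hN2⟩ := ih
    have hl' : (lt R z z' ∧ ¬ mo R z z') ∨ (lt R z' z ∧ ¬ mo R z' z) := by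
      rcases hl with ⟨h1, h2⟩ | ⟨h1, h2⟩
      · left
        refine ⟨h1, ?_⟩
        rcases h2 with h2 | h2
        · exact h2
        · exact (LEV_asym F (Or.inr h1) (F.molt _ _ h2)).elim
      · right
        refine ⟨h1, ?_⟩
        rcases h2 with h2 | h2
        · exact h2
        · exact (LEV_asym F (Or.inr h1) (F.molt _ _ h2)).elim
    refine ⟨N + 1, ?_, ?_⟩
    · intro hc
      obtain ⟨w, hw1, hw2⟩ := hc
      rcases hl' with ⟨h1, h2⟩ | ⟨h1, h2⟩
      · rcases F.tot w z with h3 | h3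
        · exact hN1 (F.cmon N p p w z (Or.inl rfl) hw1 h3)
        · exact h2 (F.mon w z z' z' (Or.inr h3) hw2 (Or.inl rfl))
      · have h4 : ch R (N + 1) p z := F.cmon (N + 1) p p z' z (Or.inl rfl) ⟨w, hw1, hw2⟩ (Or.inr h1)
        exact hN1 (F.dec N p z h4)
    · intro hc
      rcases hl' with ⟨h1, h2⟩ | ⟨h1, h2⟩
      · have h4 : ch R (N + 1) z p := F.cmon (N + 1) z' z p p (Or.inr h1) hc (Or.inl rfl)
        exact hN2 (F.dec N z p h4)
      · rw [Nat.add_comm] at hc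
        obtain ⟨w, hw1, hw2⟩ := F.spl 1 N z' p hc
        rw [F.one] at hw1
        rcases F.tot w z with h3 | h3
        · exact h2 (F.mon z' z' w z (Or.inl rfl) hw1 h3)
        · exact hN2 (F.cmon N w z p p (Or.inr h3) hw2 (Or.inl rfl))

theorem LEV_find {R : R2} {x y : ℕ} (h0 : ch R 0 x y) (hN : ∃ N, ¬ ch R N x y) :
    ∃ n, ch R n x y ∧ ¬ ch R (n + 1) x y := by
  by_contra hcon
  push Not at hcon
  obtain ⟨N, hN⟩ := hN
  apply hN
  clear hN
  induction N with
  | zero => exact h0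
  | succ N ih => exact hcon N ih

theorem LEV_ex {R : R2} (F : LEV_F R) (p : ℕ) (hb : ∀ y, ∃ N, ¬ ch R N p y ∧ ¬ ch R N y p) (y : ℕ) :
    ∃ k, lv R p k y := by
  obtain ⟨N, hN1, hN2⟩ := hb y
  rcases F.tot p y with h | h
  · obtain ⟨n, h1, h2⟩ := LEV_find (R := R) (x := p) (y := y) h ⟨N, hN1⟩
    exact ⟨n, Or.inl ⟨n, rfl, h1, h2⟩⟩
  · obtain ⟨n, h1, h2⟩ := LEV_find (R := R) (x := y) (y := p) (Or.inr h) ⟨N, hN2⟩
    refine ⟨-((n : ℤ) + 1), Or.inr ⟨n, rfl, ?_, h1, h2⟩⟩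
    rintro rfl
    exact F.irr _ h

theorem LEV_uni {R : R2} (F : LEV_F R) (p y : ℕ) (k l : ℤ) (hk : lv R p k y) (hl : lv R p l y) :
    k = l := by
  rcases hk with ⟨n, rfl, h1, h2⟩ | ⟨n, rfl, h0, h1, h2⟩ <;>
    rcases hl with ⟨m, rfl, g1, g2⟩ | ⟨m, rfl, g0, g1, g2⟩
  · rcases lt_trichotomy n m with h | h | h
    · exact (h2 (LEV_down F h p y g1)).elim
    · rw [h]
    · exact (g2 (LEV_down F h p y h1)).elim
  · exfalso
    rcases F.le m y p g1 with h | h
    · exact g0 h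
    · exact LEV_asym F (F.le n p y h1) h
  · exfalso
    rcases F.le n y p h1 with h | h
    · exact h0 h
    · exact LEV_asym F (F.le m p y g1) h
  · rcases lt_trichotomy n m with h | h | h
    · exact (h2 (LEV_down F h y p g1)).elim
    · rw [h]
    · exact (g2 (LEV_down F h y p h1)).elim

theorem LEV_lt {R : R2} (F : LEV_F R) (p x y : ℕ) (k l : ℤ) (hk : lv R p k x) (hl : lv R p l y)
    (hkl : k < l) : lt R x y := by
  rcases hk with ⟨n, rfl, h1, h2⟩ | ⟨n, rfl, h0, h1, h2⟩ <;>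
    rcases hl with ⟨m, rfl, g1, g2⟩ | ⟨m, rfl, g0, g1, g2⟩
  · rcases F.tot y x with h | h
    · have h3 : ch R (n + 1) p y := LEV_down F (by omega) p y g1
      exact (h2 (F.cmon (n + 1) p p y x (Or.inl rfl) h3 h)).elim
    · exact h
  · omega
  · rcases F.le n x p h1 with h | h
    · exact (h0 h).elim
    · rcases F.le m p y g1 with h' | h'
      · rw [← h']; exact h
      · exact F.tr _ _ _ h h'
  · rcases F.tot y x with h | h
    · have h3 : ch R (m + 1) x p := LEV_down F (by omega) x p h1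
      exact (g2 (F.cmon (m + 1) x y p p h h3 (Or.inl rfl))).elim
    · exact h

theorem LEV_mo {R : R2} (F : LEV_F R) (p x y : ℕ) (k l : ℤ) (hk : lv R p k x) (hl : lv R p l y)
    (hkl : k + 2 ≤ l) : mo R x y := by
  rcases hk with ⟨n, rfl, h1, h2⟩ | ⟨n, rfl, h0, h1, h2⟩ <;>
    rcases hl with ⟨m, rfl, g1, g2⟩ | ⟨m, rfl, g0, g1, g2⟩
  · have h3 : ch R (n + 1 + 1) p y := LEV_down F (by omega) p y g1
    obtain ⟨w, hw1, hw2⟩ := h3
    rcases F.tot w x with h | h
    · exact (h2 (F.cmon (n + 1) p p w x (Or.inl rfl) hw1 h)).elim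
    · exact F.mon w x y y (Or.inr h) hw2 (Or.inl rfl)
  · omega
  · rcases F.le n x p h1 with h | h
    · exact (h0 h).elim
    · by_cases hm : 1 ≤ m
      · have h3 := (F.one p y).1 (LEV_down F hm p y g1)
        exact F.mon p x y y (Or.inr h) h3 (Or.inl rfl)
      · have h3 := (F.one x p).1 (LEV_down F (show 1 ≤ n by omega) x p h1)
        exact F.mon x x p y (Or.inl rfl) h3 (F.le m p y g1)
  · have h3 : ch R (1 + (m + 1)) x p := LEV_down F (by omega) x p h1
    obtain ⟨w, hw1, hw2⟩ := F.spl 1 (m + 1) x p h3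
    rw [F.one] at hw1
    rcases F.tot y w with h | h
    · exact (g2 (F.cmon (m + 1) w y p p h hw2 (Or.inl rfl))).elim
    · exact F.mon x x w y (Or.inl rfl) hw1 (Or.inr h)

theorem LEV_step {R : R2} (F : LEV_F R) (p x y : ℕ) (k l : ℤ) (hk : lv R p k x) (hl : lv R p l y)
    (h : mo R x y) : k + 1 ≤ l := by
  have hxy := F.molt x y h
  rcases lt_trichotomy k l with hh | hh | hh
  · omega
  · exfalso
    subst hh
    rcases hk with ⟨n, rfl, h1, h2⟩ | ⟨n, rfl, h0, h1, h2⟩ <;>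
      rcases hl with ⟨m, hm, g1, g2⟩ | ⟨m, hm, g0, g1, g2⟩
    · have : n = m := by omega
      subst this
      exact g2 ⟨x, h1, h⟩
    · omega
    · omega
    · have : n = m := by omega
      subst this
      apply h2
      rw [Nat.add_comm]
      exact F.add 1 n x y p ((F.one x y).2 h) g1
  · exact (LEV_asym F (Or.inr hxy) (LEV_lt F p y x l k hl hk hh)).elim

theorem LEV_ch {R : R2} (F : LEV_F R) (p : ℕ) (hex : ∀ y, ∃ k, lv R p k y) (n : ℕ) :
    ∀ (x y : ℕ) (k l : ℤ), lv R p k x → lv R p l y → ch R n x y → k + n ≤ l := by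
  induction n with
  | zero =>
    intro x y k l hk hl h
    by_contra hlt
    have h1 : l < k := by push_cast at hlt; omega
    exact LEV_asym F h (LEV_lt F p y x l k hl hk h1)
  | succ n ih =>
    intro x y k l hk hl h
    obtain ⟨w, hw1, hw2⟩ := h
    obtain ⟨j, hj⟩ := hex w
    have h1 := ih x w k j hk hj hw1
    have h2 := LEV_step F p w y j l hj hl hw2
    push_cast
    omega

theorem t_LEV (hC : S_CHB) : S_LEV := by
  intro R h p
  have F := LEV_fact hC h
  have hb : ∀ y, ∃ N, ¬ ch R N p y ∧ ¬ ch R N y p := fun y => LEV_bound F h.ex p y (h.con p y)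
  have hex := LEV_ex F p hb
  refine ⟨hex, LEV_uni F p, Or.inl ⟨0, rfl, Or.inl rfl, fun hc => h.ex p ((F.one p p).1 hc)⟩,
    LEV_lt F p, LEV_mo F p, fun n => LEV_ch F p hex n⟩

end Pool.Agent.H566M
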