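import Pool.Agent.H566M.Spec

/-! MEAS: measurability of coding and decoding. -/

set_option autoImplicit false

namespace Pool.Agent.H566M

open Set MeasureTheory
open Pool.Agent.H566P (ar R2 v2 a0 a1 lt ac co mk S_ACC)

theorem MEAS_ch (hlt : ∀ x y, Measurable fun R : R2 => lt R x y)
    (hac : ∀ n x y, Measurable fun R : R2 => ac R n x y) (n : ℕ) :
    ∀ x y, Measurable fun R : R2 => ch R n x y := by
  induction n with
  | zero =>
    intro x y
    exact Measurable.or measurable_const (hlt x y)
  | succ n ih =>
    intro x y
    refine Measurable.exists fun z => ?_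
    exact Measurable.and (ih x z) (hac 0 z y)

theorem MEAS_lv (hlt : ∀ x y, Measurable fun R : R2 => lt R x y)
    (hac : ∀ n x y, Measurable fun R : R2 => ac R n x y) (p : ℕ) (k : ℤ) (y : ℕ) :
    Measurable fun R : R2 => lv R p k y := by
  have h := MEAS_ch hlt hac
  refine Measurable.or (Measurable.exists fun n => ?_) (Measurable.exists fun n => ?_)
  · exact Measurable.and measurable_const (Measurable.and (h n p y) (Measurable.not (h (n + 1) p y)))
  · exact Measurable.and measurable_const (Measurable.and measurable_const
      (Measurable.and (h n y p) (Measurable.not (h (n + 1) y p))))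

theorem MEAS_mg (hlt : ∀ x y, Measurable fun R : R2 => lt R x y)
    (hac : ∀ n x y, Measurable fun R : R2 => ac R n x y) (p : ℕ) (x y : ℕ) :
    Measurable fun R : R2 => mg R p x y := by
  have h := MEAS_ch hlt hac
  have hl := MEAS_lv hlt hac
  refine Measurable.exists fun k => Measurable.exists fun l => ?_
  refine Measurable.and (hl p k x) (Measurable.and (hl p l y) (Measurable.or ?_ ?_))
  · exact Measurable.and measurable_const (Measurable.and measurable_const (h _ x y))
  · exact Measurable.and measurable_const (Measurable.not (h _ y x))

theorem t_MEAS (hA : S_ACC) : S_MEAS := by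
  obtain ⟨elt, eac, eco, -, -, -, -, mlt, mac, mco, mm, -⟩ := hA
  have hlt : ∀ x y, Measurable fun R : R2 => lt R x y := fun x y => measurableSet_setOfPred.1 (mlt x y)
  have hac : ∀ n x y, Measurable fun R : R2 => ac R n x y :=
    fun n x y => measurableSet_setOfPred.1 (mac n x y)
  have hco : ∀ n x, Measurable fun R : R2 => co R n x := fun n x => measurableSet_setOfPred.1 (mco n x)
  have hlev : ∀ k y, Measurable fun Y : R2 => lev Y k y := fun k y => hco _ y
  constructor
  · intro p
    refine mm R2 _ ?_ ?_ ?_
    · intro x y
      refine measurableSet_setOfPred.2 ?_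
      have e : (fun R : R2 => lt (Cod R p) x y) = fun R => mg R p x y :=
        funext fun R => propext (elt _ _ _ x y)
      rw [e]
      exact MEAS_mg hlt hac p x y
    · intro n x y
      refine measurableSet_setOfPred.2 ?_
      have e : (fun R : R2 => ac (Cod R p) n x y) = fun _ => False :=
        funext fun R => propext (eac _ _ _ n x y)
      rw [e]
      exact measurable_const
    · intro i y
      refine measurableSet_setOfPred.2 ?_
      have e : (fun R : R2 => co (Cod R p) i y) = fun R => (i = 0 ∧ y = p) ∨
          (∃ m, i = 2 * m + 2 ∧ co R m y) ∨ (∃ k : ℤ, i = 2 * Equiv.intEquivNat k + 1 ∧ lv R p k y) :=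
        funext fun R => propext (eco _ _ _ i y)
      rw [e]
      refine Measurable.or measurable_const (Measurable.or (Measurable.exists fun m => ?_)
        (Measurable.exists fun k => ?_))
      · exact Measurable.and measurable_const (hco m y)
      · exact Measurable.and measurable_const (MEAS_lv hlt hac p k y)
  · refine mm R2 _ ?_ ?_ ?_
    · intro x y
      refine measurableSet_setOfPred.2 ?_
      have e : (fun Y : R2 => lt (Dec Y) x y) = fun Y => (∃ k l : ℤ, k < l ∧ lev Y k x ∧ lev Y l y) ∨
          (∃ k : ℤ, lev Y k x ∧ lev Y k y ∧ lt Y x y) :=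
        funext fun R => propext (by unfold Dec mk1; exact elt _ _ _ x y)
      rw [e]
      refine Measurable.or (Measurable.exists fun k => Measurable.exists fun l => ?_)
        (Measurable.exists fun k => ?_)
      · exact Measurable.and measurable_const (Measurable.and (hlev k x) (hlev l y))
      · exact Measurable.and (hlev k x) (Measurable.and (hlev k y) (hlt x y))
    · intro n x y
      refine measurableSet_setOfPred.2 ?_
      have e : (fun Y : R2 => ac (Dec Y) n x y) = fun Y => n = 0 ∧
          ((∃ k l : ℤ, k + 2 ≤ l ∧ lev Y k x ∧ lev Y l y) ∨
          (∃ k : ℤ, lev Y k x ∧ lev Y (k + 1) y ∧ lt Y x y)) :=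
        funext fun R => propext (by unfold Dec mk1; exact eac _ _ _ n x y)
      rw [e]
      refine Measurable.and measurable_const
        (Measurable.or (Measurable.exists fun k => Measurable.exists fun l => ?_)
        (Measurable.exists fun k => ?_))
      · exact Measurable.and measurable_const (Measurable.and (hlev k x) (hlev l y))
      · exact Measurable.and (hlev k x) (Measurable.and (hlev (k + 1) y) (hlt x y))
    · intro m y
      refine measurableSet_setOfPred.2 ?_
      have e : (fun Y : R2 => co (Dec Y) m y) = fun Y => co Y (2 * m + 2) y :=
        funext fun R => propext (by unfold Dec mk1; exact eco _ _ _ m y)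
      rw [e]
      exact hco _ y

end Pool.Agent.H566M
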