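import Pool.Agent.H566M.Spec

/-! Task ORD: the merged order is a linear order. -/

set_option autoImplicit false

namespace Pool.Agent.H566M

open Set MeasureTheory
open Pool.Agent.H566P (ar R2 v2 a0 a1 lt ac co mk S_ACC)

private theorem ORD_abs (lt : ℕ → ℕ → Prop) (c : ℕ → ℕ → ℕ → Prop) (l : ℕ → ℤ)
    (irr : ∀ x, ¬ lt x x) (tr : ∀ x y z, lt x y → lt y z → lt x z)
    (tot : ∀ x y, x ≠ y → lt x y ∨ lt y x)
    (c0 : ∀ x y, c 0 x y ↔ x = y ∨ lt x y)
    (ca : ∀ m n x y z, c m x y → c n y z → c (m + n) x z)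
    (cs : ∀ m n x z, c (m + n) x z → ∃ y, c m x y ∧ c n y z)
    (cl : ∀ (n : ℕ) x y, c n x y → l x + n ≤ l y) (mg : ℕ → ℕ → Prop)
    (hmg : ∀ x y, mg x y ↔ (l x ≤ l y ∧ x ≠ y ∧ c (l y - l x).toNat x y) ∨
      (l y < l x ∧ ¬ c (l x - l y).toNat y x)) :
    (∀ x, ¬ mg x x) ∧ (∀ x y z, mg x y → mg y z → mg x z) ∧
      ∀ x y, x ≠ y → mg x y ∨ mg y x := by
  obtain ⟨C, hC⟩ : ∃ C : ℕ → ℕ → Prop, ∀ x y, C x y ↔ c (l y - l x).toNat x y :=
    ⟨fun x y => c (l y - l x).toNat x y, fun _ _ => Iff.rfl⟩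
  have comp : ∀ x y z, l x ≤ l y → l y ≤ l z → C x y → C y z → C x z := by
    intro x y z h1 h2 h3 h4
    rw [hC] at h3 h4 ⊢
    have e : (l z - l x).toNat = (l y - l x).toNat + (l z - l y).toNat := by omega
    rw [e]
    exact ca _ _ _ _ _ h3 h4
  have split : ∀ x z k, l x ≤ k → k ≤ l z → C x z → ∃ w, l w = k ∧ C x w ∧ C w z := by
    intro x z k h1 h2 h3
    rw [hC] at h3
    have e : (l z - l x).toNat = (k - l x).toNat + (l z - k).toNat := by omega
    rw [e] at h3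
    obtain ⟨w, hw1, hw2⟩ := cs _ _ _ _ h3
    have g1 := cl _ _ _ hw1
    have g2 := cl _ _ _ hw2
    have g3 : l w = k := by omega
    refine ⟨w, g3, ?_, ?_⟩
    · rw [hC, g3]
      exact hw1
    · rw [hC, g3]
      exact hw2
  have same : ∀ x y, l x = l y → (C x y ↔ x = y ∨ lt x y) := by
    intro x y h
    rw [hC, h, sub_self]
    exact c0 x y
  have stot : ∀ x y, l x = l y → ¬ C x y → C y x := by
    intro x y h h1
    rw [same x y h, not_or] at h1
    rw [same y x h.symm]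
    rcases tot x y h1.1 with h2 | h2
    · exact absurd h2 h1.2
    · exact Or.inr h2
  have srefl : ∀ x, C x x := fun x => (same x x rfl).2 (Or.inl rfl)
  have santi : ∀ x y, l x = l y → C x y → C y x → x = y := by
    intro x y h h1 h2
    rw [same x y h] at h1
    rw [same y x h.symm] at h2
    rcases h1 with h1 | h1
    · exact h1
    · rcases h2 with h2 | h2
      · exact h2.symm
      · exact absurd (tr _ _ _ h1 h2) (irr x)
  obtain ⟨le, hle⟩ : ∃ le : ℕ → ℕ → Prop, ∀ x y, le x y ↔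
      (l x ≤ l y ∧ C x y) ∨ (l y < l x ∧ ¬ C y x) :=
    ⟨fun x y => (l x ≤ l y ∧ C x y) ∨ (l y < l x ∧ ¬ C y x), fun _ _ => Iff.rfl⟩
  have hmg' : ∀ x y, mg x y ↔ le x y ∧ x ≠ y := by
    intro x y
    rw [hmg, hle, ← hC, ← hC]
    constructor
    · rintro (⟨h1, h2, h3⟩ | ⟨h1, h2⟩)
      · exact ⟨Or.inl ⟨h1, h3⟩, h2⟩
      · refine ⟨Or.inr ⟨h1, h2⟩, fun h => ?_⟩
        rw [h] at h1
        exact lt_irrefl _ h1
    · rintro ⟨⟨h1, h3⟩ | ⟨h1, h2⟩, h4⟩
      · exact Or.inl ⟨h1, h4, h3⟩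
      · exact Or.inr ⟨h1, h2⟩
  have anti : ∀ x y, le x y → le y x → x = y := by
    intro x y h1 h2
    rw [hle] at h1 h2
    rcases h1 with ⟨h1, h3⟩ | ⟨h1, h3⟩ <;> rcases h2 with ⟨h2, h4⟩ | ⟨h2, h4⟩
    · exact santi x y (le_antisymm h1 h2) h3 h4
    · exact absurd h3 h4
    · exact absurd h4 h3
    · omega
  have total : ∀ x y, le x y ∨ le y x := by
    intro x y
    rw [hle, hle]
    rcases lt_trichotomy (l x) (l y) with h | h | h
    · by_cases h1 : C x y
      · exact Or.inl (Or.inl ⟨h.le, h1⟩)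
      · exact Or.inr (Or.inr ⟨h, h1⟩)
    · by_cases h1 : C x y
      · exact Or.inl (Or.inl ⟨h.le, h1⟩)
      · exact Or.inr (Or.inl ⟨h.symm.le, stot x y h h1⟩)
    · by_cases h1 : C y x
      · exact Or.inr (Or.inl ⟨h.le, h1⟩)
      · exact Or.inl (Or.inr ⟨h, h1⟩)
  have trans : ∀ x y z, le x y → le y z → le x z := by
    intro x y z h1 h2
    rw [hle] at h1 h2 ⊢
    rcases h1 with ⟨h1, h3⟩ | ⟨h1, h3⟩
    · rcases h2 with ⟨h2, h4⟩ | ⟨h2, h4⟩
      · exact Or.inl ⟨h1.trans h2, comp x y z h1 h2 h3 h4⟩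
      · rcases le_or_gt (l x) (l z) with h5 | h5
        · left
          obtain ⟨w, hw, h6, h7⟩ := split x y (l z) h5 h2.le h3
          have h8 : ¬ C z w := fun h => h4 (comp z w y (by omega) (by omega) h h7)
          have h9 := stot z w hw.symm h8
          exact ⟨h5, comp x w z (by omega) (by omega) h6 h9⟩
        · right
          exact ⟨h5, fun h => h4 (comp z x y h5.le h1 h h3)⟩
    · rcases h2 with ⟨h2, h4⟩ | ⟨h2, h4⟩
      · rcases le_or_gt (l x) (l z) with h5 | h5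
        · left
          obtain ⟨w, hw, h6, h7⟩ := split y z (l x) h1.le h5 h4
          have h8 : ¬ C w x := fun h => h3 (comp y w x (by omega) (by omega) h6 h)
          have h9 := stot w x hw h8
          exact ⟨h5, comp x w z (by omega) (by omega) h9 h7⟩
        · right
          exact ⟨h5, fun h => h3 (comp y z x h2 h5.le h4 h)⟩
      · right
        refine ⟨h2.trans h1, fun h => ?_⟩
        obtain ⟨w, hw, h6, h7⟩ := split z x (l y) h2.le h1.le h
        have h8 : ¬ C w y := fun h => h4 (comp z w y (by omega) (by omega) h6 h)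
        have h9 := stot w y hw h8
        exact h3 (comp y w x (by omega) (by omega) h9 h7)
  refine ⟨fun x h => ((hmg' x x).1 h).2 rfl, fun x y z h1 h2 => ?_, fun x y h => ?_⟩
  · rw [hmg'] at h1 h2 ⊢
    refine ⟨trans x y z h1.1 h2.1, fun h => ?_⟩
    rw [← h] at h2
    exact h1.2 (anti x y h1.1 h2.1)
  · rw [hmg', hmg']
    rcases total x y with h1 | h1
    · exact Or.inl ⟨h1, h⟩
    · exact Or.inr ⟨h1, h.symm⟩

/-- ORD: the merged order is a linear order -/
theorem t_ORD (hA : S_ACC) (hC : S_CHB) (hL : S_LEV) : S_ORD := by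
  intro R hR p
  obtain ⟨-, -, ca, cs, -⟩ := hC R hR.lm
  obtain ⟨hex, huniq, -, -, -, hcl⟩ := hL R hR p
  choose l hl using hex
  have hmg : ∀ x y, mg R p x y ↔ (l x ≤ l y ∧ x ≠ y ∧ ch R (l y - l x).toNat x y) ∨
      (l y < l x ∧ ¬ ch R (l x - l y).toNat y x) := by
    intro x y
    constructor
    · rintro ⟨k, m, h1, h2, h3⟩
      rw [huniq _ _ _ h1 (hl x), huniq _ _ _ h2 (hl y)] at h3
      exact h3
    · intro h
      exact ⟨l x, l y, hl x, hl y, h⟩
  obtain ⟨h1, h2, h3⟩ := ORD_abs (lt R) (ch R) l hR.lm.irr hR.lm.tr hR.lm.tot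
    (fun x y => Iff.rfl) ca cs (fun n x y h => hcl n x y _ _ (hl x) (hl y) h) (mg R p) hmg
  have e : ∀ x y, lt (Cod R p) x y ↔ mg R p x y := fun x y => hA.1 _ _ _ x y
  refine ⟨fun x => ?_, fun x y z => ?_, fun x y => ?_, fun n x y h => ?_⟩
  · rw [e]
    exact h1 x
  · rw [e, e, e]
    exact h2 x y z
  · rw [e, e]
    exact h3 x y
  · exact (hA.2.1 _ _ _ n x y).1 h

end Pool.Agent.H566M
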