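import Pool.Agent.H566M.Spec

/-! SH: from blocks to all linear orders with a monotone relation. -/

set_option autoImplicit false

namespace Pool.Agent.H566M

open Set MeasureTheory
open Pool.Agent.H899R2.VP (St Adj PIso BF IsoOn idOn inv comp zipSet)
open Pool.Agent.H533R2.VO (RS lift put OS Ic RIso Dich VC BlkV S_FINAL)
open Pool.Agent.H566P (ar R2 v2 a0 a1 lt ac co mk S_ACC)

/-- `σ` is an isomorphism of ordered structures. -/
private def SH_isoS (M N : St ar) (σ : Equiv.Perm ℕ) : Prop :=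
  (∀ x y, N.1 (σ x) (σ y) = M.1 x y) ∧
    ∀ (i : ℕ) (v : Fin (ar i) → ℕ), N.2 i (⇑σ ∘ v) = M.2 i v

private theorem SH_v2 (σ : ℕ → ℕ) (i x y : ℕ) : σ ∘ v2 i x y = v2 i (σ x) (σ y) := by
  funext k
  unfold v2
  simp only [Function.comp]
  split_ifs <;> rfl

private theorem SH_ar (i : ℕ) : 0 < ar i := by
  unfold ar
  split_ifs <;> omega

private theorem SH_a0 (σ : ℕ → ℕ) (i : ℕ) (v : Fin (ar i) → ℕ) : a0 (σ ∘ v) = σ (a0 v) := by
  unfold a0
  rw [dif_pos (SH_ar i), dif_pos (SH_ar i)]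
  rfl

private theorem SH_a1 (σ : ℕ → ℕ) (i : ℕ) (h : 1 < ar i) (v : Fin (ar i) → ℕ) :
    a1 (σ ∘ v) = σ (a1 v) := by
  unfold a1
  rw [dif_pos h, dif_pos h]
  rfl

private theorem SH_mk (σ : ℕ → ℕ) (L L' : ℕ → ℕ → Prop) (A A' : ℕ → ℕ → ℕ → Prop)
    (C C' : ℕ → ℕ → Prop) (h1 : ∀ x y, L' (σ x) (σ y) ↔ L x y)
    (h2 : ∀ n x y, A' n (σ x) (σ y) ↔ A n x y) (h3 : ∀ n x, C' n (σ x) ↔ C n x) (i : ℕ)
    (v : Fin (ar i) → ℕ) : mk L' A' C' i (σ ∘ v) = mk L A C i v := by
  unfold mk
  rw [decide_eq_decide]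
  by_cases hi : i = 0
  · rw [if_pos hi, if_pos hi, SH_a0, SH_a1 σ i (by unfold ar; rw [if_pos (Or.inl hi)]; omega)]
    exact h1 _ _
  · rw [if_neg hi, if_neg hi]
    by_cases hi2 : i % 2 = 1
    · rw [if_pos hi2, if_pos hi2, SH_a0,
        SH_a1 σ i (by unfold ar; rw [if_pos (Or.inr hi2)]; omega)]
      exact h2 _ _ _
    · rw [if_neg hi2, if_neg hi2, SH_a0]
      exact h3 _ _

private theorem SH_lk {R R' : R2} {σ : Equiv.Perm ℕ} (h : Is R R' σ) (x y : ℕ) :
    lk R' (σ x) (σ y) ↔ lk R x y := by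
  obtain ⟨h1, h2, h3⟩ := h
  unfold lk mo
  rw [h1, h1, h2, h2]

private theorem SH_sim1 {R R' : R2} {σ : Equiv.Perm ℕ} (h : Is R R' σ) (x y : ℕ)
    (hs : sim R x y) : sim R' (σ x) (σ y) :=
  Relation.ReflTransGen.lift (p := lk R') σ (fun a b hab => (SH_lk h a b).2 hab) x y hs

private theorem SH_Is_symm {R R' : R2} {σ : Equiv.Perm ℕ} (h : Is R R' σ) :
    Is R' R σ.symm := by
  obtain ⟨h1, h2, h3⟩ := h
  refine ⟨fun x y => ?_, fun n x y => ?_, fun n x => ?_⟩
  · have := h1 (σ.symm x) (σ.symm y)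
    rw [Equiv.apply_symm_apply, Equiv.apply_symm_apply] at this
    exact this.symm
  · have := h2 n (σ.symm x) (σ.symm y)
    rw [Equiv.apply_symm_apply, Equiv.apply_symm_apply] at this
    exact this.symm
  · have := h3 n (σ.symm x)
    rw [Equiv.apply_symm_apply] at this
    exact this.symm

private theorem SH_sim {R R' : R2} {σ : Equiv.Perm ℕ} (h : Is R R' σ) (x y : ℕ) :
    sim R' (σ x) (σ y) ↔ sim R x y := by
  constructor
  · intro hs
    have := SH_sim1 (SH_Is_symm h) _ _ hs
    rwa [Equiv.symm_apply_apply, Equiv.symm_apply_apply] at this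
  · exact SH_sim1 h x y

private theorem SH_sharp {R R' : R2} {σ : Equiv.Perm ℕ} (h : Is R R' σ) :
    SH_isoS (sharp R) (sharp R') σ := by
  refine ⟨fun x y => ?_, fun i v => ?_⟩
  · unfold sharp
    simp only [decide_eq_decide]
    rw [h.1, SH_sim h]
  · exact SH_mk σ (fun x y => lt R x y ∧ sim R x y) (fun x y => lt R' x y ∧ sim R' x y)
      (fun n x y => n = 0 ∧ (mo R x y ∧ sim R x y)) (fun n x y => n = 0 ∧ (mo R' x y ∧ sim R' x y))
      (co R) (co R') (fun x y => by rw [h.1, SH_sim h])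
      (fun n x y => by
        show (n = 0 ∧ (mo R' (σ x) (σ y) ∧ sim R' (σ x) (σ y))) ↔ (n = 0 ∧ (mo R x y ∧ sim R x y))
        unfold mo
        rw [h.2.1, SH_sim h]) h.2.2 i v

private theorem SH_fl (hA : S_ACC) (M : St ar) (x y : ℕ) :
    lt (flat M) x y ↔ (M.1 x y = true ∨ lt M.2 x y) := by
  unfold flat mk1
  exact hA.1 _ _ _ x y

private theorem SH_fa (hA : S_ACC) (M : St ar) (n x y : ℕ) :
    ac (flat M) n x y ↔ (n = 0 ∧ (M.1 x y = true ∨ ac M.2 0 x y)) := by
  unfold flat mk1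
  exact hA.2.1 _ _ _ n x y

private theorem SH_fc (hA : S_ACC) (M : St ar) (n x : ℕ) :
    co (flat M) n x ↔ co M.2 n x := by
  unfold flat mk1
  exact hA.2.2.1 _ _ _ n x

private theorem SH_rel {M N : St ar} {σ : Equiv.Perm ℕ} (h : SH_isoS M N σ) :
    Is M.2 N.2 σ := by
  refine ⟨fun x y => ?_, fun n x y => ?_, fun n x => ?_⟩
  · unfold lt
    rw [← h.2 0 (v2 0 x y), SH_v2]
  · unfold ac
    rw [← h.2 _ (v2 (2 * n + 1) x y), SH_v2]
  · unfold co
    rw [← h.2 _ (v2 (2 * n + 2) x x), SH_v2]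

private theorem SH_flat (hA : S_ACC) {M N : St ar} {σ : Equiv.Perm ℕ} (h : SH_isoS M N σ) :
    Is (flat M) (flat N) σ := by
  have h' := SH_rel h
  refine ⟨fun x y => ?_, fun n x y => ?_, fun n x => ?_⟩
  · rw [SH_fl hA, SH_fl hA, h.1, h'.1]
  · rw [SH_fa hA, SH_fa hA, h.1, h'.2.1]
  · rw [SH_fc hA, SH_fc hA, h'.2.2]

private theorem SH_riso (hA : S_ACC) {R R' : R2} : RIso R R' ↔ ∃ σ, Is R R' σ :=
  hA.2.2.2.2.2.1 R R'

private theorem SH_symm {M N : St ar} {σ : Equiv.Perm ℕ} (h : SH_isoS M N σ) :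
    SH_isoS N M σ.symm := by
  refine ⟨fun x y => ?_, fun i v => ?_⟩
  · have := h.1 (σ.symm x) (σ.symm y)
    rw [Equiv.apply_symm_apply, Equiv.apply_symm_apply] at this
    exact this.symm
  · have := h.2 i (⇑σ.symm ∘ v)
    rw [← Function.comp_assoc] at this
    simp only [Equiv.self_comp_symm, Function.id_comp] at this
    exact this.symm

private theorem SH_inv (hA : S_ACC) {B : Set R2}
    (hB : ∀ x y : R2, RIso x y → (x ∈ B ↔ y ∈ B)) {M N : St ar} {σ : Equiv.Perm ℕ}
    (h : SH_isoS M N σ) (hM : flat M ∈ B ∧ sharp (flat M) = M) :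
    flat N ∈ B ∧ sharp (flat N) = N := by
  have hf := SH_flat hA h
  refine ⟨(hB _ _ ((SH_riso hA).2 ⟨σ, hf⟩)).1 hM.1, ?_⟩
  have hs := SH_sharp hf
  rw [hM.2] at hs
  refine Prod.ext ?_ ?_
  · funext x y
    obtain ⟨x, rfl⟩ := σ.surjective x
    obtain ⟨y, rfl⟩ := σ.surjective y
    rw [hs.1, h.1]
  · funext i v
    have hv : v = ⇑σ ∘ (⇑σ.symm ∘ v) := by
      rw [← Function.comp_assoc, Equiv.self_comp_symm, Function.id_comp]
    rw [hv, hs.2, h.2]

private theorem SH_meas_flat (hA : S_ACC) : Measurable (flat : St ar → R2) := by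
  have hfl := SH_fl hA
  have hfa := SH_fa hA
  have hfc := SH_fc hA
  obtain ⟨a1, a2, a3, -, -, -, -, m1, m2, m3, m4, -⟩ := hA
  have hm : ∀ x y : ℕ, MeasurableSet {M : St ar | M.1 x y = true} := by
    intro x y
    have hm : Measurable (fun M : St ar => M.1 x y) :=
      (measurable_pi_apply y).comp ((measurable_pi_apply x).comp measurable_fst)
    exact hm (measurableSet_singleton true)
  refine m4 (St ar) flat (fun x y => ?_) (fun n x y => ?_) (fun n x => ?_)
  · have e : {M : St ar | lt (flat M) x y} =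
        {M : St ar | M.1 x y = true} ∪ Prod.snd ⁻¹' {R : R2 | lt R x y} := by
      ext M
      exact hfl M x y
    rw [e]
    exact MeasurableSet.union (hm x y) (measurable_snd (m1 x y))
  · have e : {M : St ar | ac (flat M) n x y} =
        {_M : St ar | n = 0} ∩ ({M : St ar | M.1 x y = true} ∪
          Prod.snd ⁻¹' {R : R2 | ac R 0 x y}) := by
      ext M
      exact hfa M n x y
    rw [e]
    exact (MeasurableSet.const _).inter (MeasurableSet.union (hm x y) (measurable_snd (m2 0 x y)))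
  · have e : {M : St ar | co (flat M) n x} = Prod.snd ⁻¹' {R : R2 | co R n x} := by
      ext M
      exact hfc M n x
    rw [e]
    exact measurable_snd (m3 n x)

/-- paths of length `n` of the linking relation -/
private def SH_path (R : R2) : ℕ → ℕ → ℕ → Prop
  | 0, x, y => x = y
  | n + 1, x, y => ∃ z, SH_path R n x z ∧ lk R z y

private theorem SH_path_iff (R : R2) (x y : ℕ) : sim R x y ↔ ∃ n, SH_path R n x y := by
  constructor
  · intro h
    unfold sim at h
    induction h with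
    | refl => exact ⟨0, rfl⟩
    | tail _ hb ih =>
      obtain ⟨n, hn⟩ := ih
      exact ⟨n + 1, _, hn, hb⟩
  · rintro ⟨n, hn⟩
    induction n generalizing y with
    | zero =>
      have h : x = y := hn
      subst h
      exact Relation.ReflTransGen.refl
    | succ n ih =>
      obtain ⟨z, h1, h2⟩ := hn
      exact Relation.ReflTransGen.tail (ih z h1) h2

private theorem SH_meas_lk (hA : S_ACC) (x y : ℕ) : MeasurableSet {R : R2 | lk R x y} := by
  obtain ⟨-, -, -, -, -, -, -, m1, m2, -⟩ := hA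
  have e : {R : R2 | lk R x y} = ({R : R2 | lt R x y} ∩ ({R : R2 | ac R 0 x y}ᶜ ∪
      {R : R2 | ac R 0 y x})) ∪ ({R : R2 | lt R y x} ∩ ({R : R2 | ac R 0 y x}ᶜ ∪
      {R : R2 | ac R 0 x y})) := rfl
  rw [e]
  exact ((m1 x y).inter ((m2 0 x y).compl.union (m2 0 y x))).union
    ((m1 y x).inter ((m2 0 y x).compl.union (m2 0 x y)))

private theorem SH_meas_path (hA : S_ACC) (n : ℕ) : ∀ x y : ℕ,
    MeasurableSet {R : R2 | SH_path R n x y} := by
  induction n with
  | zero =>
    intro x y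
    have e : {R : R2 | SH_path R 0 x y} = {_R : R2 | x = y} := rfl
    rw [e]
    exact MeasurableSet.const _
  | succ n ih =>
    intro x y
    have e : {R : R2 | SH_path R (n + 1) x y} =
        ⋃ z : ℕ, ({R : R2 | SH_path R n x z} ∩ {R : R2 | lk R z y}) := by
      ext R
      simp only [mem_iUnion]
      rfl
    rw [e]
    exact MeasurableSet.iUnion fun z => (ih x z).inter (SH_meas_lk hA z y)

private theorem SH_meas_sim (hA : S_ACC) (x y : ℕ) : MeasurableSet {R : R2 | sim R x y} := by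
  have e : {R : R2 | sim R x y} = ⋃ n : ℕ, {R : R2 | SH_path R n x y} := by
    ext R
    simp only [mem_iUnion]
    exact SH_path_iff R x y
  rw [e]
  exact MeasurableSet.iUnion fun n => SH_meas_path hA n x y

private theorem SH_meas_sharp (hA : S_ACC) : Measurable (sharp : R2 → St ar) := by
  have hs := SH_meas_sim hA
  obtain ⟨a1, a2, a3, -, -, -, -, m1, m2, m3, m4, -⟩ := hA
  refine Measurable.prodMk ?_ ?_
  · refine measurable_pi_iff.2 fun x => measurable_pi_iff.2 fun y => ?_
    refine measurable_to_bool ?_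
    have e : {R : R2 | lt R x y ∧ ¬ sim R x y} = {R : R2 | lt R x y} ∩ {R : R2 | sim R x y}ᶜ :=
      rfl
    have e2 : MeasurableSet {R : R2 | lt R x y ∧ ¬ sim R x y} := by
      rw [e]
      exact (m1 x y).inter (hs x y).compl
    refine e2.congr ?_
    ext R
    simp only [mem_preimage, mem_singleton_iff, decide_eq_true_eq, Set.mem_ofPred_eq]
  · refine m4 R2 _ (fun x y => ?_) (fun n x y => ?_) (fun n x => ?_)
    · have e : {R : R2 | lt (mk1 (fun x y => lt R x y ∧ sim R x y)
          (fun x y => mo R x y ∧ sim R x y) (co R)) x y} =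
          {R : R2 | lt R x y} ∩ {R : R2 | sim R x y} := by
        ext R
        exact a1 _ _ _ x y
      rw [e]
      exact (m1 x y).inter (hs x y)
    · have e : {R : R2 | ac (mk1 (fun x y => lt R x y ∧ sim R x y)
          (fun x y => mo R x y ∧ sim R x y) (co R)) n x y} =
          {_R : R2 | n = 0} ∩ ({R : R2 | ac R 0 x y} ∩ {R : R2 | sim R x y}) := by
        ext R
        exact a2 _ _ _ n x y
      rw [e]
      exact (MeasurableSet.const _).inter ((m2 0 x y).inter (hs x y))
    · have e : {R : R2 | co (mk1 (fun x y => lt R x y ∧ sim R x y)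
          (fun x y => mo R x y ∧ sim R x y) (co R)) n x} =
          {R : R2 | co R n x} := by
        ext R
        exact a3 _ _ _ n x
      rw [e]
      exact m3 n x

private theorem SH_meas_fix (hA : S_ACC) : MeasurableSet {M : St ar | sharp (flat M) = M} := by
  have hm : Measurable (fun M : St ar => sharp (flat M)) :=
    (SH_meas_sharp hA).comp (SH_meas_flat hA)
  have e : {M : St ar | sharp (flat M) = M} =
      (⋂ x : ℕ, ⋂ y : ℕ, {M : St ar | (sharp (flat M)).1 x y = M.1 x y}) ∩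
        ⋂ i : ℕ, ⋂ v : Fin (ar i) → ℕ, {M : St ar | (sharp (flat M)).2 i v = M.2 i v} := by
    ext M
    simp only [mem_inter_iff, mem_iInter, Set.mem_ofPred_eq]
    constructor
    · intro h
      exact ⟨fun x y => by rw [h], fun i v => by rw [h]⟩
    · rintro ⟨h1, h2⟩
      exact Prod.ext (funext fun x => funext fun y => h1 x y) (funext fun i => funext fun v =>
        h2 i v)
  rw [e]
  refine MeasurableSet.inter ?_ ?_
  · refine MeasurableSet.iInter fun x => MeasurableSet.iInter fun y => ?_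
    have h1 : Measurable (fun M : St ar => M.1 x y) :=
      (measurable_pi_apply y).comp ((measurable_pi_apply x).comp measurable_fst)
    exact measurableSet_eq_fun (h1.comp hm) h1
  · refine MeasurableSet.iInter fun i => MeasurableSet.iInter fun v => ?_
    have h1 : Measurable (fun M : St ar => M.2 i v) :=
      (measurable_pi_apply v).comp ((measurable_pi_apply i).comp measurable_snd)
    exact measurableSet_eq_fun (h1.comp hm) h1

private theorem SH_cont_flat (hA : S_ACC) : Continuous (flat : St ar → R2) := by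
  have hfl := SH_fl hA
  have hfa := SH_fa hA
  have hfc := SH_fc hA
  obtain ⟨a1, a2, a3, -, -, -, -, -, -, -, -, c4⟩ := hA
  have hc : ∀ (i : ℕ) (v : Fin (ar i) → ℕ), IsClopen {M : St ar | M.2 i v = true} := by
    intro i v
    have h1 : Continuous (fun M : St ar => M.2 i v) :=
      (continuous_apply v).comp ((continuous_apply i).comp continuous_snd)
    exact (isClopen_discrete ({true} : Set Bool)).preimage h1
  have hc1 : ∀ x y : ℕ, IsClopen {M : St ar | M.1 x y = true} := by
    intro x y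
    have h1 : Continuous (fun M : St ar => M.1 x y) :=
      (continuous_apply y).comp ((continuous_apply x).comp continuous_fst)
    exact (isClopen_discrete ({true} : Set Bool)).preimage h1
  refine c4 (St ar) flat (fun x y => ?_) (fun n x y => ?_) (fun n x => ?_)
  · have e : {M : St ar | lt (flat M) x y} =
        {M : St ar | M.1 x y = true} ∪ {M : St ar | M.2 0 (v2 0 x y) = true} := by
      ext M
      exact hfl M x y
    rw [e]
    exact IsClopen.union (hc1 x y) (hc _ _)
  · by_cases hn : n = 0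
    · have e : {M : St ar | ac (flat M) n x y} =
          {M : St ar | M.1 x y = true} ∪ {M : St ar | M.2 (2 * 0 + 1) (v2 (2 * 0 + 1) x y) = true} := by
        ext M
        exact (hfa M n x y).trans (and_iff_right hn)
      rw [e]
      exact IsClopen.union (hc1 x y) (hc _ _)
    · have e : {M : St ar | ac (flat M) n x y} = ∅ := by
        ext M
        constructor
        · intro h
          exact hn ((hfa M n x y).1 h).1
        · intro h
          exact h.elim
      rw [e]
      exact isClopen_empty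
  · have e : {M : St ar | co (flat M) n x} =
        {M : St ar | M.2 (2 * n + 2) (v2 (2 * n + 2) x x) = true} := by
      ext M
      exact hfc M n x
    rw [e]
    exact hc _ _

theorem t_SH (hA : S_ACC) (h1 : S_SH1) (hF : S_FINAL) : S_SH := by
  intro hV B hBm hBi hBV
  let B' : Set (St ar) := {M | flat M ∈ B ∧ sharp (flat M) = M}
  have hB'm : MeasurableSet B' := (SH_meas_flat hA hBm).inter (SH_meas_fix hA)
  have hB'i : ∀ M N : St ar, ∀ σ : Equiv.Perm ℕ, (∀ x y, N.1 (σ x) (σ y) = M.1 x y) →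
      (∀ (i : ℕ) (v : Fin (ar i) → ℕ), N.2 i (⇑σ ∘ v) = M.2 i v) → (M ∈ B' ↔ N ∈ B') := by
    intro M N σ h2 h3
    have hi : SH_isoS M N σ := ⟨h2, h3⟩
    exact ⟨fun h => SH_inv hA hBi hi h, fun h => SH_inv hA hBi (SH_symm hi) h⟩
  have hB'V : ∀ M ∈ B', OS M ∧ BlkV MB M := by
    rintro M ⟨hM1, hM2⟩
    obtain ⟨h2, h3, -⟩ := h1 (flat M) (hBV _ hM1)
    rw [hM2] at h2 h3
    exact ⟨h2, h3⟩
  rcases hF ar MB hV B' hB'm hB'i hB'V with ⟨f, hf⟩ | ⟨c, hc1, hc2, hc3⟩
  · left
    refine ⟨fun n => flat (f n), fun R hR => ?_⟩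
    obtain ⟨-, -, h4⟩ := h1 R (hBV _ hR)
    have hm : sharp R ∈ B' := by
      refine ⟨?_, ?_⟩
      · rw [h4]; exact hR
      · rw [h4]
    obtain ⟨n, σ, h5, h6⟩ := hf _ hm
    refine ⟨n, (SH_riso hA).2 ⟨σ, ?_⟩⟩
    have h7 : Is (flat (f n)) (flat (sharp R)) σ := SH_flat hA ⟨h5, h6⟩
    rwa [h4] at h7
  · right
    refine ⟨fun A => flat (c A), (SH_cont_flat hA).comp hc1, fun A => (hc2 A).1, ?_⟩
    intro A A' h
    obtain ⟨σ, hσ⟩ := (SH_riso hA).1 h
    have h2 := SH_sharp hσ
    rw [(hc2 A).2, (hc2 A').2] at h2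
    exact hc3 A A' ⟨σ, h2.1, h2.2⟩

end Pool.Agent.H566M
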