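import Pool.Agent.H566M.Spec

/-! Task SH1: the ordered sum of the blocks. -/

set_option autoImplicit false

namespace Pool.Agent.H566M

open Set MeasureTheory
open Pool.Agent.H899R2.VP (St Adj PIso BF IsoOn idOn inv comp zipSet)
open Pool.Agent.H533R2.VO (RS lift put OS Ic RIso Dich VC BlkV S_FINAL)
open Pool.Agent.H566P (ar R2 v2 a0 a1 lt ac co mk S_ACC)

theorem SH1_lt (hA : S_ACC) (R : R2) (x y : ℕ) :
    lt (sharp R).2 x y ↔ lt R x y ∧ sim R x y :=
  hA.1 (fun x y => lt R x y ∧ sim R x y) (fun n x y => n = 0 ∧ (mo R x y ∧ sim R x y)) (co R) x y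

theorem SH1_ac (hA : S_ACC) (R : R2) (n x y : ℕ) :
    ac (sharp R).2 n x y ↔ n = 0 ∧ (mo R x y ∧ sim R x y) :=
  hA.2.1 (fun x y => lt R x y ∧ sim R x y) (fun n x y => n = 0 ∧ (mo R x y ∧ sim R x y)) (co R)
    n x y

theorem SH1_co (hA : S_ACC) (R : R2) (n x : ℕ) :
    co (sharp R).2 n x ↔ co R n x :=
  hA.2.2.1 (fun x y => lt R x y ∧ sim R x y) (fun n x y => n = 0 ∧ (mo R x y ∧ sim R x y)) (co R)
    n x

theorem SH1_adj (R : R2) (x y : ℕ) : Adj (sharp R) x y ↔ lt R x y ∧ ¬ sim R x y := by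
  unfold Adj sharp
  simp only [decide_eq_true_eq]

theorem SH1_refl (R : R2) (x : ℕ) : sim R x x := Relation.ReflTransGen.refl

theorem SH1_trans {R : R2} {x y z : ℕ} (h1 : sim R x y) (h2 : sim R y z) : sim R x z :=
  Relation.ReflTransGen.trans h1 h2

theorem SH1_OS (hS : S_SIM) {R : R2} (h : LM R) : OS (sharp R) := by
  obtain ⟨s1, s2, s3, s4, s5⟩ := hS R h
  constructor
  · intro x h1
    exact h.irr x ((SH1_adj R x x).1 h1).1
  · intro x y z h1 h2
    rw [SH1_adj] at h1 h2 ⊢
    exact ⟨h.tr _ _ _ h1.1 h2.1, fun h3 => h1.2 (s2 _ _ _ h3 h1.1 h2.1)⟩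
  · intro x y z h1
    rw [SH1_adj] at h1
    rw [SH1_adj, SH1_adj]
    by_cases hxy : sim R x y
    · right
      exact ⟨s3 _ _ _ _ hxy (SH1_refl R z) h1.2 h1.1, fun h2 => h1.2 (SH1_trans hxy h2)⟩
    · by_cases h2 : lt R x y
      · exact Or.inl ⟨h2, hxy⟩
      · right
        have hne : x ≠ y := fun h3 => hxy (h3 ▸ SH1_refl R x)
        have h3 : lt R y x := (h.tot _ _ hne).resolve_left h2
        exact ⟨h.tr _ _ _ h3 h1.1, fun h4 => hxy (s1 _ _ (s2 _ _ _ h4 h3 h1.1))⟩
  · intro i v hv j k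
    rw [SH1_adj]
    rintro ⟨-, h2⟩
    apply h2
    have key : ∀ j, sim R (a0 v) (v j) := by
      unfold sharp mk1 mk at hv
      simp only [decide_eq_true_eq] at hv
      intro j
      by_cases hi : i = 0 ∨ i % 2 = 1
      · have har : ar i = 2 := by unfold ar; rw [if_pos hi]
        have hsim : sim R (a0 v) (a1 v) := by
          rcases hi with hi | hi
          · rw [if_pos hi] at hv
            exact hv.2
          · rw [if_neg (by omega), if_pos hi] at hv
            exact hv.2.2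
        by_cases hj : j.1 = 0
        · have : v j = a0 v := by
            unfold a0
            rw [dif_pos (by omega)]
            congr 1
            exact Fin.ext hj
          rw [this]
          exact SH1_refl R _
        · have : v j = a1 v := by
            unfold a1
            have hjlt := j.2
            rw [dif_pos (by omega)]
            congr 1
            exact Fin.ext (by simp only; omega)
          rw [this]
          exact hsim
      · have har : ar i = 1 := by unfold ar; rw [if_neg hi]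
        have : v j = a0 v := by
          unfold a0
          have hjlt := j.2
          rw [dif_pos (by omega)]
          congr 1
          exact Fin.ext (by simp only; omega)
        rw [this]
        exact SH1_refl R _
    exact SH1_trans (s1 _ _ (key j)) (key k)

theorem SH1_flat (hA : S_ACC) (hS : S_SIM) {R : R2} (h : LM R) : flat (sharp R) = R := by
  obtain ⟨s1, s2, s3, s4, s5⟩ := hS R h
  refine hA.2.2.2.1 _ _ (fun x y => ?_) (fun n x y => ?_) (fun n x => ?_)
  · unfold flat mk1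
    rw [hA.1, SH1_lt hA]
    change Adj (sharp R) x y ∨ _ ↔ _
    rw [SH1_adj]
    tauto
  · unfold flat mk1
    rw [hA.2.1]
    change n = 0 ∧ (Adj (sharp R) x y ∨ ac (sharp R).2 0 x y) ↔ _
    rw [SH1_adj, SH1_ac hA]
    constructor
    · rintro ⟨rfl, h1 | h1⟩
      · exact (s4 _ _ h1.1 h1.2).1
      · exact h1.2.1
    · intro h1
      cases n with
      | succ n => exact absurd h1 (h.ac0 n x y)
      | zero =>
        refine ⟨rfl, ?_⟩
        by_cases h2 : sim R x y
        · exact Or.inr ⟨rfl, h1, h2⟩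
        · left
          have hne : x ≠ y := fun h3 => h2 (h3 ▸ SH1_refl R x)
          rcases h.tot _ _ hne with h3 | h3
          · exact ⟨h3, h2⟩
          · exact absurd h1 (s4 _ _ h3 (fun h4 => h2 (s1 _ _ h4))).2
  · unfold flat mk1
    rw [hA.2.2.1, SH1_co hA]

theorem SH1_v2 (e : ℕ → ℕ) (i x y : ℕ) : e ∘ v2 i x y = v2 i (e x) (e y) := by
  funext k
  unfold v2
  simp only [Function.comp_apply]
  split_ifs <;> rfl

theorem SH1_blk (hA : S_ACC) (hS : S_SIM) {R : R2} (h : LM R) : BlkV MB (sharp R) := by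
  obtain ⟨s1, s2, s3, s4, s5⟩ := hS R h
  intro x e he hC
  have hcls : ∀ z, sim R x z ↔ ∃ n, e n = z := by
    intro z
    rw [← hC z]
    unfold Ic
    simp only [Set.mem_ofPred_eq, SH1_adj]
    constructor
    · intro h1
      exact ⟨fun h2 => h2.2 (s1 _ _ h1), fun h2 => h2.2 h1⟩
    · rintro ⟨h1, h2⟩
      by_contra h3
      have hne : x ≠ z := fun h4 => h3 (h4 ▸ SH1_refl R x)
      rcases h.tot _ _ hne with h4 | h4
      · exact h2 ⟨h4, h3⟩
      · exact h1 ⟨h4, fun h5 => h3 (s1 _ _ h5)⟩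
  have hx : ∀ n, sim R x (e n) := fun n => (hcls _).2 ⟨n, rfl⟩
  have hee : ∀ n m, sim R (e n) (e m) := fun n m => SH1_trans (s1 _ _ (hx n)) (hx m)
  set R' : R2 := fun i v => (sharp R).2 i (e ∘ v) with hR'
  have hlt : ∀ n m, lt R' n m ↔ lt R (e n) (e m) := by
    intro n m
    have : lt R' n m ↔ lt (sharp R).2 (e n) (e m) := by
      unfold lt
      rw [hR']
      simp only
      rw [SH1_v2]
    rw [this, SH1_lt hA]
    exact ⟨fun h1 => h1.1, fun h1 => ⟨h1, hee n m⟩⟩
  have hac : ∀ k n m, ac R' k n m ↔ k = 0 ∧ mo R (e n) (e m) := by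
    intro k n m
    have : ac R' k n m ↔ ac (sharp R).2 k (e n) (e m) := by
      unfold ac
      rw [hR']
      simp only
      rw [SH1_v2]
    rw [this, SH1_ac hA]
    exact ⟨fun h1 => ⟨h1.1, h1.2.1⟩, fun h1 => ⟨h1.1, h1.2, hee n m⟩⟩
  have hmo : ∀ n m, mo R' n m ↔ mo R (e n) (e m) := by
    intro n m
    have h1 := hac 0 n m
    unfold mo at h1 ⊢
    rw [h1]
    exact ⟨fun h2 => h2.2, fun h2 => ⟨rfl, h2⟩⟩
  have hlk : ∀ n m, lk R' n m ↔ lk R (e n) (e m) := by
    intro n m
    unfold lk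
    rw [hlt, hlt, hmo, hmo]
  refine ⟨⟨?_, ?_, ?_, ?_, ?_⟩, ?_⟩
  · intro n hn
    exact h.irr _ ((hlt n n).1 hn)
  · intro a b c h1 h2
    rw [hlt] at h1 h2 ⊢
    exact h.tr _ _ _ h1 h2
  · intro a b hab
    rw [hlt, hlt]
    exact h.tot _ _ (fun h1 => hab (he h1))
  · intro a a' b b' h1 h2 h3
    rw [hlt] at h1 h3
    rw [hmo] at h2 ⊢
    exact h.mono _ _ _ _ (h1.imp_left (congrArg e)) h2 (h3.imp_left (congrArg e))
  · intro n a b h1
    exact absurd ((hac _ _ _).1 h1).1 (Nat.succ_ne_zero n)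
  · intro n m
    have key : ∀ z, sim R (e n) z → ∀ m, e m = z → sim R' n m := by
      intro z hz
      induction hz with
      | refl =>
        intro m hm
        rw [he hm]
        exact SH1_refl R' n
      | tail hb hbc ih =>
        rename_i b c
        intro m hm
        obtain ⟨k, hk⟩ := (hcls b).1 (SH1_trans (hx n) hb)
        refine Relation.ReflTransGen.tail (ih k hk) ((hlk k m).2 ?_)
        rw [hk, hm]
        exact hbc
    exact key _ (hee n m) m rfl

theorem t_SH1 (hA : S_ACC) (hS : S_SIM) : S_SH1 := fun _ h =>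
  ⟨SH1_OS hS h, SH1_blk hA hS h, SH1_flat hA hS h⟩

end Pool.Agent.H566M
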