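import Pool.Agent.H566M.Spec

/-! SIM: blocks are convex. -/

set_option autoImplicit false

namespace Pool.Agent.H566M

open Pool.Agent.H566P (ar R2 v2 a0 a1 lt ac co mk S_ACC)

theorem SIM_lk_symm {R : R2} {x y : ℕ} (h : lk R x y) : lk R y x := by
  rcases h with h | h
  · exact Or.inr h
  · exact Or.inl h

theorem SIM_symm {R : R2} {x y : ℕ} (h : sim R x y) : sim R y x := by
  unfold sim at h ⊢
  induction h with
  | refl => exact Relation.ReflTransGen.refl
  | tail _ h2 ih => exact Relation.ReflTransGen.head (SIM_lk_symm h2) ih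

theorem SIM_trans {R : R2} {x y z : ℕ} (h : sim R x y) (h' : sim R y z) : sim R x z :=
  Relation.ReflTransGen.trans h h'

theorem SIM_lk_lt {R : R2} (hR : LM R) {x y : ℕ} (h : lt R x y) (hl : lk R x y) :
    ¬ mo R x y ∨ mo R y x := by
  rcases hl with h1 | h1
  · exact h1.2
  · exact absurd (hR.tr _ _ _ h h1.1) (hR.irr _)

theorem SIM_step {R : R2} (hR : LM R) {x y z : ℕ} (hxz : lt R x z) (hzy : lt R z y)
    (h : lk R x y) : lk R x z ∧ lk R z y := by
  have h1 := SIM_lk_lt hR (hR.tr _ _ _ hxz hzy) h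
  constructor
  · refine Or.inl ⟨hxz, ?_⟩
    rcases h1 with h1 | h1
    · exact Or.inl fun h2 => h1 (hR.mono x x z y (Or.inl rfl) h2 (Or.inr hzy))
    · exact Or.inr (hR.mono y z x x (Or.inr hzy) h1 (Or.inl rfl))
  · refine Or.inl ⟨hzy, ?_⟩
    rcases h1 with h1 | h1
    · exact Or.inl fun h2 => h1 (hR.mono z x y y (Or.inr hxz) h2 (Or.inl rfl))
    · exact Or.inr (hR.mono y y x z (Or.inl rfl) h1 (Or.inr hxz))

theorem SIM_convex {R : R2} (hR : LM R) {x y : ℕ} (h : sim R x y) :
    ∀ z, (lt R x z ∧ lt R z y) ∨ (lt R y z ∧ lt R z x) → sim R x z := by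
  unfold sim at h
  induction h with
  | refl =>
    rintro z (⟨h1, h2⟩ | ⟨h1, h2⟩)
    · exact absurd (hR.tr _ _ _ h1 h2) (hR.irr _)
    · exact absurd (hR.tr _ _ _ h1 h2) (hR.irr _)
  | @tail w y h1 h2 ih =>
    intro z hz
    by_cases hzw : z = w
    · rw [hzw]; exact h1
    rcases hR.tot z w hzw with hlt | hlt
    · -- z < w
      rcases hz with ⟨ha, hb⟩ | ⟨ha, hb⟩
      · exact ih z (Or.inl ⟨ha, hlt⟩)
      · have h3 := (SIM_step hR ha hlt (SIM_lk_symm h2)).2
        exact Relation.ReflTransGen.tail h1 (SIM_lk_symm h3)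
    · -- w < z
      rcases hz with ⟨ha, hb⟩ | ⟨ha, hb⟩
      · have h3 := (SIM_step hR hlt hb h2).1
        exact Relation.ReflTransGen.tail h1 h3
      · exact ih z (Or.inr ⟨hlt, hb⟩)

theorem SIM_diag {R : R2} (hR : LM R) {x y : ℕ} (h : lt R x y) (hl : ¬ mo R x y ∨ mo R y x) :
    mo R x x ↔ mo R y y := by
  rcases hl with hl | hl
  · constructor
    · intro h1
      exact absurd (hR.mono x x x y (Or.inl rfl) h1 (Or.inr h)) hl
    · intro h1
      exact absurd (hR.mono y x y y (Or.inr h) h1 (Or.inl rfl)) hl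
  · constructor
    · intro _
      exact hR.mono y y x y (Or.inl rfl) hl (Or.inr h)
    · intro _
      exact hR.mono y x x x (Or.inr h) hl (Or.inl rfl)

theorem t_SIM : S_SIM := by
  intro R hR
  refine ⟨fun x y h => SIM_symm h, ?_, ?_, ?_, ?_⟩
  · intro x y z h h1 h2
    exact SIM_convex hR h z (Or.inl ⟨h1, h2⟩)
  · intro x y x' y' hx hy hn hlt
    by_contra hcon
    have hne : x' ≠ y' := by
      rintro rfl
      exact hn (SIM_trans hx (SIM_symm hy))
    have h1 : lt R y' x' := by
      rcases hR.tot x' y' hne with h | h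
      · exact absurd h hcon
      · exact h
    have hne2 : x' ≠ y := by
      rintro rfl
      exact hn hx
    have h2 : lt R x' y := by
      rcases hR.tot x' y hne2 with h | h
      · exact h
      · exact absurd (SIM_convex hR hx y (Or.inl ⟨hlt, h⟩)) hn
    have h3 : sim R y' x' := SIM_convex hR (SIM_symm hy) x' (Or.inl ⟨h1, h2⟩)
    exact hn (SIM_trans hx (SIM_trans (SIM_symm h3) (SIM_symm hy)))
  · intro x y hlt hn
    have h1 : ¬ lk R x y := fun h => hn (Relation.ReflTransGen.single h)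
    have h2 : ¬ (¬ mo R x y ∨ mo R y x) := fun h => h1 (Or.inl ⟨hlt, h⟩)
    push Not at h2
    exact h2
  · intro x y h
    unfold sim at h
    induction h with
    | refl => exact Iff.rfl
    | tail _ h2 ih =>
      refine ih.trans ?_
      rcases h2 with h2 | h2
      · exact SIM_diag hR h2.1 h2.2
      · exact (SIM_diag hR h2.1 h2.2).symm

end Pool.Agent.H566M
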