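import Pool.Agent.H566M.Spec

/-! Task VCB: all blocks. -/

set_option autoImplicit false

namespace Pool.Agent.H566M

open Set MeasureTheory
open Pool.Agent.H899R2.VP (St Adj PIso BF IsoOn idOn inv comp zipSet)
open Pool.Agent.H533R2.VO (RS lift put OS Ic RIso Dich VC BlkV S_FINAL)
open Pool.Agent.H566P (ar R2 v2 a0 a1 lt ac co mk S_ACC)

theorem t_VCB (hA : S_ACC) (hS : S_SIM) : S_VCB := by
  intro hE hC B hB hinv hMB
  obtain ⟨-, -, -, -, -, hRI, -, -, hac, -, -, -⟩ := hA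
  have hmo : ∀ x, MeasurableSet {R : R2 | mo R x x} := fun x => hac 0 x x
  have hm : ∀ R R' : R2, RIso R R' → ∃ σ : Equiv.Perm ℕ, ∀ x, mo R' (σ x) (σ x) ↔ mo R x x := by
    intro R R' h
    obtain ⟨σ, -, h2, -⟩ := (hRI R R').1 h
    exact ⟨σ, fun x => h2 0 x x⟩
  have h1 : Dich (B ∩ {R : R2 | ∀ x, ¬ mo R x x}) := by
    refine hE _ (hB.inter ?_) ?_ ?_
    · have : {R : R2 | ∀ x, ¬ mo R x x} = ⋂ x, {R : R2 | mo R x x}ᶜ := by
        ext R; simp
      rw [this]
      exact MeasurableSet.iInter fun x => (hmo x).compl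
    · intro R R' h
      obtain ⟨σ, hσ⟩ := hm R R' h
      have e1 := hinv R R' h
      constructor
      · rintro ⟨a, b⟩
        refine ⟨e1.1 a, fun x => ?_⟩
        obtain ⟨y, rfl⟩ := σ.surjective x
        rw [hσ]; exact b y
      · rintro ⟨a, b⟩
        refine ⟨e1.2 a, fun x => ?_⟩
        have := b (σ x)
        rwa [hσ] at this
    · rintro R ⟨a, b⟩
      exact ⟨(hMB R a).lm, (hMB R a).con, b⟩
  have h2 : Dich (B ∩ {R : R2 | ∀ x, mo R x x}) := by
    refine hC _ (hB.inter ?_) ?_ ?_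
    · have : {R : R2 | ∀ x, mo R x x} = ⋂ x, {R : R2 | mo R x x} := by
        ext R; simp
      rw [this]
      exact MeasurableSet.iInter fun x => hmo x
    · intro R R' h
      obtain ⟨σ, hσ⟩ := hm R R' h
      have e1 := hinv R R' h
      constructor
      · rintro ⟨a, b⟩
        refine ⟨e1.1 a, fun x => ?_⟩
        obtain ⟨y, rfl⟩ := σ.surjective x
        rw [hσ]; exact b y
      · rintro ⟨a, b⟩
        refine ⟨e1.2 a, fun x => ?_⟩
        have := b (σ x)
        rwa [hσ] at this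
    · rintro R ⟨a, b⟩
      exact ⟨(hMB R a).lm, (hMB R a).con, b⟩
  rcases h1 with ⟨f, hf⟩ | ⟨c, hc1, hc2, hc3⟩
  · rcases h2 with ⟨f', hf'⟩ | ⟨c, hc1, hc2, hc3⟩
    · left
      refine ⟨fun n => if n % 2 = 0 then f (n / 2) else f' (n / 2), fun R hR => ?_⟩
      have hco := (hMB R hR).con
      have h5 := (hS R (hMB R hR).lm).2.2.2.2
      by_cases h0 : mo R 0 0
      · obtain ⟨n, hn⟩ := hf' R ⟨hR, fun x => (h5 0 x (hco 0 x)).1 h0⟩
        refine ⟨2 * n + 1, ?_⟩
        have e1 : (2 * n + 1) % 2 = 1 := by omega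
        have e2 : (2 * n + 1) / 2 = n := by omega
        simp only [e1, e2, one_ne_zero, if_false]
        exact hn
      · obtain ⟨n, hn⟩ := hf R ⟨hR, fun x hx => h0 ((h5 0 x (hco 0 x)).2 hx)⟩
        refine ⟨2 * n, ?_⟩
        have e1 : (2 * n) % 2 = 0 := by omega
        have e2 : (2 * n) / 2 = n := by omega
        simp only [e1, e2, if_true]
        exact hn
    · exact Or.inr ⟨c, hc1, fun A => (hc2 A).1, hc3⟩
  · exact Or.inr ⟨c, hc1, fun A => (hc2 A).1, hc3⟩

end Pool.Agent.H566M
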