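import Pool.Agent.H566M.Spec
import Pool.Agent.H899R2.VP.Few

/-! Task VCE: expansive blocks. -/

set_option autoImplicit false

namespace Pool.Agent.H566M

open Set MeasureTheory
open Pool.Agent.H899R2.VP (St Adj PIso BF IsoOn idOn inv comp zipSet few_base)
open Pool.Agent.H533R2.VO (RS lift put OS Ic RIso Dich VC BlkV S_FINAL)
open Pool.Agent.H566P (ar R2 v2 a0 a1 lt ac co mk S_ACC)

private theorem VCE_iso_of_riso {R R' : R2} (h : RIso R R') :
    IsoOn (lift R) (lift R') univ univ ∅ := by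
  obtain ⟨σ, hσ⟩ := h
  refine ⟨{w | w.2 = σ w.1}, empty_subset _, fun _ _ => ⟨trivial, trivial⟩, ⟨?_, ?_, ?_⟩, ?_, ?_⟩
  · rintro ⟨u, u'⟩ hu ⟨v, v'⟩ hv
    simp only [Set.mem_ofPred_eq] at hu hv
    simp only
    rw [hu, hv]
    exact σ.injective.eq_iff.symm
  · intro u _ v _
    rfl
  · intro i t ht
    have h1 : (fun k => (t k).2) = ⇑σ ∘ fun k => (t k).1 := funext fun k => ht k
    show R i (fun k => (t k).1) = R' i (fun k => (t k).2)
    rw [h1, hσ]
  · intro x _
    exact ⟨σ x, rfl⟩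
  · intro y _
    exact ⟨σ.symm y, by simp⟩

private theorem VCE_v2 (σ : Equiv.Perm ℕ) (i x y : ℕ) : v2 i (σ x) (σ y) = ⇑σ ∘ v2 i x y := by
  funext k
  simp only [v2, Function.comp]
  split_ifs <;> rfl

private theorem VCE_is {R R' : R2} {σ : Equiv.Perm ℕ}
    (h : ∀ (i : ℕ) (v : Fin (ar i) → ℕ), R' i (⇑σ ∘ v) = R i v) : Is R R' σ := by
  refine ⟨fun x y => ?_, fun n x y => ?_, fun n x => ?_⟩
  · unfold lt
    rw [VCE_v2, h]
  · unfold ac
    rw [VCE_v2, h]
  · unfold co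
    rw [VCE_v2, h]

private theorem VCE_is_of_iso {R R' : R2} {p : ℕ}
    (h : IsoOn (lift R) (lift R') univ univ (idOn {p})) : ∃ σ : Equiv.Perm ℕ, Is R R' σ ∧ σ p = p := by
  obtain ⟨q, hq, -, h3, h4, h5⟩ := h
  choose f hf using fun x => h4 x trivial
  have hinj : Function.Injective f := by
    intro x y hxy
    exact (h3.1 _ (hf x) _ (hf y)).2 hxy
  have hsurj : Function.Surjective f := by
    intro y
    obtain ⟨x, hx⟩ := h5 y trivial
    exact ⟨x, (h3.1 _ (hf x) _ hx).1 rfl⟩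
  have hpp : ((p, p) : ℕ × ℕ) ∈ q := hq ⟨rfl, rfl⟩
  refine ⟨Equiv.ofBijective f ⟨hinj, hsurj⟩, VCE_is ?_, (h3.1 _ (hf p) _ hpp).1 rfl⟩
  intro i v
  have := h3.2.2 i (fun k => (v k, f (v k))) (fun k => hf (v k))
  exact this.symm

private theorem VCE_cyl {s : Set (ℕ → Bool)} (hs : IsOpen s) (h0 : (fun _ => false) ∈ s) :
    ∃ N : ℕ, ∀ A : ℕ → Bool, (∀ i < N, A i = false) → A ∈ s := by
  obtain ⟨I, u, hu, hI⟩ := isOpen_pi_iff.1 hs _ h0
  refine ⟨I.sup id + 1, fun A hA => hI fun i hi => ?_⟩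
  have h1 : i ≤ I.sup id := Finset.le_sup (f := id) (Finset.mem_coe.1 hi)
  rw [hA i (by omega)]
  exact (hu i (Finset.mem_coe.1 hi)).2

theorem t_VCE (hA : S_ACC) (hCL : S_CLO) (hO : S_ORD) (hD : S_DEC) (h1 : S_EQ1) (h2 : S_EQ2)
    (hM : S_MEAS) (hC : S_CONT) : S_VCE := by
  classical
  obtain ⟨-, -, -, hext, -, hri, -⟩ := hA
  intro B hBm hBinv hBV
  have hris : ∀ R R' : R2, RIso R R' ↔ ∃ σ, Is R R' σ := hri
  -- measurability
  have hCm : MeasurableSet {Y : R2 | Dec Y ∈ B ∧ ∃ p, Cod (Dec Y) p = Y} := by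
    have e1 : {Y : R2 | Dec Y ∈ B ∧ ∃ p, Cod (Dec Y) p = Y} =
        (Dec ⁻¹' B) ∩ ⋃ p : ℕ, ⋂ i : ℕ, ⋂ v : Fin (ar i) → ℕ, {Y | Cod (Dec Y) p i v = Y i v} := by
      ext Y
      simp only [Set.mem_ofPred_eq, mem_inter_iff, mem_preimage, mem_iUnion, mem_iInter]
      refine and_congr_right fun _ => exists_congr fun p => ?_
      constructor
      · intro h i v
        rw [h]
      · intro h
        funext i v
        exact h i v
    rw [e1]
    refine (hM.2 hBm).inter (MeasurableSet.iUnion fun p => MeasurableSet.iInter fun i =>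
      MeasurableSet.iInter fun v => ?_)
    have hF : Measurable fun Y : R2 => Cod (Dec Y) p i v :=
      (measurable_pi_apply v).comp ((measurable_pi_apply i).comp ((hM.1 p).comp hM.2))
    have hG : Measurable fun Y : R2 => Y i v :=
      (measurable_pi_apply v).comp (measurable_pi_apply i)
    exact (hF.prodMk hG) (Set.toFinite {w : Bool × Bool | w.1 = w.2}).measurableSet
  -- uniqueness of the image structure
  have huniq : ∀ (Y Y' Z : R2) (σ : Equiv.Perm ℕ), Is Y Y' σ → Is Y Z σ → Z = Y' := by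
    intro Y Y' Z σ hY hZ
    apply hext
    · intro x y
      have a1 := hY.1 (σ.symm x) (σ.symm y)
      have a2 := hZ.1 (σ.symm x) (σ.symm y)
      simp only [Equiv.apply_symm_apply] at a1 a2
      rw [a1, a2]
    · intro n x y
      have a1 := hY.2.1 n (σ.symm x) (σ.symm y)
      have a2 := hZ.2.1 n (σ.symm x) (σ.symm y)
      simp only [Equiv.apply_symm_apply] at a1 a2
      rw [a1, a2]
    · intro n x
      have a1 := hY.2.2 n (σ.symm x)
      have a2 := hZ.2.2 n (σ.symm x)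
      simp only [Equiv.apply_symm_apply] at a1 a2
      rw [a1, a2]
  have hinv1 : ∀ Y Y' : R2, RIso Y Y' → Y ∈ {Y : R2 | Dec Y ∈ B ∧ ∃ p, Cod (Dec Y) p = Y} →
      Y' ∈ {Y : R2 | Dec Y ∈ B ∧ ∃ p, Cod (Dec Y) p = Y} := by
    rintro Y Y' hYY ⟨hY1, p, hp⟩
    obtain ⟨σ, hσ⟩ := (hris _ _).1 hYY
    have hd := h2 Y Y' σ hσ
    refine ⟨(hBinv _ _ ((hris _ _).2 ⟨σ, hd⟩)).1 hY1, σ p, ?_⟩
    have he := h1 _ _ σ hd p
    rw [hp] at he
    exact huniq Y Y' _ σ hσ he
  have hsymm : ∀ Y Y' : R2, RIso Y Y' → RIso Y' Y := by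
    rintro Y Y' ⟨σ, hσ⟩
    refine ⟨σ.symm, fun i v => ?_⟩
    rw [← hσ i (⇑σ.symm ∘ v)]
    congr 1
    funext k
    simp
  have hinv : ∀ Y Y' : R2, RIso Y Y' → (Y ∈ {Y : R2 | Dec Y ∈ B ∧ ∃ p, Cod (Dec Y) p = Y} ↔
      Y' ∈ {Y : R2 | Dec Y ∈ B ∧ ∃ p, Cod (Dec Y) p = Y}) := fun Y Y' h =>
    ⟨hinv1 Y Y' h, hinv1 Y' Y (hsymm Y Y' h)⟩
  have hin : ∀ Y ∈ {Y : R2 | Dec Y ∈ B ∧ ∃ p, Cod (Dec Y) p = Y}, CL Y := by
    rintro Y ⟨hY1, p, hp⟩
    have := hO (Dec Y) (hBV _ hY1) p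
    rwa [hp] at this
  rcases hCL _ hCm hinv hin with ⟨f, hf⟩ | ⟨g, hgc, hgm, hgi⟩
  · left
    refine ⟨fun n => Dec (f n), fun R hR => ?_⟩
    have hdR := (hD R (hBV R hR) 0).1
    have hmem : Cod R 0 ∈ {Y : R2 | Dec Y ∈ B ∧ ∃ p, Cod (Dec Y) p = Y} := by
      refine ⟨by rw [hdR]; exact hR, 0, by rw [hdR]⟩
    obtain ⟨n, hn⟩ := hf _ hmem
    obtain ⟨σ, hσ⟩ := (hris _ _).1 hn
    have h3 := h2 _ _ σ hσ
    rw [hdR] at h3
    exact ⟨n, (hris _ _).2 ⟨σ, h3⟩⟩
  · by_contra hnD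
    choose hg1 pA hpA using hgm
    have hco : ∀ A y, co (g A) 0 y ↔ y = pA A := by
      intro A y
      have := (hD (Dec (g A)) (hBV _ (hg1 A)) (pA A)).2.2.2 y
      rwa [hpA A] at this
    obtain ⟨p, hp⟩ : ∃ p, p = pA (fun _ => false) := ⟨_, rfl⟩
    have hopen : IsOpen {A : ℕ → Bool | co (g A) 0 p} := by
      have hc1 : Continuous fun A => g A (2 * 0 + 2) (v2 (2 * 0 + 2) p p) :=
        (continuous_apply _).comp ((continuous_apply _).comp hgc)
      exact (isOpen_discrete {true}).preimage hc1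
    obtain ⟨N, hN⟩ := VCE_cyl hopen ((hco _ p).2 hp)
    set e : (ℕ → Bool) → (ℕ → Bool) := fun A i => if i < N then false else A (i - N) with he
    have hec : Continuous e := by
      refine continuous_pi fun i => ?_
      by_cases hi : i < N
      · simp only [he, hi, if_true]
        exact continuous_const
      · simp only [he, hi, if_false]
        exact continuous_apply _
    have hei : Function.Injective e := by
      intro A A' h
      funext i
      have := congrFun h (i + N)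
      simpa [he] using this
    have hpe : ∀ A, Cod (Dec (g (e A))) p = g (e A) := by
      intro A
      have h3 : co (g (e A)) 0 p := hN (e A) (fun i hi => by simp [he, hi])
      rw [(hco (e A) p).1 h3]
      exact hpA (e A)
    have hcc : Continuous fun A => Dec (g (e A)) := by
      refine hC (fun A => g (e A)) (hgc.comp hec) ?_ ?_
      · intro A
        have := (hD (Dec (g (e A))) (hBV _ (hg1 _)) p).2.1
        rwa [hpe A] at this
      · intro A
        have := (hD (Dec (g (e A))) (hBV _ (hg1 _)) p).2.2.1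
        rwa [hpe A] at this
    have hK : MeasurableSet {M : St ar | M.1 = (fun _ _ => false) ∧ M.2 ∈ B} := by
      have e1 : {M : St ar | M.1 = (fun _ _ => false) ∧ M.2 ∈ B} =
          (Prod.fst ⁻¹' {fun _ _ => false}) ∩ (Prod.snd ⁻¹' B) := rfl
      rw [e1]
      exact (measurable_fst (measurableSet_singleton _)).inter (measurable_snd hBm)
    refine few_base hK ?_ (F := {p}) (finite_singleton p)
      (fun A => lift (Dec (g (e A)))) ?_ ?_ ?_
    · rintro ⟨k, hkc, hkK, hkd⟩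
      refine hnD (Or.inr ⟨fun A => (k A).2, continuous_snd.comp hkc, fun A => (hkK A).2, ?_⟩)
      intro A A' hAA
      refine hkd A A' ?_
      have h7 : ∀ A, k A = lift (k A).2 := by
        intro A
        exact Prod.ext (hkK A).1 rfl
      have h8 := VCE_iso_of_riso hAA
      rw [← h7 A, ← h7 A'] at h8
      exact h8
    · have hlc : Continuous (lift : R2 → St ar) := continuous_const.prodMk continuous_id
      exact hlc.comp hcc
    · intro A
      exact ⟨rfl, hg1 _⟩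
    · intro A A' hAA
      obtain ⟨σ, hσ, hσp⟩ := VCE_is_of_iso hAA
      have h3 := h1 _ _ σ hσ p
      rw [hσp, hpe A, hpe A'] at h3
      exact hei (hgi _ _ ((hris _ _).2 ⟨σ, h3⟩))

end Pool.Agent.H566M
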