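import Pool.Agent.H566M.CHB
import Pool.Agent.H566M.LEV
import Pool.Agent.H566M.ORD
import Pool.Agent.H566M.DEC
import Pool.Agent.H566M.EQ1
import Pool.Agent.H566M.EQ2
import Pool.Agent.H566M.MEAS
import Pool.Agent.H566M.CONT
import Pool.Agent.H566M.CLO
import Pool.Agent.H566M.VCE
import Pool.Agent.H566M.DUAL
import Pool.Agent.H566M.SIM
import Pool.Agent.H566M.VCB
import Pool.Agent.H566M.SH1
import Pool.Agent.H566M.SH
import Pool.Agent.H566M.OUT
import Pool.Agent.H566P.All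

/-! Assembly: Vaught's conjecture for linear orders with a monotone relation. -/

set_option autoImplicit false

namespace Pool.Agent.H566M

theorem outM : ∀ B : Set X3, MeasurableSet B →
  (∀ x ∈ B, LR x) → (∀ x ∈ B, ∀ (y : X3) (σ : Equiv.Perm ℕ), Isom3 σ x y → y ∈ B) →
  (∃ f : ℕ → X3, ∀ x ∈ B, ∃ n, ∃ σ : Equiv.Perm ℕ, Isom3 σ (f n) x) ∨
  (∃ c : (ℕ → Bool) → X3, Continuous c ∧ (∀ A, c A ∈ B) ∧
    ∀ A A', (∃ σ : Equiv.Perm ℕ, Isom3 σ (c A) (c A')) → A = A') := by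
  have acc := Pool.Agent.H566P.t_ACC
  have chb := t_CHB
  have lev := t_LEV chb
  have ord := t_ORD acc chb lev
  have dec := t_DEC acc chb lev
  have vce := t_VCE acc (t_CLO acc Pool.Agent.H566P.out) ord dec (t_EQ1 acc) (t_EQ2 acc) (t_MEAS acc) (t_CONT acc)
  have vcb := t_VCB acc t_SIM vce (t_DUAL acc vce)
  have sh := t_SH acc (t_SH1 acc t_SIM) Pool.Agent.H533R2.VO.final
  exact t_OUT acc (sh vcb)

end Pool.Agent.H566M
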