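import Pool.Agent.H566M.SpecW

/-! WCL (helper949): the two chains. -/

set_option autoImplicit false

namespace Pool.Agent.H566M

open Pool.Agent.H566P (ar R2 v2 a0 a1 lt ac co mk S_ACC)

private theorem WCL_ph (R : R2) (C : ℕ → Prop) (hC : ∀ x y, inc R x y → (C x ↔ ¬ C y)) :
    ∀ (n x y : ℕ), ph R n x y → (C y ↔ (C x ↔ Even n)) := by
  intro n
  induction n with
  | zero =>
    intro x y h
    have h' : x = y := h
    subst h'
    simp
  | succ n ih =>
    intro x y h
    obtain ⟨z, hz, hzy⟩ := h
    have h1 := ih x z hz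
    have h2 := hC z y hzy
    rw [Nat.even_add_one]
    tauto

private theorem WCL_symm (R : R2) (x y : ℕ) (h : inc R x y) : inc R y x :=
  ⟨h.1.symm, h.2.2, h.2.1⟩

private theorem WCL_path (R : R2) (p y : ℕ) (h : cn R p y) : ∃ n, ph R n p y := by
  unfold cn at h
  induction h with
  | refl => exact ⟨0, rfl⟩
  | tail _ hbc ih =>
    obtain ⟨n, hn⟩ := ih
    exact ⟨n + 1, _, hn, hbc⟩

/-- WCL -/
theorem t_WCL : S_WCL := by
  intro R hR p
  obtain ⟨C, hC⟩ := hR.p2.two
  have key : ∀ y, cl R p y ↔ (C y ↔ C p) := by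
    intro y
    constructor
    · rintro ⟨n, hn⟩
      have h := WCL_ph R C hC _ _ _ hn
      have he : Even (2 * n) := even_two_mul n
      tauto
    · intro h
      obtain ⟨n, hn⟩ := WCL_path R p y (hR.con p y)
      have h1 := WCL_ph R C hC _ _ _ hn
      have he : Even n := by
        by_contra hne
        have : C y ↔ (C p ↔ False) := by
          rw [h1]
          simp [hne]
        tauto
      obtain ⟨m, rfl⟩ := he
      refine ⟨m, ?_⟩
      rw [two_mul]
      exact hn
  refine ⟨?_, ?_, ?_⟩
  · rw [key]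
  · intro x y hxy
    rw [key, key]
    have := hC x y hxy
    tauto
  · intro x y hxy
    exact WCL_symm R x y hxy

end Pool.Agent.H566M
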