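import Pool.Agent.H566M.SpecW

/-! Decoding of the linear order with a monotone relation: partial orders of width two. -/

set_option autoImplicit false

namespace Pool.Agent.H566M

open Set MeasureTheory
open Pool.Agent.H566P (ar R2 v2 a0 a1 lt ac co mk S_ACC)

private theorem WDEC_co0 (hA : S_ACC) (R : R2) (p y : ℕ) : co (Cod2 R p) 0 y ↔ y = p := by
  unfold Cod2 mk1
  rw [hA.2.2.1]
  constructor
  · rintro (⟨-, h⟩ | ⟨h, -⟩ | ⟨m, h, -⟩)
    · exact h
    · omega
    · omega
  · intro h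
    exact Or.inl ⟨rfl, h⟩

private theorem WDEC_co1 (hA : S_ACC) (R : R2) (p y : ℕ) : co (Cod2 R p) 1 y ↔ cl R p y := by
  unfold Cod2 mk1
  rw [hA.2.2.1]
  constructor
  · rintro (⟨h, -⟩ | ⟨-, h⟩ | ⟨m, h, -⟩)
    · omega
    · exact h
    · omega
  · intro h
    exact Or.inr (Or.inl ⟨rfl, h⟩)

private theorem WDEC_co (hA : S_ACC) (R : R2) (p m y : ℕ) :
    co (Cod2 R p) (m + 2) y ↔ co R m y := by
  unfold Cod2 mk1
  rw [hA.2.2.1]
  constructor
  · rintro (⟨h, -⟩ | ⟨h, -⟩ | ⟨m', h, h2⟩)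
    · omega
    · omega
    · have h3 : m = m' := by omega
      rw [h3]
      exact h2
  · intro h
    exact Or.inr (Or.inr ⟨m, rfl, h⟩)

private theorem WDEC_lt (hA : S_ACC) (R : R2) (p x y : ℕ) :
    lt (Cod2 R p) x y ↔ le2 R p x y := by
  unfold Cod2 mk1
  rw [hA.1]

private theorem WDEC_mo (hA : S_ACC) (R : R2) (p x y : ℕ) :
    mo (Cod2 R p) x y ↔ mo2 R p x y := by
  unfold Cod2 mk1 mo
  rw [hA.2.1]
  exact ⟨fun h => h.2, fun h => ⟨rfl, h⟩⟩

theorem t_WDEC (hA : S_ACC) (_hW : S_WCL) : S_WDEC := by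
  intro R hR p
  refine ⟨?_, fun y => WDEC_co0 hA R p y⟩
  have htr := hR.p2.tr
  apply hA.2.2.2.1
  · intro x y
    unfold Dec2
    rw [hA.1, WDEC_lt hA, WDEC_co1 hA, WDEC_co1 hA, WDEC_mo hA]
    constructor
    · rintro ⟨h1 | ⟨h1, hx, hy⟩, h2⟩
      · exact h1
      · obtain ⟨x', y', hx', hy', hlt, hxx, hyy⟩ := h2 hx hy
        have g1 : x = x' ∨ lt R x x' := by
          rcases hxx with h | h | ⟨-, -, h⟩
          · exact Or.inl h
          · exact Or.inr h
          · exact absurd hx' h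
        have g2 : y' = y ∨ lt R y' y := by
          rcases hyy with h | h | ⟨-, h, -⟩
          · exact Or.inl h
          · exact Or.inr h
          · exact absurd h hy'
        have g3 : lt R x y' := by
          rcases g1 with h | h
          · rw [h]
            exact hlt
          · exact htr _ _ _ h hlt
        rcases g2 with h | h
        · rw [← h]
          exact g3
        · exact htr _ _ _ g3 h
    · intro h
      exact ⟨Or.inl h, fun hx hy => ⟨x, y, hx, hy, h, Or.inl rfl, Or.inl rfl⟩⟩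
  · intro n x y
    unfold Dec2
    rw [hA.2.1]
    exact ⟨fun h => h.elim, fun h => absurd h (hR.p2.ac0 n x y)⟩
  · intro n x
    unfold Dec2
    rw [hA.2.2.1]
    exact WDEC_co hA R p n x

end Pool.Agent.H566M
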