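import Pool.Agent.H566M.SpecW

/-! WDIL: a partial order on the naturals without antichains of size three is a union of two
chains. -/

set_option autoImplicit false

namespace Pool.Agent.H566M

namespace WDil

/-- incomparability -/
def ic (r : ℕ → ℕ → Prop) (x y : ℕ) : Prop := x ≠ y ∧ ¬ r x y ∧ ¬ r y x

theorem ic_symm {r : ℕ → ℕ → Prop} {x y : ℕ} (h : ic r x y) : ic r y x :=
  ⟨h.1.symm, h.2.2, h.2.1⟩

/-- a component with root `p` and distance `d` -/
structure Cx (r : ℕ → ℕ → Prop) (p : ℕ) (S : ℕ → Prop) (d : ℕ → ℕ) : Prop where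
  irr : ∀ x, ¬ r x x
  tr : ∀ x y z, r x y → r y z → r x z
  no3 : ∀ x y z, ic r x y → ic r y z → ic r x z → False
  sp : S p
  dp : d p = 0
  cl : ∀ y z, S y → ic r y z → S z ∧ d z ≤ d y + 1
  pr : ∀ y n, S y → d y = n + 1 → ∃ z, S z ∧ d z = n ∧ ic r z y
  ze : ∀ y, S y → d y = 0 → y = p

theorem Cx.rev {r : ℕ → ℕ → Prop} {p : ℕ} {S : ℕ → Prop} {d : ℕ → ℕ} (h : Cx r p S d) :
    Cx (fun x y => r y x) p S d where
  irr := h.irr
  tr := fun x y z hxy hyz => h.tr z y x hyz hxy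
  no3 := fun x y z a b c => h.no3 x y z ⟨a.1, a.2.2, a.2.1⟩ ⟨b.1, b.2.2, b.2.1⟩
    ⟨c.1, c.2.2, c.2.1⟩
  sp := h.sp
  dp := h.dp
  cl := fun y z hy a => h.cl y z hy ⟨a.1, a.2.2, a.2.1⟩
  pr := fun y n hy hd => by
    obtain ⟨z, hz, hdz, a⟩ := h.pr y n hy hd
    exact ⟨z, hz, hdz, a.1, a.2.2, a.2.1⟩
  ze := h.ze

section

variable {r : ℕ → ℕ → Prop} {p : ℕ} {S : ℕ → Prop} {d : ℕ → ℕ}

theorem Cx.cmp (h : Cx r p S d) {y z : ℕ} (hy : S y) (hd : d y + 2 ≤ d z) :
    r y z ∨ r z y := by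
  by_contra hc
  push Not at hc
  have hne : y ≠ z := by
    rintro rfl
    omega
  have := (h.cl y z hy ⟨hne, hc.1, hc.2⟩).2
  omega

/-- points at distance one -/
theorem Cx.one (h : Cx r p S d) {w : ℕ} (hw : S w) (hd : d w = 1) : ic r p w := by
  obtain ⟨z, hz, hdz, a⟩ := h.pr w 0 hw hd
  rw [h.ze z hz hdz] at a
  exact a

/-- (B) -/
theorem Cx.B (h : Cx r p S d) {y z : ℕ} (hpy : r p y) (hi : ic r z y)
    (hd : 2 ≤ d z) : r p z := by
  rcases h.cmp h.sp (z := z) (by rw [h.dp]; omega) with h1 | h1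
  · exact h1
  · exact absurd (h.tr _ _ _ h1 hpy) hi.2.1

/-- (C) -/
theorem Cx.C (h : Cx r p S d) : ∀ (j w y : ℕ), S w → S y → d w = j → (j ≤ 1 ∨ r p w) →
    r p y → j + 2 ≤ d y → r w y := by
  intro j
  induction j with
  | zero =>
    intro w y hw hy hdw hup hpy hd
    rw [h.ze w hw hdw]
    exact hpy
  | succ j ih =>
    intro w y hw hy hdw hup hpy hd
    rcases h.cmp hw (z := y) (by omega) with h1 | h1
    · exact h1
    exfalso
    rcases Nat.eq_zero_or_pos j with hj | hj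
    · subst hj
      exact (h.one hw hdw).2.1 (h.tr _ _ _ hpy h1)
    · obtain ⟨v, hv, hdv, hi⟩ := h.pr w j hw hdw
      have hpw : r p w := by
        rcases hup with h2 | h2
        · omega
        · exact h2
      have hupv : j ≤ 1 ∨ r p v := by
        rcases Nat.lt_or_ge j 2 with h2 | h2
        · left; omega
        · right; exact h.B hpw hi (by omega)
      have := ih v y hv hy hdv hupv hpy (by omega)
      exact hi.2.1 (h.tr _ _ _ this h1)

theorem Cx.key (h : Cx r p S d) {n x x' y y' : ℕ} (hx' : S x') (hy : S y)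
    (hdx : d x = n + 1) (hdx' : d x' = n + 1) (hdy : d y = n + 2) (hdy' : d y' = n + 2)
    (hpy : r p y) (hup : n = 0 ∨ r p x')
    (ixy : ic r x y) (ixy' : ic r x' y') (iyy : ic r y y') (hxx : r x x') : False := by
  have h1 : r y x' := by
    by_contra hc
    by_cases h2 : r x' y
    · exact ixy.2.1 (h.tr _ _ _ hxx h2)
    · have hne : y ≠ x' := by
        rintro rfl
        omega
      exact h.no3 y y' x' iyy (ic_symm ixy') ⟨hne, hc, h2⟩
  rcases Nat.eq_zero_or_pos n with hn | hn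
  · subst hn
    exact (h.one hx' hdx').2.1 (h.tr _ _ _ hpy h1)
  · obtain ⟨m, rfl⟩ : ∃ m, n = m + 1 := ⟨n - 1, by omega⟩
    obtain ⟨w, hw, hdw, hi⟩ := h.pr x' (m + 1) hx' hdx'
    have hpx' : r p x' := by
      rcases hup with h2 | h2
      · omega
      · exact h2
    have hupw : m + 1 ≤ 1 ∨ r p w := by
      rcases Nat.eq_zero_or_pos m with h2 | h2
      · left; omega
      · right; exact h.B hpx' hi (by omega)
    have h3 : r w y := h.C (m + 1) w y hw hy hdw hupw hpy (by omega)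
    exact hi.2.1 (h.tr _ _ _ h3 h1)

/-- (D) -/
theorem Cx.D (h : Cx r p S d) : ∀ (n y y' : ℕ), S y → S y' → d y = n + 1 → d y' = n + 1 →
    (n = 0 ∨ (r p y ∧ r p y')) → ¬ ic r y y' := by
  intro n
  induction n with
  | zero =>
    intro y y' hy hy' hdy hdy' hup hi
    exact h.no3 p y y' (h.one hy hdy) hi (h.one hy' hdy')
  | succ n ih =>
    intro y y' hy hy' hdy hdy' hup hi
    have hup' : r p y ∧ r p y' := by
      rcases hup with h2 | h2
      · omega
      · exact h2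
    obtain ⟨x, hx, hdx, ixy⟩ := h.pr y (n + 1) hy hdy
    obtain ⟨x', hx', hdx', ixy'⟩ := h.pr y' (n + 1) hy' hdy'
    have hupx : n = 0 ∨ (r p x ∧ r p x') := by
      rcases Nat.eq_zero_or_pos n with h2 | h2
      · left; exact h2
      · right
        exact ⟨h.B hup'.1 ixy (by omega), h.B hup'.2 ixy' (by omega)⟩
    have h3 := ih x x' hx hx' hdx hdx' hupx
    by_cases hxx : x = x'
    · subst hxx
      exact h.no3 x y y' ixy hi ixy'
    by_cases h4 : r x x'
    · exact h.key hx' hy hdx hdx' hdy hdy' hup'.1 (hupx.imp id And.right) ixy ixy' hi h4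
    by_cases h5 : r x' x
    · exact h.key hx hy' hdx' hdx hdy' hdy hup'.2 (hupx.imp id And.left) ixy' ixy
        (ic_symm hi) h5
    exact h3 ⟨hxx, h4, h5⟩

/-- (E) -/
theorem Cx.E (h : Cx r p S d) {y z : ℕ} (hy : S y) (hi : ic r y z) : d y ≠ d z := by
  intro he
  obtain ⟨hz, hd⟩ := h.cl y z hy hi
  rcases Nat.eq_zero_or_pos (d y) with h0 | h0
  · exact hi.1 ((h.ze y hy h0).trans (h.ze z hz (by omega)).symm)
  obtain ⟨n, hn⟩ : ∃ n, d y = n + 1 := ⟨d y - 1, by omega⟩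
  rcases Nat.eq_zero_or_pos n with h1 | h1
  · exact h.D n y z hy hz hn (by omega) (Or.inl h1) hi
  have cy : r p y ∨ r y p := h.cmp h.sp (by rw [h.dp]; omega)
  have cz : r p z ∨ r z p := h.cmp h.sp (by rw [h.dp]; omega)
  rcases cy with a | a
  · rcases cz with b | b
    · exact h.D n y z hy hz hn (by omega) (Or.inr ⟨a, b⟩) hi
    · exact hi.2.2 (h.tr _ _ _ b a)
  · rcases cz with b | b
    · exact hi.2.1 (h.tr _ _ _ a b)
    · exact h.rev.D n y z hy hz hn (by omega) (Or.inr ⟨a, b⟩) ⟨hi.1, hi.2.2, hi.2.1⟩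

theorem Cx.F (h : Cx r p S d) {y z : ℕ} (hy : S y) (hi : ic r y z) :
    (Even (d y) ↔ ¬ Even (d z)) := by
  have h1 := h.E hy hi
  obtain ⟨hz, h2⟩ := h.cl y z hy hi
  have h3 := (h.cl z y hz (ic_symm hi)).2
  rw [Nat.even_iff, Nat.even_iff]
  omega

end

/-- paths of length `n` -/
def pa (r : ℕ → ℕ → Prop) : ℕ → ℕ → ℕ → Prop
  | 0, x, y => x = y
  | n + 1, x, y => ∃ z, pa r n x z ∧ ic r z y

open Classical in
/-- distance from the root -/
noncomputable def di (r : ℕ → ℕ → Prop) (p y : ℕ) : ℕ := sInf {n | pa r n p y}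

/-- the root of a component -/
noncomputable def ro (r : ℕ → ℕ → Prop) (y : ℕ) : ℕ := sInf {q | ∃ n, pa r n q y}

theorem di_mem {r : ℕ → ℕ → Prop} {p y : ℕ} (h : ∃ n, pa r n p y) : pa r (di r p y) p y :=
  Nat.sInf_mem (s := {n | pa r n p y}) h

theorem di_le {r : ℕ → ℕ → Prop} {p y n : ℕ} (h : pa r n p y) : di r p y ≤ n :=
  Nat.sInf_le (s := {n | pa r n p y}) h

theorem ro_mem (r : ℕ → ℕ → Prop) (y : ℕ) : ∃ n, pa r n (ro r y) y :=
  Nat.sInf_mem (s := {q | ∃ n, pa r n q y}) ⟨y, 0, rfl⟩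

theorem ro_le {r : ℕ → ℕ → Prop} {x y : ℕ} (h : ic r x y) : ro r y ≤ ro r x := by
  obtain ⟨n, hn⟩ := ro_mem r x
  exact Nat.sInf_le (s := {q | ∃ n, pa r n q y}) ⟨n + 1, x, hn, h⟩

theorem ro_eq {r : ℕ → ℕ → Prop} {x y : ℕ} (h : ic r x y) : ro r x = ro r y :=
  le_antisymm (ro_le (ic_symm h)) (ro_le h)

theorem mkCx {r : ℕ → ℕ → Prop} (irr : ∀ x, ¬ r x x) (tr : ∀ x y z, r x y → r y z → r x z)
    (no3 : ∀ x y z, ic r x y → ic r y z → ic r x z → False) (p : ℕ) :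
    Cx r p (fun y => ∃ n, pa r n p y) (di r p) where
  irr := irr
  tr := tr
  no3 := no3
  sp := ⟨0, rfl⟩
  dp := Nat.le_zero.mp (di_le (n := 0) rfl)
  cl := fun y z hy a => by
    have h1 : pa r (di r p y + 1) p z := ⟨y, di_mem hy, a⟩
    exact ⟨⟨_, h1⟩, di_le h1⟩
  pr := fun y n hy hd => by
    have h1 := di_mem hy
    rw [hd] at h1
    obtain ⟨z, hz, a⟩ := h1
    have h2 : di r p z ≤ n := di_le hz
    have h3 : pa r (di r p z + 1) p y := ⟨z, di_mem ⟨n, hz⟩, a⟩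
    have h4 := di_le h3
    exact ⟨z, ⟨n, hz⟩, by omega, a⟩
  ze := fun y hy hd => by
    have h1 := di_mem hy
    rw [hd] at h1
    exact Eq.symm h1

end WDil

open WDil in
theorem t_WDIL : S_WDIL := by
  intro r irr tr no3
  have no3' : ∀ x y z, ic r x y → ic r y z → ic r x z → False := by
    intro x y z a b c
    exact no3 ⟨x, y, z, a.1, b.1, c.1, a.2.1, a.2.2, b.2.1, b.2.2, c.2.1, c.2.2⟩
  refine ⟨fun y => Even (di r (ro r y) y), ?_⟩
  intro x y hne h1 h2
  have hi : ic r x y := ⟨hne, h1, h2⟩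
  have he := ro_eq hi
  have h3 := (mkCx irr tr no3' (ro r x)).F (ro_mem r x) hi
  show Even (di r (ro r x) x) ↔ ¬ Even (di r (ro r y) y)
  rw [← he]
  exact h3

end Pool.Agent.H566M
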