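import Pool.Agent.H566M.SpecW

/-! WEQ: coding and decoding respect isomorphisms -/

set_option autoImplicit false

namespace Pool.Agent.H566M

open Set MeasureTheory
open Pool.Agent.H899R2.VP (St Adj PIso BF IsoOn idOn inv comp zipSet)
open Pool.Agent.H533R2.VO (RS lift put OS Ic RIso Dich VC BlkV S_FINAL)
open Pool.Agent.H566P (ar R2 v2 a0 a1 lt ac co mk S_ACC)

theorem WEQ_inc {R R' : R2} {σ : Equiv.Perm ℕ} (h : Is R R' σ) (x y : ℕ) :
    inc R' (σ x) (σ y) ↔ inc R x y := by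
  unfold inc
  rw [h.1, h.1, σ.injective.ne_iff]

theorem WEQ_ph {R R' : R2} {σ : Equiv.Perm ℕ} (h : Is R R' σ) (n : ℕ) :
    ∀ x y, ph R' n (σ x) (σ y) ↔ ph R n x y := by
  induction n with
  | zero =>
    intro x y
    simp only [ph]
    rw [σ.injective.eq_iff]
  | succ n ih =>
    intro x y
    simp only [ph]
    constructor
    · rintro ⟨z, hz1, hz2⟩
      obtain ⟨z, rfl⟩ := σ.surjective z
      exact ⟨z, (ih _ _).1 hz1, (WEQ_inc h _ _).1 hz2⟩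
    · rintro ⟨z, hz1, hz2⟩
      exact ⟨σ z, (ih _ _).2 hz1, (WEQ_inc h _ _).2 hz2⟩

theorem WEQ_cl {R R' : R2} {σ : Equiv.Perm ℕ} (h : Is R R' σ) (p y : ℕ) :
    cl R' (σ p) (σ y) ↔ cl R p y := by
  unfold cl
  simp only [WEQ_ph h]

theorem WEQ_le2 {R R' : R2} {σ : Equiv.Perm ℕ} (h : Is R R' σ) (p x y : ℕ) :
    le2 R' (σ p) (σ x) (σ y) ↔ le2 R p x y := by
  unfold le2
  rw [h.1, WEQ_inc h, WEQ_cl h, WEQ_cl h]

theorem WEQ_mo2 {R R' : R2} {σ : Equiv.Perm ℕ} (h : Is R R' σ) (p x y : ℕ) :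
    mo2 R' (σ p) (σ x) (σ y) ↔ mo2 R p x y := by
  unfold mo2
  constructor
  · rintro ⟨u, v, h1, h2, h3, h4, h5⟩
    obtain ⟨u, rfl⟩ := σ.surjective u
    obtain ⟨v, rfl⟩ := σ.surjective v
    refine ⟨u, v, (WEQ_cl h _ _).1 h1, fun hc => h2 ((WEQ_cl h _ _).2 hc), (h.1 _ _).1 h3, ?_, ?_⟩
    · rcases h4 with h4 | h4
      · exact Or.inl (σ.injective h4)
      · exact Or.inr ((WEQ_le2 h _ _ _).1 h4)
    · rcases h5 with h5 | h5
      · exact Or.inl (σ.injective h5)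
      · exact Or.inr ((WEQ_le2 h _ _ _).1 h5)
  · rintro ⟨u, v, h1, h2, h3, h4, h5⟩
    refine ⟨σ u, σ v, (WEQ_cl h _ _).2 h1, fun hc => h2 ((WEQ_cl h _ _).1 hc), (h.1 _ _).2 h3,
      ?_, ?_⟩
    · rcases h4 with h4 | h4
      · exact Or.inl (congrArg σ h4)
      · exact Or.inr ((WEQ_le2 h _ _ _).2 h4)
    · rcases h5 with h5 | h5
      · exact Or.inl (congrArg σ h5)
      · exact Or.inr ((WEQ_le2 h _ _ _).2 h5)

theorem t_WEQ (hA : S_ACC) : S_WEQ := by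
  obtain ⟨a1, a2, a3, -⟩ := hA
  constructor
  · intro R R' σ h p
    refine ⟨fun x y => ?_, fun n x y => ?_, fun n x => ?_⟩
    · unfold Cod2 mk1
      rw [a1, a1, WEQ_le2 h]
    · unfold Cod2 mk1
      rw [a2, a2, WEQ_mo2 h]
    · unfold Cod2 mk1
      rw [a3, a3]
      simp only [WEQ_cl h, σ.injective.eq_iff, h.2.2]
  · intro Y Y' σ h
    refine ⟨fun x y => ?_, fun n x y => ?_, fun n x => ?_⟩
    · unfold Dec2 mo
      rw [a1, a1, h.1, h.2.1, h.2.2, h.2.2]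
    · unfold Dec2
      rw [a2, a2]
    · unfold Dec2
      rw [a3, a3, h.2.2]

end Pool.Agent.H566M
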