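import Pool.Agent.H566M.SpecW

/-! WLE: the coded structure is a linear order with a monotone relation -/

set_option autoImplicit false

namespace Pool.Agent.H566M

open Set MeasureTheory
open Pool.Agent.H899R2.VP (St Adj PIso BF IsoOn idOn inv comp zipSet)
open Pool.Agent.H533R2.VO (RS lift put OS Ic RIso Dich VC BlkV S_FINAL)
open Pool.Agent.H566P (ar R2 v2 a0 a1 lt ac co mk S_ACC)

theorem WLE_tr {R : R2} (h : P2 R) {p : ℕ}
    (hW : ∀ x y, inc R x y → (cl R p x ↔ ¬ cl R p y)) (x y z : ℕ)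
    (h1 : le2 R p x y) (h2 : le2 R p y z) : le2 R p x z := by
  rcases h1 with h1 | ⟨h1, h1c, h1d⟩
  · rcases h2 with h2 | ⟨h2, h2c, h2d⟩
    · exact Or.inl (h.tr _ _ _ h1 h2)
    · by_cases hxz : lt R x z
      · exact Or.inl hxz
      · have hne : x ≠ z := by
          rintro rfl
          exact h2.2.2 h1
        have hzx : ¬ lt R z x := fun h3 => h2.2.2 (h.tr _ _ _ h3 h1)
        have hi : inc R x z := ⟨hne, hxz, hzx⟩
        exact Or.inr ⟨hi, (hW x z hi).2 h2d, h2d⟩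
  · rcases h2 with h2 | ⟨h2, h2c, h2d⟩
    · by_cases hxz : lt R x z
      · exact Or.inl hxz
      · have hne : x ≠ z := by
          rintro rfl
          exact h1.2.2 h2
        have hzx : ¬ lt R z x := fun h3 => h1.2.2 (h.tr _ _ _ h2 h3)
        have hi : inc R x z := ⟨hne, hxz, hzx⟩
        exact Or.inr ⟨hi, h1c, (hW x z hi).1 h1c⟩
    · exact absurd h2c h1d

theorem WLE_le {R : R2} (h : P2 R) {p : ℕ}
    (hW : ∀ x y, inc R x y → (cl R p x ↔ ¬ cl R p y)) (x y z : ℕ)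
    (h1 : x = y ∨ le2 R p x y) (h2 : y = z ∨ le2 R p y z) : x = z ∨ le2 R p x z := by
  rcases h1 with rfl | h1
  · exact h2
  · rcases h2 with rfl | h2
    · exact Or.inr h1
    · exact Or.inr (WLE_tr h hW x y z h1 h2)

theorem t_WLE (hA : S_ACC) (hW : S_WCL) : S_WLE := by
  intro R hR p
  obtain ⟨a1, a2, a3, -⟩ := hA
  obtain ⟨-, hc, hs⟩ := hW R hR p
  have hL : ∀ x y, lt (Cod2 R p) x y ↔ le2 R p x y := fun x y => by
    unfold Cod2 mk1
    rw [a1]
  have hM : ∀ x y, mo (Cod2 R p) x y ↔ mo2 R p x y := fun x y => by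
    unfold mo Cod2 mk1
    rw [a2]
    simp
  refine ⟨fun x => ?_, fun x y z => ?_, fun x y hne => ?_, fun x x' y y' => ?_,
    fun n x y => ?_⟩
  · rw [hL]
    rintro (h | h)
    · exact hR.p2.irr x h
    · exact h.1.1 rfl
  · rw [hL, hL, hL]
    exact WLE_tr hR.p2 hc x y z
  · rw [hL, hL]
    by_cases h1 : lt R x y
    · exact Or.inl (Or.inl h1)
    by_cases h2 : lt R y x
    · exact Or.inr (Or.inl h2)
    have hi : inc R x y := ⟨hne, h1, h2⟩
    by_cases hx : cl R p x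
    · exact Or.inl (Or.inr ⟨hi, hx, (hc x y hi).1 hx⟩)
    · exact Or.inr (Or.inr ⟨hs x y hi, (hc y x (hs x y hi)).2 hx, hx⟩)
  · rw [hL, hL, hM, hM]
    rintro h1 ⟨u, v, hu, hv, huv, h2, h3⟩ h4
    exact ⟨u, v, hu, hv, huv, WLE_le hR.p2 hc _ _ _ h1 h2, WLE_le hR.p2 hc _ _ _ h3 h4⟩
  · unfold Cod2 mk1
    rw [a2]
    simp

end Pool.Agent.H566M
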