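import Pool.Agent.H566M.SpecW

/-! WMEAS: measurability of coding and continuity of decoding (width two). -/

set_option autoImplicit false

namespace Pool.Agent.H566M

open Set MeasureTheory
open Pool.Agent.H566P (ar R2 v2 a0 a1 lt ac co mk S_ACC)

theorem WMEAS_inc (hlt : ∀ x y, Measurable fun R : R2 => lt R x y) (x y : ℕ) :
    Measurable fun R : R2 => inc R x y :=
  Measurable.and measurable_const (Measurable.and (Measurable.not (hlt x y))
    (Measurable.not (hlt y x)))

theorem WMEAS_ph (hlt : ∀ x y, Measurable fun R : R2 => lt R x y) (n : ℕ) :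
    ∀ x y, Measurable fun R : R2 => ph R n x y := by
  induction n with
  | zero =>
    intro x y
    exact measurable_const
  | succ n ih =>
    intro x y
    refine Measurable.exists fun z => ?_
    exact Measurable.and (ih x z) (WMEAS_inc hlt z y)

theorem WMEAS_cl (hlt : ∀ x y, Measurable fun R : R2 => lt R x y) (p y : ℕ) :
    Measurable fun R : R2 => cl R p y :=
  Measurable.exists fun n => WMEAS_ph hlt (2 * n) p y

theorem WMEAS_le2 (hlt : ∀ x y, Measurable fun R : R2 => lt R x y) (p x y : ℕ) :
    Measurable fun R : R2 => le2 R p x y :=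
  Measurable.or (hlt x y) (Measurable.and (WMEAS_inc hlt x y)
    (Measurable.and (WMEAS_cl hlt p x) (Measurable.not (WMEAS_cl hlt p y))))

theorem WMEAS_mo2 (hlt : ∀ x y, Measurable fun R : R2 => lt R x y) (p x y : ℕ) :
    Measurable fun R : R2 => mo2 R p x y := by
  refine Measurable.exists fun x' => Measurable.exists fun y' => ?_
  exact Measurable.and (WMEAS_cl hlt p x') (Measurable.and (Measurable.not (WMEAS_cl hlt p y'))
    (Measurable.and (hlt x' y') (Measurable.and
      (Measurable.or measurable_const (WMEAS_le2 hlt p x x'))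
      (Measurable.or measurable_const (WMEAS_le2 hlt p y' y)))))

theorem WMEAS_val {Ω : Type} [TopologicalSpace Ω] (c : Ω → R2) (hc : Continuous c) (i : ℕ)
    (v : Fin (ar i) → ℕ) : IsClopen {A | c A i v = true} := by
  have h1 : Continuous fun A => c A i v :=
    (continuous_apply v).comp ((continuous_apply i).comp hc)
  exact (isClopen_discrete ({true} : Set Bool)).preimage h1

theorem t_WMEAS (hA : S_ACC) : S_WMEAS := by
  obtain ⟨elt, eac, eco, -, -, -, -, mlt, mac, mco, mm, hcont⟩ := hA
  have hlt : ∀ x y, Measurable fun R : R2 => lt R x y :=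
    fun x y => measurableSet_setOfPred.1 (mlt x y)
  have hco : ∀ n x, Measurable fun R : R2 => co R n x :=
    fun n x => measurableSet_setOfPred.1 (mco n x)
  constructor
  · intro p
    refine mm R2 _ ?_ ?_ ?_
    · intro x y
      refine measurableSet_setOfPred.2 ?_
      have e : (fun R : R2 => lt (Cod2 R p) x y) = fun R => le2 R p x y :=
        funext fun R => propext (by unfold Cod2 mk1; exact elt _ _ _ x y)
      rw [e]
      exact WMEAS_le2 hlt p x y
    · intro n x y
      refine measurableSet_setOfPred.2 ?_
      have e : (fun R : R2 => ac (Cod2 R p) n x y) = fun R => n = 0 ∧ mo2 R p x y :=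
        funext fun R => propext (by unfold Cod2 mk1; exact eac _ _ _ n x y)
      rw [e]
      exact Measurable.and measurable_const (WMEAS_mo2 hlt p x y)
    · intro i y
      refine measurableSet_setOfPred.2 ?_
      have e : (fun R : R2 => co (Cod2 R p) i y) = fun R => (i = 0 ∧ y = p) ∨
          (i = 1 ∧ cl R p y) ∨ (∃ m, i = m + 2 ∧ co R m y) :=
        funext fun R => propext (by unfold Cod2 mk1; exact eco _ _ _ i y)
      rw [e]
      refine Measurable.or measurable_const (Measurable.or ?_ (Measurable.exists fun m => ?_))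
      · exact Measurable.and measurable_const (WMEAS_cl hlt p y)
      · exact Measurable.and measurable_const (hco m y)
  · have hL : ∀ x y, IsClopen {Y : R2 | lt Y x y} := fun x y =>
      WMEAS_val (fun Y : R2 => Y) continuous_id 0 (v2 0 x y)
    have hM : ∀ n x y, IsClopen {Y : R2 | ac Y n x y} := fun n x y =>
      WMEAS_val (fun Y : R2 => Y) continuous_id (2 * n + 1) (v2 (2 * n + 1) x y)
    have hC : ∀ n x, IsClopen {Y : R2 | co Y n x} := fun n x =>
      WMEAS_val (fun Y : R2 => Y) continuous_id (2 * n + 2) (v2 (2 * n + 2) x x)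
    refine hcont R2 Dec2 ?_ ?_ ?_
    · intro x y
      have e : {Y : R2 | lt (Dec2 Y) x y} = {Y : R2 | lt Y x y} ∩
          ({Y : R2 | co Y 1 x}ᶜ ∪ ({Y : R2 | co Y 1 y} ∪ {Y : R2 | ac Y 0 x y})) := by
        ext Y
        have h1 : lt (Dec2 Y) x y ↔ lt Y x y ∧ (co Y 1 x → ¬ co Y 1 y → mo Y x y) := by
          unfold Dec2; exact elt _ _ _ x y
        show lt (Dec2 Y) x y ↔ lt Y x y ∧ (¬ co Y 1 x ∨ (co Y 1 y ∨ ac Y 0 x y))
        rw [h1]
        unfold mo
        tauto
      rw [e]
      exact (hL x y).inter ((hC 1 x).compl.union ((hC 1 y).union (hM 0 x y)))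
    · intro n x y
      have e : {Y : R2 | ac (Dec2 Y) n x y} = (∅ : Set R2) := by
        ext Y
        have h1 : ac (Dec2 Y) n x y ↔ False := by
          unfold Dec2; exact eac _ _ _ n x y
        show ac (Dec2 Y) n x y ↔ False
        exact h1
      rw [e]
      exact isClopen_empty
    · intro n x
      have e : {Y : R2 | co (Dec2 Y) n x} = {Y : R2 | co Y (n + 2) x} := by
        ext Y
        have h1 : co (Dec2 Y) n x ↔ co Y (n + 2) x := by
          unfold Dec2; exact eco _ _ _ n x
        exact h1
      rw [e]
      exact hC _ x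

end Pool.Agent.H566M
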