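import Pool.Agent.H566M.SpecW

/-! Task WOUT of project H566M: the final form for partial orders of width two. -/

set_option autoImplicit false

namespace Pool.Agent.H566M

open Set MeasureTheory
open Pool.Agent.H899R2.VP (St Adj PIso BF IsoOn idOn inv comp zipSet)
open Pool.Agent.H533R2.VO (RS lift put OS Ic RIso Dich VC BlkV S_FINAL)
open Pool.Agent.H566P (ar R2 v2 a0 a1 lt ac co mk S_ACC)

/-- the code of a structure -/
noncomputable def WOUT_code (x : X2) : R2 :=
  mk (fun m n => x.1 m n = true) (fun _ _ _ => False) (fun i m => x.2 i m = true)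

theorem WOUT_lt (hA : S_ACC) (x : X2) (m n : ℕ) : lt (WOUT_code x) m n ↔ x.1 m n = true :=
  hA.1 _ _ _ m n

theorem WOUT_ac (hA : S_ACC) (x : X2) (k m n : ℕ) : ¬ ac (WOUT_code x) k m n :=
  fun h => (hA.2.1 _ _ _ k m n).1 h

theorem WOUT_co (hA : S_ACC) (x : X2) (i m : ℕ) : co (WOUT_code x) i m ↔ x.2 i m = true :=
  hA.2.2.1 _ _ _ i m

theorem WOUT_beq {a b : Bool} (h : a = true ↔ b = true) : a = b := Bool.eq_iff_iff.2 h

theorem WOUT_inj (hA : S_ACC) : Function.Injective WOUT_code := by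
  intro x y h
  have h1 : x.1 = y.1 := by
    funext m n
    apply WOUT_beq
    rw [← WOUT_lt hA x, ← WOUT_lt hA y, h]
  have h3 : x.2 = y.2 := by
    funext i m
    apply WOUT_beq
    rw [← WOUT_co hA x, ← WOUT_co hA y, h]
  exact Prod.ext h1 h3

theorem WOUT_meas (hA : S_ACC) : Measurable WOUT_code := by
  refine hA.2.2.2.2.2.2.2.2.2.2.1 X2 WOUT_code ?_ ?_ ?_
  · intro m n
    have e : {ω : X2 | lt (WOUT_code ω) m n} = (fun ω : X2 => ω.1 m n) ⁻¹' {true} := by
      ext ω
      exact WOUT_lt hA ω m n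
    rw [e]
    have h : Measurable (fun ω : X2 => ω.1 m n) :=
      (measurable_pi_apply n).comp ((measurable_pi_apply m).comp measurable_fst)
    exact h (measurableSet_singleton _)
  · intro k m n
    have e : {ω : X2 | ac (WOUT_code ω) k m n} = ∅ := by
      ext ω
      exact ⟨fun h => absurd h (WOUT_ac hA ω k m n), fun h => absurd h (Set.notMem_empty _)⟩
    rw [e]
    exact MeasurableSet.empty
  · intro i m
    have e : {ω : X2 | co (WOUT_code ω) i m} = (fun ω : X2 => ω.2 i m) ⁻¹' {true} := by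
      ext ω
      exact WOUT_co hA ω i m
    rw [e]
    have h : Measurable (fun ω : X2 => ω.2 i m) :=
      (measurable_pi_apply m).comp ((measurable_pi_apply i).comp measurable_snd)
    exact h (measurableSet_singleton _)

theorem WOUT_iso (hA : S_ACC) (x y : X2) :
    RIso (WOUT_code x) (WOUT_code y) ↔ ∃ σ : Equiv.Perm ℕ, Isom2 σ x y := by
  rw [hA.2.2.2.2.2.1]
  refine exists_congr fun σ => ?_
  simp only [WOUT_lt hA, WOUT_co hA]
  constructor
  · rintro ⟨h1, -, h3⟩
    exact ⟨fun m n => WOUT_beq (h1 m n), fun i m => WOUT_beq (h3 i m)⟩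
  · rintro ⟨h1, h3⟩
    exact ⟨fun m n => by rw [h1],
      fun k m n => ⟨fun h => absurd h (WOUT_ac hA _ _ _ _), fun h => absurd h (WOUT_ac hA _ _ _ _)⟩,
      fun i m => by rw [h3]⟩

theorem WOUT_rsymm {R R' : R2} (h : RIso R R') : RIso R' R := by
  obtain ⟨σ, hσ⟩ := h
  refine ⟨σ.symm, fun i v => ?_⟩
  have h1 := hσ i (⇑σ.symm ∘ v)
  have e : (⇑σ ∘ (⇑σ.symm ∘ v)) = v := by
    funext k
    exact σ.apply_symm_apply (v k)
  rw [e] at h1
  exact h1.symm

/-- transport of a structure -/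
def WOUT_tr (σ : Equiv.Perm ℕ) (x : X2) : X2 :=
  (fun m n => x.1 (σ.symm m) (σ.symm n), fun i m => x.2 i (σ.symm m))

theorem WOUT_tr_isom (σ : Equiv.Perm ℕ) (x : X2) : Isom2 σ x (WOUT_tr σ x) := by
  refine ⟨fun m n => ?_, fun i m => ?_⟩
  · show x.1 (σ.symm (σ m)) (σ.symm (σ n)) = x.1 m n
    rw [σ.symm_apply_apply, σ.symm_apply_apply]
  · show x.2 i (σ.symm (σ m)) = x.2 i m
    rw [σ.symm_apply_apply]

theorem WOUT_inv (hA : S_ACC) (x : X2) (R : R2)
    (h : RIso (WOUT_code x) R) : ∃ σ : Equiv.Perm ℕ, ∃ y : X2, Isom2 σ x y ∧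
      WOUT_code y = R := by
  obtain ⟨σ, h1, h2, h3⟩ := (hA.2.2.2.2.2.1 _ _).1 h
  simp only [WOUT_lt hA, WOUT_co hA] at h1 h3
  refine ⟨σ, WOUT_tr σ x, WOUT_tr_isom σ x, ?_⟩
  refine hA.2.2.2.1 _ _ (fun m n => ?_) (fun k m n => ?_) (fun i m => ?_)
  · rw [WOUT_lt hA]
    show x.1 (σ.symm m) (σ.symm n) = true ↔ _
    rw [← h1, σ.apply_symm_apply, σ.apply_symm_apply]
  · have h4 := h2 k (σ.symm m) (σ.symm n)
    rw [σ.apply_symm_apply, σ.apply_symm_apply] at h4
    exact ⟨fun h => absurd h (WOUT_ac hA _ _ _ _),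
      fun h => absurd (h4.1 h) (WOUT_ac hA _ _ _ _)⟩
  · rw [WOUT_co hA]
    show x.2 i (σ.symm m) = true ↔ _
    rw [← h3, σ.apply_symm_apply]

theorem WOUT_P2 (hA : S_ACC) (x : X2) (h : PO2 x) : P2 (WOUT_code x) := by
  refine ⟨?_, ?_, ?_, ?_⟩
  · intro m
    rw [WOUT_lt hA, h.irr]
    simp
  · intro m n k
    simp only [WOUT_lt hA]
    exact h.tr m n k
  · obtain ⟨C, hC⟩ := h.two
    refine ⟨C, fun m n hmn => ?_⟩
    obtain ⟨h1, h2, h3⟩ := hmn
    rw [WOUT_lt hA] at h2 h3
    exact hC m n h1 (Bool.eq_false_iff.2 h2) (Bool.eq_false_iff.2 h3)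
  · intro n a b
    exact WOUT_ac hA _ _ _ _

theorem WOUT_clopen {c : (ℕ → Bool) → R2} (hc : Continuous c) (i : ℕ) (v : Fin (ar i) → ℕ) :
    IsClopen {A | c A i v = true} := by
  have h : Continuous (fun A => c A i v) :=
    (continuous_apply v).comp ((continuous_apply i).comp hc)
  exact (isClopen_discrete {true}).preimage h

theorem WOUT_cont {u : (ℕ → Bool) → ℕ → ℕ → Bool}
    (h : ∀ m n, IsClopen {A | u A m n = true}) : Continuous u := by
  refine continuous_pi fun m => continuous_pi fun n => ?_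
  refine continuous_discrete_rng.2 fun b => ?_
  have hcl := h m n
  cases b with
  | true => exact hcl.isOpen
  | false =>
    have e : (fun A => u A m n) ⁻¹' {false} = {A | u A m n = true}ᶜ := by
      ext A
      simp
    rw [e]
    exact hcl.compl.isOpen

theorem t_WOUT (hA : S_ACC) : S_WOUT := by
  classical
  intro hVC B hB hLR hinv
  have hinj := WOUT_inj hA
  set B1 : Set R2 := WOUT_code '' B with hB1
  have hB1m : MeasurableSet B1 :=
    hB.image_of_measurable_injOn (WOUT_meas hA) (hinj.injOn)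
  have hone : ∀ R R' : R2, RIso R R' → R ∈ B1 → R' ∈ B1 := by
    rintro R R' h ⟨x, hx, rfl⟩
    obtain ⟨σ, y, hy, hyR⟩ := WOUT_inv hA x R' h
    exact ⟨y, hinv x hx y σ hy, hyR⟩
  have hV := hVC B1 hB1m
    (fun R R' h => ⟨hone R R' h, hone R' R (WOUT_rsymm h)⟩)
    (by
      rintro R ⟨x, hx, rfl⟩
      exact WOUT_P2 hA x (hLR x hx))
  rcases hV with ⟨f, hf⟩ | ⟨c, hc, hcB, hcI⟩
  · left
    have hch : ∀ n, ∃ x : X2, f n ∈ B1 → WOUT_code x = f n := by
      intro n
      by_cases h : f n ∈ B1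
      · obtain ⟨x, -, hx⟩ := h
        exact ⟨x, fun _ => hx⟩
      · exact ⟨(fun _ _ => false, fun _ _ => false), fun h' => absurd h' h⟩
    choose f' hf' using hch
    refine ⟨f', fun x hx => ?_⟩
    obtain ⟨n, hn⟩ := hf (WOUT_code x) ⟨x, hx, rfl⟩
    have hfn : f n ∈ B1 := hone _ _ (WOUT_rsymm hn) ⟨x, hx, rfl⟩
    refine ⟨n, (WOUT_iso hA _ _).1 ?_⟩
    rw [hf' n hfn]
    exact hn
  · right
    choose X hXB hXc using hcB
    refine ⟨X, ?_, hXB, ?_⟩
    · have h1 : Continuous (fun A => (X A).1) := by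
        refine WOUT_cont fun m n => ?_
        have e : {A | (X A).1 m n = true} = {A | c A 0 (v2 0 m n) = true} := by
          ext A
          show (X A).1 m n = true ↔ lt (c A) m n
          rw [← hXc A, WOUT_lt hA]
        rw [e]
        exact WOUT_clopen hc _ _
      have h3 : Continuous (fun A => (X A).2) := by
        refine WOUT_cont fun i m => ?_
        have e : {A | (X A).2 i m = true} =
            {A | c A (2 * i + 2) (v2 (2 * i + 2) m m) = true} := by
          ext A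
          show (X A).2 i m = true ↔ co (c A) i m
          rw [← hXc A, WOUT_co hA]
        rw [e]
        exact WOUT_clopen hc _ _
      exact h1.prodMk h3
    · intro A A' h
      apply hcI
      rw [← hXc A, ← hXc A']
      exact (WOUT_iso hA _ _).2 h

end Pool.Agent.H566M
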