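import Pool.Agent.H566M.SpecW

/-! WSH: from connected partial orders of width two to all of them (helper718, adapted from
H566P.SH). -/

set_option autoImplicit false

namespace Pool.Agent.H566M

open Set MeasureTheory
open Pool.Agent.H899R2.VP (St Adj PIso BF IsoOn idOn inv comp zipSet)
open Pool.Agent.H533R2.VO (RS lift put OS Ic RIso Dich VC BlkV S_FINAL)
open Pool.Agent.H566P (ar R2 v2 a0 a1 lt ac co mk S_ACC)

/-- `σ` is an isomorphism in terms of the order, the action and the predicates. -/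
private def WSH_iso (R R' : R2) (σ : Equiv.Perm ℕ) : Prop :=
  (∀ x y, lt R' (σ x) (σ y) ↔ lt R x y) ∧ (∀ n x y, ac R' n (σ x) (σ y) ↔ ac R n x y) ∧
    ∀ n x, co R' n (σ x) ↔ co R n x

/-- `σ` is an isomorphism of ordered structures. -/
private def WSH_isoS (M N : St ar) (σ : Equiv.Perm ℕ) : Prop :=
  (∀ x y, N.1 (σ x) (σ y) = M.1 x y) ∧
    ∀ (i : ℕ) (v : Fin (ar i) → ℕ), N.2 i (⇑σ ∘ v) = M.2 i v

private theorem WSH_v2 (σ : ℕ → ℕ) (i x y : ℕ) : σ ∘ v2 i x y = v2 i (σ x) (σ y) := by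
  funext k
  unfold v2
  simp only [Function.comp]
  split_ifs <;> rfl

private theorem WSH_ar (i : ℕ) : 0 < ar i := by
  unfold ar
  split_ifs <;> omega

private theorem WSH_a0 (σ : ℕ → ℕ) (i : ℕ) (v : Fin (ar i) → ℕ) : a0 (σ ∘ v) = σ (a0 v) := by
  unfold a0
  rw [dif_pos (WSH_ar i), dif_pos (WSH_ar i)]
  rfl

private theorem WSH_a1 (σ : ℕ → ℕ) (i : ℕ) (h : 1 < ar i) (v : Fin (ar i) → ℕ) :
    a1 (σ ∘ v) = σ (a1 v) := by
  unfold a1
  rw [dif_pos h, dif_pos h]
  rfl

private theorem WSH_mk (σ : ℕ → ℕ) (L L' : ℕ → ℕ → Prop) (A A' : ℕ → ℕ → ℕ → Prop)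
    (C C' : ℕ → ℕ → Prop) (h1 : ∀ x y, L' (σ x) (σ y) ↔ L x y)
    (h2 : ∀ n x y, A' n (σ x) (σ y) ↔ A n x y) (h3 : ∀ n x, C' n (σ x) ↔ C n x) (i : ℕ)
    (v : Fin (ar i) → ℕ) : mk L' A' C' i (σ ∘ v) = mk L A C i v := by
  unfold mk
  rw [decide_eq_decide]
  by_cases hi : i = 0
  · rw [if_pos hi, if_pos hi, WSH_a0, WSH_a1 σ i (by unfold ar; rw [if_pos (Or.inl hi)]; omega)]
    exact h1 _ _
  · rw [if_neg hi, if_neg hi]
    by_cases hi2 : i % 2 = 1
    · rw [if_pos hi2, if_pos hi2, WSH_a0,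
        WSH_a1 σ i (by unfold ar; rw [if_pos (Or.inr hi2)]; omega)]
      exact h2 _ _ _
    · rw [if_neg hi2, if_neg hi2, WSH_a0]
      exact h3 _ _

private theorem WSH_inc {R R' : R2} {σ : Equiv.Perm ℕ} (h : WSH_iso R R' σ) (x y : ℕ) :
    inc R' (σ x) (σ y) ↔ inc R x y := by
  unfold inc
  rw [h.1, h.1, Ne, Ne, σ.injective.eq_iff]

private theorem WSH_ph {R R' : R2} {σ : Equiv.Perm ℕ} (h : WSH_iso R R' σ) (n : ℕ) (x y : ℕ) :
    ph R' n (σ x) (σ y) ↔ ph R n x y := by
  induction n generalizing y with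
  | zero => exact σ.injective.eq_iff
  | succ n ih =>
    constructor
    · rintro ⟨z, h1, h2⟩
      obtain ⟨z, rfl⟩ := σ.surjective z
      exact ⟨z, (ih z).1 h1, (WSH_inc h z y).1 h2⟩
    · rintro ⟨z, h1, h2⟩
      exact ⟨σ z, (ih z).2 h1, (WSH_inc h z y).2 h2⟩

private theorem WSH_cn (R : R2) (x y : ℕ) : cn R x y ↔ ∃ n, ph R n x y := by
  constructor
  · intro h
    induction h with
    | refl => exact ⟨0, rfl⟩
    | tail _ h2 ih =>
      obtain ⟨n, hn⟩ := ih
      exact ⟨n + 1, _, hn, h2⟩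
  · rintro ⟨n, hn⟩
    induction n generalizing y with
    | zero =>
      have : x = y := hn
      subst this
      exact Relation.ReflTransGen.refl
    | succ n ih =>
      obtain ⟨z, h1, h2⟩ := hn
      exact (ih z h1).tail h2

private theorem WSH_sim {R R' : R2} {σ : Equiv.Perm ℕ} (h : WSH_iso R R' σ) (x y : ℕ) :
    cn R' (σ x) (σ y) ↔ cn R x y := by
  rw [WSH_cn, WSH_cn]
  exact exists_congr fun n => WSH_ph h n x y

private theorem WSH_sharp {R R' : R2} {σ : Equiv.Perm ℕ} (h : WSH_iso R R' σ) :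
    WSH_isoS (sharpW R) (sharpW R') σ := by
  refine ⟨fun x y => ?_, fun i v => ?_⟩
  · unfold sharpW
    simp only [decide_eq_decide]
    rw [h.1, WSH_sim h]
  · exact WSH_mk σ (fun x y => lt R x y ∧ cn R x y) (fun x y => lt R' x y ∧ cn R' x y)
      (fun _ _ _ => False) (fun _ _ _ => False) (co R) (co R')
      (fun x y => by rw [h.1, WSH_sim h]) (fun _ _ _ => Iff.rfl) h.2.2 i v

private theorem WSH_rel {M N : St ar} {σ : Equiv.Perm ℕ} (h : WSH_isoS M N σ) :
    WSH_iso M.2 N.2 σ := by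
  refine ⟨fun x y => ?_, fun n x y => ?_, fun n x => ?_⟩
  · unfold lt
    rw [← h.2 0 (v2 0 x y), WSH_v2]
  · unfold ac
    rw [← h.2 _ (v2 (2 * n + 1) x y), WSH_v2]
  · unfold co
    rw [← h.2 _ (v2 (2 * n + 2) x x), WSH_v2]

private theorem WSH_flat (hA : S_ACC) {M N : St ar} {σ : Equiv.Perm ℕ} (h : WSH_isoS M N σ) :
    WSH_iso (flatW M) (flatW N) σ := by
  obtain ⟨a1, a2, a3, -⟩ := hA
  have h' := WSH_rel h
  refine ⟨fun x y => ?_, fun n x y => ?_, fun n x => ?_⟩
  · unfold flatW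
    rw [a1, a1, h.1, h'.1]
  · unfold flatW
    rw [a2, a2]
  · unfold flatW
    rw [a3, a3, h'.2.2]

private theorem WSH_riso (hA : S_ACC) {R R' : R2} : RIso R R' ↔ ∃ σ, WSH_iso R R' σ :=
  hA.2.2.2.2.2.1 R R'

private theorem WSH_symm {M N : St ar} {σ : Equiv.Perm ℕ} (h : WSH_isoS M N σ) :
    WSH_isoS N M σ.symm := by
  refine ⟨fun x y => ?_, fun i v => ?_⟩
  · have := h.1 (σ.symm x) (σ.symm y)
    rw [Equiv.apply_symm_apply, Equiv.apply_symm_apply] at this
    exact this.symm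
  · have := h.2 i (⇑σ.symm ∘ v)
    rw [← Function.comp_assoc] at this
    simp only [Equiv.self_comp_symm, Function.id_comp] at this
    exact this.symm

private theorem WSH_inv (hA : S_ACC) {B : Set R2}
    (hB : ∀ x y : R2, RIso x y → (x ∈ B ↔ y ∈ B)) {M N : St ar} {σ : Equiv.Perm ℕ}
    (h : WSH_isoS M N σ) (hM : flatW M ∈ B ∧ sharpW (flatW M) = M) :
    flatW N ∈ B ∧ sharpW (flatW N) = N := by
  have hf := WSH_flat hA h
  refine ⟨(hB _ _ ((WSH_riso hA).2 ⟨σ, hf⟩)).1 hM.1, ?_⟩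
  have hs := WSH_sharp hf
  rw [hM.2] at hs
  refine Prod.ext ?_ ?_
  · funext x y
    obtain ⟨x, rfl⟩ := σ.surjective x
    obtain ⟨y, rfl⟩ := σ.surjective y
    rw [hs.1, h.1]
  · funext i v
    have hv : v = ⇑σ ∘ (⇑σ.symm ∘ v) := by
      rw [← Function.comp_assoc, Equiv.self_comp_symm, Function.id_comp]
    rw [hv, hs.2, h.2]

private theorem WSH_meas_flat (hA : S_ACC) : Measurable (flatW : St ar → R2) := by
  obtain ⟨a1, a2, a3, -, -, -, -, m1, m2, m3, m4, -⟩ := hA
  refine m4 (St ar) flatW (fun x y => ?_) (fun n x y => ?_) (fun n x => ?_)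
  · have e : {M : St ar | lt (flatW M) x y} =
        {M : St ar | M.1 x y = true} ∪ Prod.snd ⁻¹' {R : R2 | lt R x y} := by
      ext M
      exact a1 _ _ _ x y
    rw [e]
    refine MeasurableSet.union ?_ (measurable_snd (m1 x y))
    have hm : Measurable (fun M : St ar => M.1 x y) :=
      (measurable_pi_apply y).comp ((measurable_pi_apply x).comp measurable_fst)
    exact hm (measurableSet_singleton true)
  · have e : {M : St ar | ac (flatW M) n x y} = ∅ := by
      ext M
      exact a2 _ _ _ n x y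
    rw [e]
    exact MeasurableSet.empty
  · have e : {M : St ar | co (flatW M) n x} = Prod.snd ⁻¹' {R : R2 | co R n x} := by
      ext M
      exact a3 _ _ _ n x
    rw [e]
    exact measurable_snd (m3 n x)

private theorem WSH_meas_ph (hA : S_ACC) (n x y : ℕ) : MeasurableSet {R : R2 | ph R n x y} := by
  have m1 := hA.2.2.2.2.2.2.2.1
  induction n generalizing y with
  | zero => exact MeasurableSet.const _
  | succ n ih =>
    have e : {R : R2 | ph R (n + 1) x y} = ⋃ z : ℕ, ({R : R2 | ph R n x z} ∩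
        ({_R : R2 | z ≠ y} ∩ ({R : R2 | lt R z y}ᶜ ∩ {R : R2 | lt R y z}ᶜ))) := by
      ext R
      simp only [mem_iUnion]
      rfl
    rw [e]
    exact MeasurableSet.iUnion fun z => (ih z).inter ((MeasurableSet.const _).inter
      ((m1 z y).compl.inter (m1 y z).compl))

private theorem WSH_meas_sim (hA : S_ACC) (x y : ℕ) : MeasurableSet {R : R2 | cn R x y} := by
  have e : {R : R2 | cn R x y} = ⋃ n : ℕ, {R : R2 | ph R n x y} := by
    ext R
    simp only [mem_iUnion]
    exact WSH_cn R x y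
  rw [e]
  exact MeasurableSet.iUnion fun n => WSH_meas_ph hA n x y

private theorem WSH_meas_sharp (hA : S_ACC) : Measurable (sharpW : R2 → St ar) := by
  have hs := WSH_meas_sim hA
  obtain ⟨a1, a2, a3, -, -, -, -, m1, m2, m3, m4, -⟩ := hA
  refine Measurable.prodMk ?_ ?_
  · refine measurable_pi_iff.2 fun x => measurable_pi_iff.2 fun y => ?_
    refine measurable_to_bool ?_
    have e : {R : R2 | lt R x y ∧ ¬ cn R x y} = {R : R2 | lt R x y} ∩ {R : R2 | cn R x y}ᶜ :=
      rfl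
    have e2 : MeasurableSet {R : R2 | lt R x y ∧ ¬ cn R x y} := by
      rw [e]
      exact (m1 x y).inter (hs x y).compl
    refine e2.congr ?_
    ext R
    simp only [mem_preimage, mem_singleton_iff, decide_eq_true_eq, Set.mem_ofPred_eq]
  · refine m4 R2 _ (fun x y => ?_) (fun n x y => ?_) (fun n x => ?_)
    · have e : {R : R2 | lt (mk (fun x y => lt R x y ∧ cn R x y) (fun _ _ _ => False) (co R)) x y} =
          {R : R2 | lt R x y} ∩ {R : R2 | cn R x y} := by
        ext R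
        exact a1 _ _ _ x y
      rw [e]
      exact (m1 x y).inter (hs x y)
    · have e : {R : R2 | ac (mk (fun x y => lt R x y ∧ cn R x y) (fun _ _ _ => False) (co R)) n x y} =
          ∅ := by
        ext R
        exact a2 _ _ _ n x y
      rw [e]
      exact MeasurableSet.empty
    · have e : {R : R2 | co (mk (fun x y => lt R x y ∧ cn R x y) (fun _ _ _ => False) (co R)) n x} =
          {R : R2 | co R n x} := by
        ext R
        exact a3 _ _ _ n x
      rw [e]
      exact m3 n x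

private theorem WSH_meas_fix (hA : S_ACC) : MeasurableSet {M : St ar | sharpW (flatW M) = M} := by
  have hm : Measurable (fun M : St ar => sharpW (flatW M)) :=
    (WSH_meas_sharp hA).comp (WSH_meas_flat hA)
  have e : {M : St ar | sharpW (flatW M) = M} =
      (⋂ x : ℕ, ⋂ y : ℕ, {M : St ar | (sharpW (flatW M)).1 x y = M.1 x y}) ∩
        ⋂ i : ℕ, ⋂ v : Fin (ar i) → ℕ, {M : St ar | (sharpW (flatW M)).2 i v = M.2 i v} := by
    ext M
    simp only [mem_inter_iff, mem_iInter, Set.mem_ofPred_eq]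
    constructor
    · intro h
      exact ⟨fun x y => by rw [h], fun i v => by rw [h]⟩
    · rintro ⟨h1, h2⟩
      exact Prod.ext (funext fun x => funext fun y => h1 x y) (funext fun i => funext fun v =>
        h2 i v)
  rw [e]
  refine MeasurableSet.inter ?_ ?_
  · refine MeasurableSet.iInter fun x => MeasurableSet.iInter fun y => ?_
    have h1 : Measurable (fun M : St ar => M.1 x y) :=
      (measurable_pi_apply y).comp ((measurable_pi_apply x).comp measurable_fst)
    exact measurableSet_eq_fun (h1.comp hm) h1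
  · refine MeasurableSet.iInter fun i => MeasurableSet.iInter fun v => ?_
    have h1 : Measurable (fun M : St ar => M.2 i v) :=
      (measurable_pi_apply v).comp ((measurable_pi_apply i).comp measurable_snd)
    exact measurableSet_eq_fun (h1.comp hm) h1

private theorem WSH_cont_flat (hA : S_ACC) : Continuous (flatW : St ar → R2) := by
  obtain ⟨a1, a2, a3, -, -, -, -, -, -, -, -, c4⟩ := hA
  have hc : ∀ (i : ℕ) (v : Fin (ar i) → ℕ), IsClopen {M : St ar | M.2 i v = true} := by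
    intro i v
    have h1 : Continuous (fun M : St ar => M.2 i v) :=
      (continuous_apply v).comp ((continuous_apply i).comp continuous_snd)
    exact (isClopen_discrete ({true} : Set Bool)).preimage h1
  refine c4 (St ar) flatW (fun x y => ?_) (fun n x y => ?_) (fun n x => ?_)
  · have e : {M : St ar | lt (flatW M) x y} =
        {M : St ar | M.1 x y = true} ∪ {M : St ar | M.2 0 (v2 0 x y) = true} := by
      ext M
      exact a1 _ _ _ x y
    rw [e]
    refine IsClopen.union ?_ (hc _ _)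
    have h1 : Continuous (fun M : St ar => M.1 x y) :=
      (continuous_apply y).comp ((continuous_apply x).comp continuous_fst)
    exact (isClopen_discrete ({true} : Set Bool)).preimage h1
  · have e : {M : St ar | ac (flatW M) n x y} = ∅ := by
      ext M
      exact a2 _ _ _ n x y
    rw [e]
    exact isClopen_empty
  · have e : {M : St ar | co (flatW M) n x} =
        {M : St ar | M.2 (2 * n + 2) (v2 (2 * n + 2) x x) = true} := by
      ext M
      exact a3 _ _ _ n x
    rw [e]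
    exact hc _ _

theorem t_WSH (hA : S_ACC) (h1 : S_WSH1) (hF : S_FINAL) : S_WSH := by
  intro hV B hBm hBi hBV
  let B' : Set (St ar) := {M | flatW M ∈ B ∧ sharpW (flatW M) = M}
  have hB'm : MeasurableSet B' := (WSH_meas_flat hA hBm).inter (WSH_meas_fix hA)
  have hB'i : ∀ M N : St ar, ∀ σ : Equiv.Perm ℕ, (∀ x y, N.1 (σ x) (σ y) = M.1 x y) →
      (∀ (i : ℕ) (v : Fin (ar i) → ℕ), N.2 i (⇑σ ∘ v) = M.2 i v) → (M ∈ B' ↔ N ∈ B') := by
    intro M N σ h2 h3
    have hi : WSH_isoS M N σ := ⟨h2, h3⟩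
    exact ⟨fun h => WSH_inv hA hBi hi h, fun h => WSH_inv hA hBi (WSH_symm hi) h⟩
  have hB'V : ∀ M ∈ B', OS M ∧ BlkV Q2 M := by
    rintro M ⟨hM1, hM2⟩
    obtain ⟨h2, h3, -⟩ := h1 (flatW M) (hBV _ hM1)
    rw [hM2] at h2 h3
    exact ⟨h2, h3⟩
  rcases hF ar (Q2) hV B' hB'm hB'i hB'V with ⟨f, hf⟩ | ⟨c, hc1, hc2, hc3⟩
  · left
    refine ⟨fun n => flatW (f n), fun R hR => ?_⟩
    obtain ⟨-, -, h4⟩ := h1 R (hBV _ hR)
    have hm : sharpW R ∈ B' := by
      refine ⟨?_, ?_⟩
      · rw [h4]; exact hR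
      · rw [h4]
    obtain ⟨n, σ, h5, h6⟩ := hf _ hm
    refine ⟨n, (WSH_riso hA).2 ⟨σ, ?_⟩⟩
    have h7 : WSH_iso (flatW (f n)) (flatW (sharpW R)) σ := WSH_flat hA ⟨h5, h6⟩
    rwa [h4] at h7
  · right
    refine ⟨fun A => flatW (c A), (WSH_cont_flat hA).comp hc1, fun A => (hc2 A).1, ?_⟩
    intro A A' h
    obtain ⟨σ, hσ⟩ := (WSH_riso hA).1 h
    have h2 := WSH_sharp hσ
    rw [(hc2 A).2, (hc2 A').2] at h2
    exact hc3 A A' ⟨σ, h2.1, h2.2⟩

end Pool.Agent.H566M
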