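import Pool.Agent.H566M.SpecW

/-! Task WSH1 (helper840): the ordered sum of the components. -/

set_option autoImplicit false

namespace Pool.Agent.H566M

open Set MeasureTheory
open Pool.Agent.H899R2.VP (St Adj PIso BF IsoOn idOn inv comp zipSet)
open Pool.Agent.H533R2.VO (RS lift put OS Ic RIso Dich VC BlkV S_FINAL)
open Pool.Agent.H566P (ar R2 v2 a0 a1 lt ac co mk S_ACC)

theorem WSH1_incs {R : R2} {x y : ℕ} (h : inc R x y) : inc R y x := ⟨h.1.symm, h.2.2, h.2.1⟩

theorem WSH1_symm {R : R2} {x y : ℕ} (h : cn R x y) : cn R y x := by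
  unfold cn at h ⊢
  induction h with
  | refl => exact Relation.ReflTransGen.refl
  | tail _ h2 ih => exact Relation.ReflTransGen.head (WSH1_incs h2) ih

theorem WSH1_refl (R : R2) (x : ℕ) : cn R x x := Relation.ReflTransGen.refl

theorem WSH1_trans {R : R2} {x y z : ℕ} (h1 : cn R x y) (h2 : cn R y z) : cn R x z :=
  Relation.ReflTransGen.trans h1 h2

theorem WSH1_one {R : R2} {x y : ℕ} (h : inc R x y) : cn R x y :=
  Relation.ReflTransGen.single h

theorem WSH1_comp {R : R2} {x y : ℕ} (h : ¬ cn R x y) : lt R x y ∨ lt R y x := by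
  by_contra hcon
  push Not at hcon
  apply h
  by_cases hxy : x = y
  · rw [hxy]; exact WSH1_refl R y
  · exact WSH1_one ⟨hxy, hcon.1, hcon.2⟩

theorem WSH1_left {R : R2} (h : P2 R) {a a' b : ℕ} (hn : ¬ cn R a b) (hl : lt R a b)
    (hc : cn R a a') : lt R a' b := by
  unfold cn at hc
  induction hc with
  | refl => exact hl
  | @tail c d h1 h2 ih =>
    have hd : ¬ cn R d b := fun h3 => hn (WSH1_trans (Relation.ReflTransGen.tail h1 h2) h3)
    rcases WSH1_comp hd with h3 | h3
    · exact h3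
    · exact absurd (h.tr _ _ _ ih h3) h2.2.1

theorem WSH1_right {R : R2} (h : P2 R) {a b b' : ℕ} (hn : ¬ cn R a b) (hl : lt R a b)
    (hc : cn R b b') : lt R a b' := by
  unfold cn at hc
  induction hc with
  | refl => exact hl
  | @tail c d h1 h2 ih =>
    have hd : ¬ cn R a d := fun h3 =>
      hn (WSH1_trans h3 (WSH1_symm (Relation.ReflTransGen.tail h1 h2)))
    rcases WSH1_comp hd with h3 | h3
    · exact h3
    · exact absurd (h.tr _ _ _ h3 ih) h2.2.2

theorem WSH1_lt (hA : S_ACC) (R : R2) (x y : ℕ) :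
    lt (sharpW R).2 x y ↔ lt R x y ∧ cn R x y :=
  hA.1 (fun x y => lt R x y ∧ cn R x y) (fun _ _ _ => False) (co R) x y

theorem WSH1_ac (hA : S_ACC) (R : R2) (n x y : ℕ) :
    ac (sharpW R).2 n x y ↔ False :=
  hA.2.1 (fun x y => lt R x y ∧ cn R x y) (fun _ _ _ => False) (co R) n x y

theorem WSH1_co (hA : S_ACC) (R : R2) (n x : ℕ) :
    co (sharpW R).2 n x ↔ co R n x :=
  hA.2.2.1 (fun x y => lt R x y ∧ cn R x y) (fun _ _ _ => False) (co R) n x

theorem WSH1_adj (R : R2) (x y : ℕ) : Adj (sharpW R) x y ↔ lt R x y ∧ ¬ cn R x y := by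
  unfold Adj sharpW
  simp only [decide_eq_true_eq]

theorem WSH1_OS {R : R2} (h : P2 R) : OS (sharpW R) := by
  constructor
  · intro x h1
    exact h.irr x ((WSH1_adj R x x).1 h1).1
  · intro x y z h1 h2
    rw [WSH1_adj] at h1 h2 ⊢
    refine ⟨h.tr _ _ _ h1.1 h2.1, fun h3 => ?_⟩
    have h4 := WSH1_right h h2.2 h2.1 (WSH1_symm h3)
    exact h.irr _ (h.tr _ _ _ h1.1 h4)
  · intro x y z h1
    rw [WSH1_adj] at h1
    rw [WSH1_adj, WSH1_adj]
    by_cases hxy : cn R x y
    · right
      exact ⟨WSH1_left h h1.2 h1.1 hxy, fun h2 => h1.2 (WSH1_trans hxy h2)⟩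
    · rcases WSH1_comp hxy with h2 | h2
      · exact Or.inl ⟨h2, hxy⟩
      · right
        refine ⟨h.tr _ _ _ h2 h1.1, fun h4 => ?_⟩
        have h5 := WSH1_right h h1.2 h1.1 (WSH1_symm h4)
        exact h.irr _ (h.tr _ _ _ h2 h5)
  · intro i v hv j k
    rw [WSH1_adj]
    rintro ⟨-, h2⟩
    apply h2
    have key : ∀ j, cn R (a0 v) (v j) := by
      unfold sharpW mk at hv
      simp only [decide_eq_true_eq] at hv
      intro j
      by_cases hi : i = 0 ∨ i % 2 = 1
      · have har : ar i = 2 := by unfold ar; rw [if_pos hi]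
        have hsim : cn R (a0 v) (a1 v) := by
          rcases hi with hi | hi
          · rw [if_pos hi] at hv
            exact hv.2
          · rw [if_neg (by omega), if_pos hi] at hv
            exact hv.elim
        by_cases hj : j.1 = 0
        · have : v j = a0 v := by
            unfold a0
            rw [dif_pos (by omega)]
            congr 1
            exact Fin.ext hj
          rw [this]
          exact WSH1_refl R _
        · have : v j = a1 v := by
            unfold a1
            have hjlt := j.2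
            rw [dif_pos (by omega)]
            congr 1
            exact Fin.ext (by simp only; omega)
          rw [this]
          exact hsim
      · have har : ar i = 1 := by unfold ar; rw [if_neg hi]
        have : v j = a0 v := by
          unfold a0
          have hjlt := j.2
          rw [dif_pos (by omega)]
          congr 1
          exact Fin.ext (by simp only; omega)
        rw [this]
        exact WSH1_refl R _
    exact WSH1_trans (WSH1_symm (key j)) (key k)

theorem WSH1_flat (hA : S_ACC) {R : R2} (h : P2 R) : flatW (sharpW R) = R := by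
  refine hA.2.2.2.1 _ _ (fun x y => ?_) (fun n x y => ?_) (fun n x => ?_)
  · unfold flatW
    rw [hA.1, WSH1_lt hA]
    change Adj (sharpW R) x y ∨ _ ↔ _
    rw [WSH1_adj]
    tauto
  · unfold flatW
    rw [hA.2.1]
    exact ⟨fun h1 => h1.elim, fun h1 => h.ac0 n x y h1⟩
  · unfold flatW
    rw [hA.2.2.1, WSH1_co hA]

theorem WSH1_v2 (e : ℕ → ℕ) (i x y : ℕ) : e ∘ v2 i x y = v2 i (e x) (e y) := by
  funext k
  unfold v2
  simp only [Function.comp_apply]
  split_ifs <;> rfl

theorem WSH1_blk (hA : S_ACC) {R : R2} (h : P2 R) : BlkV Q2 (sharpW R) := by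
  intro x e he hC
  have hcls : ∀ z, cn R x z ↔ ∃ n, e n = z := by
    intro z
    rw [← hC z]
    unfold Ic
    simp only [Set.mem_ofPred_eq, WSH1_adj]
    constructor
    · intro h1
      exact ⟨fun h2 => h2.2 (WSH1_symm h1), fun h2 => h2.2 h1⟩
    · rintro ⟨h1, h2⟩
      by_contra h3
      rcases WSH1_comp h3 with h4 | h4
      · exact h2 ⟨h4, h3⟩
      · exact h1 ⟨h4, fun h5 => h3 (WSH1_symm h5)⟩
  have hx : ∀ n, cn R x (e n) := fun n => (hcls _).2 ⟨n, rfl⟩
  have hee : ∀ n m, cn R (e n) (e m) := fun n m => WSH1_trans (WSH1_symm (hx n)) (hx m)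
  set R' : R2 := fun i v => (sharpW R).2 i (e ∘ v) with hR'
  have hlt : ∀ n m, lt R' n m ↔ lt R (e n) (e m) := by
    intro n m
    have : lt R' n m ↔ lt (sharpW R).2 (e n) (e m) := by
      unfold lt
      rw [hR']
      simp only
      rw [WSH1_v2]
    rw [this, WSH1_lt hA]
    exact ⟨fun h1 => h1.1, fun h1 => ⟨h1, hee n m⟩⟩
  have hac : ∀ k n m, ¬ ac R' k n m := by
    intro k n m
    have : ac R' k n m ↔ ac (sharpW R).2 k (e n) (e m) := by
      unfold ac
      rw [hR']
      simp only
      rw [WSH1_v2]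
    rw [this, WSH1_ac hA]
    exact not_false
  have hinc : ∀ n m, inc R' n m ↔ inc R (e n) (e m) := by
    intro n m
    unfold inc
    rw [hlt, hlt]
    exact and_congr_left fun _ => ⟨fun h1 h2 => h1 (he h2), fun h1 h2 => h1 (by rw [h2])⟩
  refine ⟨⟨?_, ?_, ?_, hac⟩, ?_⟩
  · intro n hn
    exact h.irr _ ((hlt n n).1 hn)
  · intro a b c h1 h2
    rw [hlt] at h1 h2 ⊢
    exact h.tr _ _ _ h1 h2
  · obtain ⟨C, hCC⟩ := h.two
    exact ⟨fun n => C (e n), fun n m h1 => hCC _ _ ((hinc n m).1 h1)⟩
  · intro n m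
    have key : ∀ z, cn R (e n) z → ∃ k, e k = z ∧ cn R' n k := by
      intro z hz
      unfold cn at hz
      induction hz with
      | refl => exact ⟨n, rfl, WSH1_refl R' n⟩
      | @tail c d h1 h2 ih =>
        obtain ⟨k, hk, hk2⟩ := ih
        obtain ⟨k', hk'⟩ := (hcls d).1
          (WSH1_trans (hx n) (Relation.ReflTransGen.tail h1 h2))
        refine ⟨k', hk', WSH1_trans hk2 (WSH1_one ((hinc k k').2 ?_))⟩
        rw [hk, hk']
        exact h2
    obtain ⟨k, hk, hk2⟩ := key (e m) (hee n m)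
    rw [he hk] at hk2
    exact hk2

theorem t_WSH1 (hA : S_ACC) : S_WSH1 := fun _ h => ⟨WSH1_OS h, WSH1_blk hA h, WSH1_flat hA h⟩

end Pool.Agent.H566M
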