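import Pool.Agent.H566M.All
import Pool.Agent.H566M.WCL
import Pool.Agent.H566M.WLE
import Pool.Agent.H566M.WDEC
import Pool.Agent.H566M.WEQ
import Pool.Agent.H566M.WMEAS
import Pool.Agent.H566M.WVC
import Pool.Agent.H566M.WSH1
import Pool.Agent.H566M.WSH
import Pool.Agent.H566M.WOUT
import Pool.Agent.H566M.WDIL

/-! Assembly: Vaught's conjecture for partial orders of width two. -/

set_option autoImplicit false

namespace Pool.Agent.H566M

open Pool.Agent.H533R2.VO (VC)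

theorem vcLM : VC LM := by
  have acc := Pool.Agent.H566P.t_ACC
  have chb := t_CHB
  have lev := t_LEV chb
  have ord := t_ORD acc chb lev
  have dec := t_DEC acc chb lev
  have vce := t_VCE acc (t_CLO acc Pool.Agent.H566P.out) ord dec (t_EQ1 acc) (t_EQ2 acc)
    (t_MEAS acc) (t_CONT acc)
  have vcb := t_VCB acc t_SIM vce (t_DUAL acc vce)
  exact t_SH acc (t_SH1 acc t_SIM) Pool.Agent.H533R2.VO.final vcb

theorem outW (B : Set X2) (hB : MeasurableSet B)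
    (hP : ∀ x ∈ B, (∀ m, x.1 m m = false) ∧
      (∀ m n k, x.1 m n = true → x.1 n k = true → x.1 m k = true) ∧
      ¬ ∃ m n k, m ≠ n ∧ n ≠ k ∧ m ≠ k ∧ x.1 m n = false ∧ x.1 n m = false ∧ x.1 n k = false ∧
        x.1 k n = false ∧ x.1 m k = false ∧ x.1 k m = false)
    (hi : ∀ x ∈ B, ∀ (y : X2) (σ : Equiv.Perm ℕ), Isom2 σ x y → y ∈ B) :
    (∃ f : ℕ → X2, ∀ x ∈ B, ∃ n, ∃ σ : Equiv.Perm ℕ, Isom2 σ (f n) x) ∨
    (∃ c : (ℕ → Bool) → X2, Continuous c ∧ (∀ A, c A ∈ B) ∧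
      ∀ A A', (∃ σ : Equiv.Perm ℕ, Isom2 σ (c A) (c A')) → A = A') := by
  have acc := Pool.Agent.H566P.t_ACC
  have hcl := t_WCL
  have hv := t_WVC acc (t_WLE acc hcl) (t_WDEC acc hcl) (t_WEQ acc) (t_WMEAS acc) vcLM
  have hs := t_WSH acc (t_WSH1 acc) Pool.Agent.H533R2.VO.final hv
  refine t_WOUT acc hs B hB (fun x hx => ?_) hi
  obtain ⟨h1, h2, h3⟩ := hP x hx
  refine ⟨h1, h2, ?_⟩
  obtain ⟨C, hC⟩ := t_WDIL (fun m n => x.1 m n = true) (fun m => by rw [h1 m]; simp) h2 (by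
    rintro ⟨m, n, k, h4, h5, h6, h7⟩
    simp only [Bool.not_eq_true] at h7
    exact h3 ⟨m, n, k, h4, h5, h6, h7.1, h7.2.1, h7.2.2.1, h7.2.2.2.1, h7.2.2.2.2.1,
      h7.2.2.2.2.2⟩)
  refine ⟨C, fun m n h4 h5 h6 => hC m n h4 ?_ ?_⟩
  · rw [h5]; simp
  · rw [h6]; simp

end Pool.Agent.H566M
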