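import Pool.Agent.H566M.Spec

set_option autoImplicit false

namespace Pool.Agent.H566M

open Set
open Pool.Agent.H566P (ar R2 v2 a0 a1 lt ac co mk)

private theorem chb_le_trans {R : R2} (h : LM R) {x y z : ℕ} (h1 : x = y ∨ lt R x y)
    (h2 : y = z ∨ lt R y z) : x = z ∨ lt R x z := by
  rcases h1 with rfl | h1
  · exact h2
  · rcases h2 with rfl | h2
    · exact Or.inr h1
    · exact Or.inr (h.tr _ _ _ h1 h2)

private theorem chb_mono {R : R2} (h : LM R) : ∀ n x x' y y', (x' = x ∨ lt R x' x) →
    ch R n x y → (y = y' ∨ lt R y y') → ch R n x' y' := by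
  intro n
  induction n with
  | zero =>
    intro x x' y y' h1 h2 h3
    exact chb_le_trans h (chb_le_trans h h1 h2) h3
  | succ n ih =>
    intro x x' y y' h1 h2 h3
    obtain ⟨z, h4, h5⟩ := h2
    exact ⟨z, ih x x' z z h1 h4 (Or.inl rfl), h.mono z z y y' (Or.inl rfl) h5 h3⟩

private theorem chb_lt {R : R2} (h : LM R) (hi : ∀ x, ¬ mo R x x) {x y : ℕ} (h1 : mo R x y) :
    lt R x y := by
  by_contra h2
  have h3 : y = x ∨ lt R y x := by
    by_cases h4 : x = y
    · exact Or.inl h4.symm
    · rcases h.tot x y h4 with h5 | h5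
      · exact absurd h5 h2
      · exact Or.inr h5
  exact hi x (h.mono x x y x (Or.inl rfl) h1 h3)

theorem t_CHB : S_CHB := by
  intro R h
  refine ⟨chb_mono h, ?_, ?_, ?_, ?_⟩
  · intro x y
    constructor
    · rintro ⟨z, h1, h2⟩
      exact h.mono z x y y h1 h2 (Or.inl rfl)
    · intro h1
      exact ⟨x, Or.inl rfl, h1⟩
  · intro m n
    induction n with
    | zero =>
      intro x y z h1 h2
      exact chb_mono h m x x y z (Or.inl rfl) h1 h2
    | succ n ih =>
      intro x y z h1 h2
      obtain ⟨w, h3, h4⟩ := h2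
      exact ⟨w, ih x y w h1 h3, h4⟩
  · intro m n
    induction n with
    | zero =>
      intro x z h1
      exact ⟨z, h1, Or.inl rfl⟩
    | succ n ih =>
      intro x z h1
      obtain ⟨w, h2, h3⟩ := h1
      obtain ⟨y, h4, h5⟩ := ih x w h2
      exact ⟨y, h4, w, h5, h3⟩
  · intro hi
    have hle : ∀ n x y, ch R n x y → x = y ∨ lt R x y := by
      intro n
      induction n with
      | zero =>
        intro x y h1
        exact h1
      | succ n ih =>
        intro x y h1
        obtain ⟨z, h2, h3⟩ := h1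
        exact chb_le_trans h (ih x z h2) (Or.inr (chb_lt h hi h3))
    refine ⟨fun x y h1 => chb_lt h hi h1, hle, ?_⟩
    intro n x y h1
    obtain ⟨z, h2, h3⟩ := h1
    have h4 := chb_lt h hi h3
    refine ⟨?_, chb_mono h n x x z y (Or.inl rfl) h2 (Or.inr h4)⟩
    rcases hle n x z h2 with h5 | h5
    · rw [h5]
      exact h4
    · exact h.tr _ _ _ h5 h4

end Pool.Agent.H566M
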