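import Pool.Agent.H566P.Spec

/-! Vaught's conjecture for linear orders with a monotone binary relation and unary predicates:
definitions and the propositions proved by the tasks. The coding of structures is that of
`Pool.Agent.H566P.Spec`. -/

set_option autoImplicit false

namespace Pool.Agent.H566M

open Set MeasureTheory
open Pool.Agent.H899R2.VP (St Adj PIso BF IsoOn idOn inv comp zipSet)
open Pool.Agent.H533R2.VO (RS lift put OS Ic RIso Dich VC BlkV S_FINAL)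
open Pool.Agent.H566P (ar R2 v2 a0 a1 lt ac co mk S_ACC)

/-- the monotone relation -/
def mo (R : R2) (x y : ℕ) : Prop := ac R 0 x y

/-- the structure with given order, monotone relation and predicates -/
noncomputable def mk1 (L M : ℕ → ℕ → Prop) (C : ℕ → ℕ → Prop) : R2 :=
  mk L (fun n x y => n = 0 ∧ M x y) C

/-- linear orders with a monotone relation -/
structure LM (R : R2) : Prop where
  irr : ∀ x, ¬ lt R x x
  tr : ∀ x y z, lt R x y → lt R y z → lt R x z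
  tot : ∀ x y, x ≠ y → lt R x y ∨ lt R y x
  mono : ∀ x x' y y', (x' = x ∨ lt R x' x) → mo R x y → (y = y' ∨ lt R y y') → mo R x' y'
  ac0 : ∀ n x y, ¬ ac R (n + 1) x y

/-- coloured linear orders -/
structure CL (R : R2) : Prop where
  irr : ∀ x, ¬ lt R x x
  tr : ∀ x y z, lt R x y → lt R y z → lt R x z
  tot : ∀ x y, x ≠ y → lt R x y ∨ lt R y x
  ac0 : ∀ n x y, ¬ ac R n x y

/-- `x < y` are linked if `y` is below the cut of `x`, or `x` is above the cut of `y` -/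
def lk (R : R2) (x y : ℕ) : Prop := (lt R x y ∧ (¬ mo R x y ∨ mo R y x)) ∨
  (lt R y x ∧ (¬ mo R y x ∨ mo R x y))

/-- the blocks: connected components of the linking relation -/
def sim (R : R2) (x y : ℕ) : Prop := Relation.ReflTransGen (lk R) x y

/-- blocks -/
structure MB (R : R2) : Prop where
  lm : LM R
  con : ∀ x y, sim R x y

/-- expansive blocks -/
structure ME (R : R2) : Prop where
  lm : LM R
  con : ∀ x y, sim R x y
  ex : ∀ x, ¬ mo R x x

/-- contractive blocks -/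
structure MC (R : R2) : Prop where
  lm : LM R
  con : ∀ x y, sim R x y
  cx : ∀ x, mo R x x

/-- `σ` is an isomorphism from `R` to `R'` -/
def Is (R R' : R2) (σ : Equiv.Perm ℕ) : Prop :=
  (∀ x y, lt R' (σ x) (σ y) ↔ lt R x y) ∧ (∀ n x y, ac R' n (σ x) (σ y) ↔ ac R n x y) ∧
    ∀ n x, co R' n (σ x) ↔ co R n x

/-- chains of length `n` for the monotone relation, up to `≤` -/
def ch (R : R2) : ℕ → ℕ → ℕ → Prop
  | 0, x, y => x = y ∨ lt R x y
  | n + 1, x, y => ∃ z, ch R n x z ∧ mo R z y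

/-- the level of `y` relative to `p` -/
def lv (R : R2) (p : ℕ) (k : ℤ) (y : ℕ) : Prop :=
  (∃ n : ℕ, k = n ∧ ch R n p y ∧ ¬ ch R (n + 1) p y) ∨
  (∃ n : ℕ, k = -(n + 1) ∧ y ≠ p ∧ ch R n y p ∧ ¬ ch R (n + 1) y p)

/-- the merged order -/
def mg (R : R2) (p : ℕ) (x y : ℕ) : Prop := ∃ k l : ℤ, lv R p k x ∧ lv R p l y ∧
  ((k ≤ l ∧ x ≠ y ∧ ch R (l - k).toNat x y) ∨ (l < k ∧ ¬ ch R (k - l).toNat y x))

/-- the coloured linear order coding `R` and the point `p` -/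
noncomputable def Cod (R : R2) (p : ℕ) : R2 :=
  mk (mg R p) (fun _ _ _ => False) (fun i y => (i = 0 ∧ y = p) ∨
    (∃ m, i = 2 * m + 2 ∧ co R m y) ∨ (∃ k : ℤ, i = 2 * Equiv.intEquivNat k + 1 ∧ lv R p k y))

/-- the level predicates of a coloured linear order -/
def lev (Y : R2) (k : ℤ) (y : ℕ) : Prop := co Y (2 * Equiv.intEquivNat k + 1) y

/-- the way back -/
noncomputable def Dec (Y : R2) : R2 :=
  mk1 (fun x y => (∃ k l : ℤ, k < l ∧ lev Y k x ∧ lev Y l y) ∨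
      (∃ k : ℤ, lev Y k x ∧ lev Y k y ∧ lt Y x y))
    (fun x y => (∃ k l : ℤ, k + 2 ≤ l ∧ lev Y k x ∧ lev Y l y) ∨
      (∃ k : ℤ, lev Y k x ∧ lev Y (k + 1) y ∧ lt Y x y))
    (fun m y => co Y (2 * m + 2) y)

/-! ### Chains and levels -/

/-- CHB: chains -/
def S_CHB : Prop := ∀ R : R2, LM R →
  (∀ n x x' y y', (x' = x ∨ lt R x' x) → ch R n x y → (y = y' ∨ lt R y y') → ch R n x' y') ∧
  (∀ x y, ch R 1 x y ↔ mo R x y) ∧
  (∀ m n x y z, ch R m x y → ch R n y z → ch R (m + n) x z) ∧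
  (∀ m n x z, ch R (m + n) x z → ∃ y, ch R m x y ∧ ch R n y z) ∧
  ((∀ x, ¬ mo R x x) → (∀ x y, mo R x y → lt R x y) ∧
    (∀ n x y, ch R n x y → x = y ∨ lt R x y) ∧
    (∀ n x y, ch R (n + 1) x y → lt R x y ∧ ch R n x y))

/-- LEV: levels -/
def S_LEV : Prop := ∀ R : R2, ME R → ∀ p : ℕ,
  (∀ y, ∃ k, lv R p k y) ∧
  (∀ y k l, lv R p k y → lv R p l y → k = l) ∧
  lv R p 0 p ∧
  (∀ x y k l, lv R p k x → lv R p l y → k < l → lt R x y) ∧
  (∀ x y k l, lv R p k x → lv R p l y → k + 2 ≤ l → mo R x y) ∧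
  (∀ (n : ℕ) x y k l, lv R p k x → lv R p l y → ch R n x y → k + n ≤ l)

/-- ORD: the merged order is a linear order -/
def S_ORD : Prop := ∀ R : R2, ME R → ∀ p : ℕ, CL (Cod R p)

/-- DEC: decoding -/
def S_DEC : Prop := ∀ R : R2, ME R → ∀ p : ℕ, Dec (Cod R p) = R ∧
  (∀ y, ∃ k, lev (Cod R p) k y) ∧ (∀ y k l, lev (Cod R p) k y → lev (Cod R p) l y → k = l) ∧
  (∀ y, co (Cod R p) 0 y ↔ y = p)

/-- EQ1: coding respects isomorphisms -/
def S_EQ1 : Prop := ∀ (R R' : R2) (σ : Equiv.Perm ℕ), Is R R' σ → ∀ p,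
  Is (Cod R p) (Cod R' (σ p)) σ

/-- EQ2: decoding respects isomorphisms -/
def S_EQ2 : Prop := ∀ (Y Y' : R2) (σ : Equiv.Perm ℕ), Is Y Y' σ → Is (Dec Y) (Dec Y') σ

/-- MEAS: measurability -/
def S_MEAS : Prop := (∀ p, Measurable fun R : R2 => Cod R p) ∧ Measurable Dec

/-- CONT: continuity -/
def S_CONT : Prop := ∀ c : (ℕ → Bool) → R2, Continuous c →
  (∀ A y, ∃ k, lev (c A) k y) → (∀ A y k l, lev (c A) k y → lev (c A) l y → k = l) →
  Continuous fun A => Dec (c A)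

/-- CLO: coloured linear orders (Rubin, Steel) -/
def S_CLO : Prop := VC CL

/-- VCE: expansive blocks -/
def S_VCE : Prop := VC ME

/-- DUAL: contractive blocks -/
def S_DUAL : Prop := VC ME → VC MC

/-! ### Blocks -/

/-- SIM: the blocks -/
def S_SIM : Prop := ∀ R : R2, LM R →
  (∀ x y, sim R x y → sim R y x) ∧
  (∀ x y z, sim R x y → lt R x z → lt R z y → sim R x z) ∧
  (∀ x y x' y', sim R x x' → sim R y y' → ¬ sim R x y → lt R x y → lt R x' y') ∧
  (∀ x y, lt R x y → ¬ sim R x y → mo R x y ∧ ¬ mo R y x) ∧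
  (∀ x y, sim R x y → (mo R x x ↔ mo R y y))

/-- VCB: all blocks -/
def S_VCB : Prop := VC ME → VC MC → VC MB

open Classical in
/-- the ordered sum of the blocks -/
noncomputable def sharp (R : R2) : St ar :=
  (fun x y => decide (lt R x y ∧ ¬ sim R x y),
    mk1 (fun x y => lt R x y ∧ sim R x y) (fun x y => mo R x y ∧ sim R x y) (co R))

/-- the way back -/
noncomputable def flat (M : St ar) : R2 :=
  mk1 (fun x y => M.1 x y = true ∨ lt M.2 x y) (fun x y => M.1 x y = true ∨ mo M.2 x y) (co M.2)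

/-- SH1 -/
def S_SH1 : Prop := ∀ R : R2, LM R → OS (sharp R) ∧ BlkV MB (sharp R) ∧ flat (sharp R) = R

/-- SH -/
def S_SH : Prop := VC MB → VC LM

/-! ### The final theorem -/

/-- structures `(ℕ, <, ρ, (U_n))` -/
abbrev X3 : Type := (ℕ → ℕ → Bool) × (ℕ → ℕ → Bool) × (ℕ → ℕ → Bool)

/-- `x.1` is a strict linear order and `x.2.1` is a monotone relation -/
structure LR (x : X3) : Prop where
  irr : ∀ m, x.1 m m = false
  tr : ∀ m n k, x.1 m n = true → x.1 n k = true → x.1 m k = true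
  tot : ∀ m n, m ≠ n → x.1 m n = true ∨ x.1 n m = true
  left : ∀ m n k, x.1 m n = true → x.2.1 n k = true → x.2.1 m k = true
  right : ∀ m n k, x.2.1 m n = true → x.1 n k = true → x.2.1 m k = true

/-- `σ` is an isomorphism from `x` to `y` -/
def Isom3 (σ : Equiv.Perm ℕ) (x y : X3) : Prop :=
  (∀ m n, y.1 (σ m) (σ n) = x.1 m n) ∧ (∀ m n, y.2.1 (σ m) (σ n) = x.2.1 m n) ∧
    ∀ i m, y.2.2 i (σ m) = x.2.2 i m

/-- OUT -/
def S_OUT : Prop := VC LM → ∀ B : Set X3, MeasurableSet B →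
  (∀ x ∈ B, LR x) → (∀ x ∈ B, ∀ (y : X3) (σ : Equiv.Perm ℕ), Isom3 σ x y → y ∈ B) →
  (∃ f : ℕ → X3, ∀ x ∈ B, ∃ n, ∃ σ : Equiv.Perm ℕ, Isom3 σ (f n) x) ∨
  (∃ c : (ℕ → Bool) → X3, Continuous c ∧ (∀ A, c A ∈ B) ∧
    ∀ A A', (∃ σ : Equiv.Perm ℕ, Isom3 σ (c A) (c A')) → A = A')

end Pool.Agent.H566M
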