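import Pool.Agent.H566M.Spec

/-! Vaught's conjecture for partial orders of width two with unary predicates: definitions and
the propositions proved by the tasks. -/

set_option autoImplicit false

namespace Pool.Agent.H566M

open Set MeasureTheory
open Pool.Agent.H899R2.VP (St Adj PIso BF IsoOn idOn inv comp zipSet)
open Pool.Agent.H533R2.VO (RS lift put OS Ic RIso Dich VC BlkV S_FINAL)
open Pool.Agent.H566P (ar R2 v2 a0 a1 lt ac co mk S_ACC)

/-- incomparable elements -/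
def inc (R : R2) (x y : ℕ) : Prop := x ≠ y ∧ ¬ lt R x y ∧ ¬ lt R y x

/-- partial orders which are the union of two chains, with unary predicates -/
structure P2 (R : R2) : Prop where
  irr : ∀ x, ¬ lt R x x
  tr : ∀ x y z, lt R x y → lt R y z → lt R x z
  two : ∃ C : ℕ → Prop, ∀ x y, inc R x y → (C x ↔ ¬ C y)
  ac0 : ∀ n x y, ¬ ac R n x y

/-- connected by incomparability -/
def cn (R : R2) (x y : ℕ) : Prop := Relation.ReflTransGen (inc R) x y

/-- connected partial orders of width at most two -/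
structure Q2 (R : R2) : Prop where
  p2 : P2 R
  con : ∀ x y, cn R x y

/-- paths of length `n` in the incomparability graph -/
def ph (R : R2) : ℕ → ℕ → ℕ → Prop
  | 0, x, y => x = y
  | n + 1, x, y => ∃ z, ph R n x z ∧ inc R z y

/-- the chain of `p`: the elements at even distance -/
def cl (R : R2) (p y : ℕ) : Prop := ∃ n, ph R (2 * n) p y

/-- the linear extension which puts the chain of `p` below the other one -/
def le2 (R : R2) (p x y : ℕ) : Prop := lt R x y ∨ (inc R x y ∧ cl R p x ∧ ¬ cl R p y)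

/-- the monotone relation generated by the comparabilities of the two chains -/
def mo2 (R : R2) (p x y : ℕ) : Prop := ∃ x' y', cl R p x' ∧ ¬ cl R p y' ∧ lt R x' y' ∧
  (x = x' ∨ le2 R p x x') ∧ (y' = y ∨ le2 R p y' y)

/-- the linear order with a monotone relation coding `R` and the point `p` -/
noncomputable def Cod2 (R : R2) (p : ℕ) : R2 :=
  mk1 (le2 R p) (mo2 R p) (fun i y => (i = 0 ∧ y = p) ∨ (i = 1 ∧ cl R p y) ∨
    (∃ m, i = m + 2 ∧ co R m y))

/-- the way back -/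
noncomputable def Dec2 (Y : R2) : R2 :=
  mk (fun x y => lt Y x y ∧ (co Y 1 x → ¬ co Y 1 y → mo Y x y)) (fun _ _ _ => False)
    (fun m y => co Y (m + 2) y)

/-- WCL: the chains -/
def S_WCL : Prop := ∀ R : R2, Q2 R → ∀ p : ℕ,
  cl R p p ∧ (∀ x y, inc R x y → (cl R p x ↔ ¬ cl R p y)) ∧ (∀ x y, inc R x y → inc R y x)

/-- WLE: the coded structure -/
def S_WLE : Prop := ∀ R : R2, Q2 R → ∀ p : ℕ, LM (Cod2 R p)

/-- WDEC: decoding -/
def S_WDEC : Prop := ∀ R : R2, Q2 R → ∀ p : ℕ, Dec2 (Cod2 R p) = R ∧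
  (∀ y, co (Cod2 R p) 0 y ↔ y = p)

/-- WEQ: coding and decoding respect isomorphisms -/
def S_WEQ : Prop := (∀ (R R' : R2) (σ : Equiv.Perm ℕ), Is R R' σ → ∀ p,
    Is (Cod2 R p) (Cod2 R' (σ p)) σ) ∧
  (∀ (Y Y' : R2) (σ : Equiv.Perm ℕ), Is Y Y' σ → Is (Dec2 Y) (Dec2 Y') σ)

/-- WMEAS: measurability and continuity -/
def S_WMEAS : Prop := (∀ p, Measurable fun R : R2 => Cod2 R p) ∧ Continuous Dec2

/-- WVC: connected partial orders -/
def S_WVC : Prop := VC LM → VC Q2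

open Classical in
/-- the ordered sum of the components -/
noncomputable def sharpW (R : R2) : St ar :=
  (fun x y => decide (lt R x y ∧ ¬ cn R x y),
    mk (fun x y => lt R x y ∧ cn R x y) (fun _ _ _ => False) (co R))

/-- the way back -/
noncomputable def flatW (M : St ar) : R2 :=
  mk (fun x y => M.1 x y = true ∨ lt M.2 x y) (fun _ _ _ => False) (co M.2)

/-- WSH1 -/
def S_WSH1 : Prop := ∀ R : R2, P2 R → OS (sharpW R) ∧ BlkV Q2 (sharpW R) ∧ flatW (sharpW R) = R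

/-- WSH -/
def S_WSH : Prop := VC Q2 → VC P2

/-- structures `(ℕ, <, (U_n))` -/
abbrev X2 : Type := (ℕ → ℕ → Bool) × (ℕ → ℕ → Bool)

/-- `x.1` is a strict partial order without antichains of size three which is a union of two
chains -/
structure PO2 (x : X2) : Prop where
  irr : ∀ m, x.1 m m = false
  tr : ∀ m n k, x.1 m n = true → x.1 n k = true → x.1 m k = true
  two : ∃ C : ℕ → Prop, ∀ m n, m ≠ n → x.1 m n = false → x.1 n m = false → (C m ↔ ¬ C n)

/-- `σ` is an isomorphism from `x` to `y` -/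
def Isom2 (σ : Equiv.Perm ℕ) (x y : X2) : Prop :=
  (∀ m n, y.1 (σ m) (σ n) = x.1 m n) ∧ ∀ i m, y.2 i (σ m) = x.2 i m

/-- WOUT -/
def S_WOUT : Prop := VC P2 → ∀ B : Set X2, MeasurableSet B →
  (∀ x ∈ B, PO2 x) → (∀ x ∈ B, ∀ (y : X2) (σ : Equiv.Perm ℕ), Isom2 σ x y → y ∈ B) →
  (∃ f : ℕ → X2, ∀ x ∈ B, ∃ n, ∃ σ : Equiv.Perm ℕ, Isom2 σ (f n) x) ∨
  (∃ c : (ℕ → Bool) → X2, Continuous c ∧ (∀ A, c A ∈ B) ∧
    ∀ A A', (∃ σ : Equiv.Perm ℕ, Isom2 σ (c A) (c A')) → A = A')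

/-- WDIL: a partial order without antichains of size three is a union of two chains (Dilworth) -/
def S_WDIL : Prop := ∀ r : ℕ → ℕ → Prop, (∀ x, ¬ r x x) → (∀ x y z, r x y → r y z → r x z) →
  (¬ ∃ x y z, x ≠ y ∧ y ≠ z ∧ x ≠ z ∧ ¬ r x y ∧ ¬ r y x ∧ ¬ r y z ∧ ¬ r z y ∧ ¬ r x z ∧
    ¬ r z x) →
  ∃ C : ℕ → Prop, ∀ x y, x ≠ y → ¬ r x y → ¬ r y x → (C x ↔ ¬ C y)

end Pool.Agent.H566M
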